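import Mathlib

/-! Finitely generated projective modules over a finite-dimensional algebra with at most two simple
modules. -/

set_option linter.style.haveILetI false
set_option linter.unusedSectionVars false

namespace Pool.Agent.H51.T2

open Module

universe u

section cover

variable {A : Type u} [Ring A] [IsNoetherianRing A] [IsArtinianRing A]

omit [IsArtinianRing A] in
/-- A module with a surjection onto a simple module which is minimal in the sense that
endomorphisms compatible with the surjection are bijective. -/
theorem top_of_minimal {S P : Type u} [AddCommGroup S] [Module A S] [IsSimpleModule A S]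
    [AddCommGroup P] [Module A P] [Module.Finite A P] [Module.Projective A P]
    {π : P →ₗ[A] S} (hmin : ∀ φ : P →ₗ[A] P, π ∘ₗ φ = π → Function.Bijective φ)
    (N : Submodule A P) (hN : ∃ x ∈ N, π x ≠ 0) : N = ⊤ := by
  obtain ⟨x, hx, hx0⟩ := hN
  obtain ⟨n, ρ, hρ⟩ := Module.Finite.exists_fin' A N
  have hs : Function.Surjective (π ∘ₗ N.subtype ∘ₗ ρ) := by
    refine (LinearMap.surjective_or_eq_zero _).resolve_right fun h => hx0 ?_
    obtain ⟨y, hy⟩ := hρ ⟨x, hx⟩
    have := LinearMap.congr_fun h y
    simpa [hy] using this
  obtain ⟨α, hα⟩ := Module.projective_lifting_property (π ∘ₗ N.subtype ∘ₗ ρ) π hs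
  have h1 := hmin (N.subtype ∘ₗ ρ ∘ₗ α) hα
  rw [eq_top_iff]
  intro y _
  obtain ⟨z, rfl⟩ := h1.2 y
  exact (ρ (α z)).2

omit [IsArtinianRing A] in
theorem local_of_minimal {S P : Type u} [AddCommGroup S] [Module A S] [IsSimpleModule A S]
    [AddCommGroup P] [Module A P] [Module.Finite A P] [Module.Projective A P]
    {π : P →ₗ[A] S} (hπ : Function.Surjective π)
    (hmin : ∀ φ : P →ₗ[A] P, π ∘ₗ φ = π → Function.Bijective φ)
    (φ ψ : P →ₗ[A] P) (h : φ - ψ = LinearMap.id) :
    Function.Bijective φ ∨ Function.Bijective ψ := by
  have key : ∀ χ : P →ₗ[A] P, π ∘ₗ χ ≠ 0 → Function.Bijective χ := by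
    intro χ hχ
    have hex : ∃ x ∈ LinearMap.range χ, π x ≠ 0 := by
      by_contra hne
      push Not at hne
      apply hχ
      ext x
      exact hne (χ x) ⟨x, rfl⟩
    have h1 := top_of_minimal hmin _ hex
    have h2 : Function.Surjective χ := LinearMap.range_eq_top.1 h1
    exact ⟨IsNoetherian.injective_of_surjective_endomorphism χ h2, h2⟩
  by_cases hφ : π ∘ₗ φ = 0
  · right
    apply key
    intro hψ
    have hπ0 : π = 0 := by
      have h3 : π ∘ₗ (φ - ψ) = π := by rw [h]; rfl
      rw [← h3, LinearMap.comp_sub, hφ, hψ, sub_self]
    haveI hnt := IsSimpleModule.nontrivial A S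
    obtain ⟨s, hs⟩ := exists_ne (0 : S)
    obtain ⟨x, rfl⟩ := hπ s
    rw [hπ0] at hs
    exact hs rfl
  · exact Or.inl (key φ hφ)

end cover

section dim

variable (K : Type*) [Field K] {A : Type u} [Ring A] [Algebra K A] [FiniteDimensional K A]

include K in
theorem noeth_of_fd : IsNoetherianRing A := isNoetherian_of_tower K inferInstance

include K in
theorem artin_of_fd : IsArtinianRing A := isArtinian_of_tower K inferInstance

/-- The dimension over the field of a module, the field acting through the algebra. -/
noncomputable def kdim (M : Type*) [AddCommGroup M] [Module A M] : ℕ :=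
  letI : Module K M := Module.compHom M (algebraMap K A)
  finrank K M

theorem kdim_eq (M : Type*) [AddCommGroup M] [Module A M] [Module K M] [IsScalarTower K A M] :
    kdim (A := A) K M = finrank K M := by
  have h : (Module.compHom M (algebraMap K A) : Module K M) = ‹Module K M› := by
    apply Module.ext'
    intro r m
    exact algebraMap_smul A r m
  unfold kdim
  rw [h]

/-- The scalar structure over the field of a module over the algebra. -/
theorem tower_compHom (M : Type*) [AddCommGroup M] [Module A M] :
    letI : Module K M := Module.compHom M (algebraMap K A)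
    IsScalarTower K A M := by
  letI : Module K M := Module.compHom M (algebraMap K A)
  refine ⟨fun k a m => ?_⟩
  show (k • a) • m = (algebraMap K A k) • (a • m)
  rw [Algebra.smul_def, mul_smul]

theorem finite_compHom (M : Type*) [AddCommGroup M] [Module A M] [Module.Finite A M] :
    letI : Module K M := Module.compHom M (algebraMap K A)
    Module.Finite K M := by
  letI : Module K M := Module.compHom M (algebraMap K A)
  haveI := tower_compHom (A := A) K M
  exact Module.Finite.trans A M

theorem kdim_congr {M N : Type*} [AddCommGroup M] [Module A M] [AddCommGroup N] [Module A N]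
    (e : M ≃ₗ[A] N) : kdim (A := A) K M = kdim (A := A) K N := by
  letI : Module K M := Module.compHom M (algebraMap K A)
  haveI := tower_compHom (A := A) K M
  letI : Module K N := Module.compHom N (algebraMap K A)
  haveI := tower_compHom (A := A) K N
  exact LinearEquiv.finrank_eq (e.restrictScalars K)

theorem kdim_prod (M N : Type*) [AddCommGroup M] [Module A M] [AddCommGroup N] [Module A N]
    [Module.Finite A M] [Module.Finite A N] :
    kdim (A := A) K (M × N) = kdim (A := A) K M + kdim (A := A) K N := by
  letI : Module K M := Module.compHom M (algebraMap K A)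
  haveI := tower_compHom (A := A) K M
  letI : Module K N := Module.compHom N (algebraMap K A)
  haveI := tower_compHom (A := A) K N
  haveI : Module.Finite K M := Module.Finite.trans A M
  haveI : Module.Finite K N := Module.Finite.trans A N
  rw [kdim_eq K (M × N), kdim_eq K M, kdim_eq K N, Module.finrank_prod]

theorem kdim_pos (M : Type*) [AddCommGroup M] [Module A M] [Module.Finite A M] [Nontrivial M] :
    0 < kdim (A := A) K M := by
  letI : Module K M := Module.compHom M (algebraMap K A)
  haveI := tower_compHom (A := A) K M
  haveI : Module.Finite K M := Module.Finite.trans A M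
  exact Module.finrank_pos

theorem kdim_submodule_lt {M : Type*} [AddCommGroup M] [Module A M] [Module.Finite A M]
    {N : Submodule A M} (hN : N ≠ ⊤) : kdim (A := A) K N < kdim (A := A) K M := by
  letI : Module K M := Module.compHom M (algebraMap K A)
  haveI := tower_compHom (A := A) K M
  haveI : Module.Finite K M := Module.Finite.trans A M
  rw [kdim_eq K N, kdim_eq K M]
  have h1 : N.restrictScalars K ≠ ⊤ := by
    intro h
    apply hN
    rw [eq_top_iff]
    intro x _
    have : x ∈ N.restrictScalars K := by rw [h]; trivial
    exact this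
  exact Submodule.finrank_lt h1

include K in
/-- Existence of a projective cover of a simple module. -/
theorem exists_cover (S : Type u) [AddCommGroup S] [Module A S] [IsSimpleModule A S] :
    ∃ (P : Type u) (_ : AddCommGroup P) (_ : Module A P) (_ : Module.Finite A P)
      (_ : Module.Projective A P) (π : P →ₗ[A] S), Function.Surjective π ∧
      ∀ φ : P →ₗ[A] P, π ∘ₗ φ = π → Function.Bijective φ := by
  classical
  haveI : IsNoetherianRing A := noeth_of_fd K
  haveI : IsArtinianRing A := artin_of_fd K
  let p : ℕ → Prop := fun n => ∃ (P : Type u) (_ : AddCommGroup P) (_ : Module A P)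
    (_ : Module.Finite A P) (_ : Module.Projective A P) (π : P →ₗ[A] S),
      Function.Surjective π ∧ kdim (A := A) K P = n
  have hp : ∃ n, p n := by
    haveI := IsSimpleModule.nontrivial A S
    obtain ⟨s, hs⟩ := exists_ne (0 : S)
    refine ⟨_, A, inferInstance, inferInstance, inferInstance, inferInstance,
      LinearMap.toSpanSingleton A S s, ?_, rfl⟩
    refine (LinearMap.surjective_or_eq_zero _).resolve_right fun h => hs ?_
    have := LinearMap.congr_fun h 1
    simpa using this
  obtain ⟨P, i1, i2, i3, i4, π, hπ, hd⟩ := Nat.find_spec hp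
  refine ⟨P, i1, i2, i3, i4, π, hπ, fun φ hφ => ?_⟩
  have hpow : ∀ n, π ∘ₗ (φ ^ n) = π := by
    intro n
    induction n with
    | zero => rfl
    | succ n ih =>
      rw [pow_succ, Module.End.mul_eq_comp, ← LinearMap.comp_assoc, ih, hφ]
  obtain ⟨n, hn⟩ := ((Filter.eventually_gt_atTop 0).and
    (LinearMap.eventually_isCompl_ker_pow_range_pow (R := A) φ)).exists
  obtain ⟨hn0, hn⟩ := hn
  set R := LinearMap.range (φ ^ n) with hR
  have hproj : Module.Projective A R := by
    obtain ⟨q, hq⟩ : ∃ q : P →ₗ[A] R, q ∘ₗ R.subtype = LinearMap.id := by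
      refine ⟨R.projectionOnto (LinearMap.ker (φ ^ n)) hn.symm, ?_⟩
      ext x
      simp
    exact Module.Projective.of_split R.subtype q hq
  have hsurj : Function.Surjective (π ∘ₗ R.subtype) := by
    intro s
    obtain ⟨x, rfl⟩ := hπ s
    refine ⟨⟨(φ ^ n) x, ⟨x, rfl⟩⟩, ?_⟩
    exact LinearMap.congr_fun (hpow n) x
  have htop : R = ⊤ := by
    by_contra hne
    have h1 := kdim_submodule_lt K hne
    have h2 : p (kdim (A := A) K R) :=
      ⟨R, inferInstance, inferInstance, inferInstance, hproj, π ∘ₗ R.subtype, hsurj, rfl⟩
    have h3 := Nat.find_min' hp h2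
    rw [hd] at h1
    omega
  have h4 : Function.Surjective (φ ^ n) := LinearMap.range_eq_top.1 htop
  have h5 : Function.Surjective φ := by
    obtain ⟨m, rfl⟩ := Nat.exists_eq_succ_of_ne_zero hn0.ne'
    rw [pow_succ', Module.End.mul_eq_comp] at h4
    exact Function.Surjective.of_comp h4
  exact ⟨IsNoetherian.injective_of_surjective_endomorphism φ h5, h5⟩

include K in
/-- A projective module with a surjection onto the simple module has the cover as a summand. -/
theorem split_cover {S P : Type u} [AddCommGroup S] [Module A S]
    [AddCommGroup P] [Module A P] [Module.Projective A P]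
    {π : P →ₗ[A] S} (hπ : Function.Surjective π)
    (hmin : ∀ φ : P →ₗ[A] P, π ∘ₗ φ = π → Function.Bijective φ)
    {Q : Type u} [AddCommGroup Q] [Module A Q] [Module.Finite A Q] [Module.Projective A Q]
    {ρ : Q →ₗ[A] S} (hρ : Function.Surjective ρ) :
    ∃ (Q' : Type u) (_ : AddCommGroup Q') (_ : Module A Q') (_ : Module.Finite A Q')
      (_ : Module.Projective A Q'), Nonempty (Q ≃ₗ[A] (P × Q')) := by
  haveI : IsNoetherianRing A := noeth_of_fd K
  obtain ⟨α, hα⟩ := Module.projective_lifting_property ρ π hρ
  obtain ⟨β, hβ⟩ := Module.projective_lifting_property π ρ hπ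
  have h1 : Function.Bijective (β ∘ₗ α) := by
    apply hmin
    rw [← LinearMap.comp_assoc, hβ, hα]
  let e := LinearEquiv.ofBijective _ h1
  let σ : P →ₗ[A] Q := α ∘ₗ e.symm.toLinearMap
  have hσ : ∀ x, β (σ x) = x := fun x => e.apply_symm_apply x
  let k : Q →ₗ[A] LinearMap.ker β :=
    LinearMap.codRestrict _ (LinearMap.id - σ ∘ₗ β) (fun q => by
      rw [LinearMap.mem_ker]; simp [hσ])
  refine ⟨LinearMap.ker β, inferInstance, inferInstance, inferInstance, ?_, ⟨?_⟩⟩
  · refine Module.Projective.of_split (LinearMap.ker β).subtype k ?_
    ext x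
    simp [k]
  · exact
      { toFun := fun q => (β q, k q)
        invFun := fun z => σ z.1 + z.2
        map_add' := fun x y => by simp
        map_smul' := fun a x => by simp
        left_inv := fun q => by simp [k]
        right_inv := fun z => by
          obtain ⟨x, y, hy⟩ := z
          rw [LinearMap.mem_ker] at hy
          ext
          · simp [hσ, hy]
          · simp [k, hσ, hy] }

end dim

end Pool.Agent.H51.T2
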