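import Pool.Agent.H51.T2.Sub

/-! Finitely many bricks. -/

set_option linter.style.haveILetI false
set_option linter.unusedSectionVars false

namespace Pool.Agent.H51.T2

open Module

universe u

section quad

variable (K : Type*) [Field K] [Infinite K] {A : Type u} [Ring A] [Algebra K A]
variable {E F N : Type u}
variable [AddCommGroup E] [Module K E] [Module A E] [IsScalarTower K A E] [FiniteDimensional K E]
variable [AddCommGroup F] [Module K F] [Module A F] [IsScalarTower K A F] [FiniteDimensional K F]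
variable [AddCommGroup N] [Module K N] [Module A N] [IsScalarTower K A N] [FiniteDimensional K N]

include K in
/-- A brick with the property of `X` and without the property of a compatible map `Y` is
determined by the left neighbour `Z` of `X`. -/
theorem brick_iso [Module.Projective A E] [Module.Projective A F]
    (hEF : ∀ (M : Type u) [AddCommGroup M] [Module A M], (∀ φ : E →ₗ[A] M, φ = 0) →
      (∀ φ : F →ₗ[A] M, φ = 0) → Subsingleton M)
    (hN : Brick A N) {a b a' b' : ℕ} {X : QOb A E F a b} {Z : QOb A E F a' b'} (hX : Rigid X)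
    (hZ : Rigid Z) (hXZ : EZero X Z) (hdt : a * b' < a' * b)
    (hloc : ∀ φ : Coker Z →ₗ[A] Coker Z, Function.Bijective φ ∨ ∃ n, φ ^ n = 0)
    (hT : TT X N) {a₁ b₁ : ℕ} {Y : QOb A E F a₁ b₁} (hYX : EZero Y X) (hY : ¬ TT Y N) :
    Nonempty (N ≃ₗ[A] (Coker Z ⧸ jac A (Coker Z))) := by
  haveI : Module.Projective A PUnit.{u+1} := projective_punit
  haveI := projective_pi (A := A) E b'
  haveI := projective_pi (A := A) E b₁
  haveI := projective_pi (A := A) PUnit.{u+1} a₁
  haveI := hN.1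
  haveI := projective_pi (A := A) E b
  haveI := projective_pi (A := A) F a'
  haveI := projective_pi (A := A) F a
  haveI := projective_pi (A := A) PUnit.{u+1} a'
  haveI := projective_pi (A := A) PUnit.{u+1} a
  haveI := projective_pi (A := A) PUnit.{u+1} b'
  haveI := projective_pi (A := A) PUnit.{u+1} b
  haveI : IsNoetherian A N := isNoetherian_of_tower K inferInstance
  -- the smallest quotient
  have hex : ∃ U : Submodule A N, U ≠ ⊤ ∧ HH X (N ⧸ U) := by
    refine ⟨tr A (Coker X) N, fun htop => hY ?_, hh_quot K (EZero.tt hX)⟩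
    have h1 : TT Y (Coker X) := EZero.tt hYX
    have h2 : TT Y (tr A (Coker X) N) := h1.tr K
    rw [htop] at h2
    exact h2.congr (Submodule.topEquiv)
  obtain ⟨U, hU1, hU2, hU3⟩ := min_quot (S := Coker Z) hex
  have hTU : TT X (N ⧸ U) := hT.surj (Submodule.mkQ_surjective U)
  have hTC : TT X (Coker Z) := EZero.tt hXZ
  -- a map onto the quotient
  obtain ⟨φ₀, hφ₀⟩ : ∃ φ : Coker Z →ₗ[A] (N ⧸ U), φ ≠ 0 := by
    by_contra hne
    push Not at hne
    have h1 : tr A (Coker Z) (N ⧸ U) = ⊤ := gen_left K hEF hTU hZ hdt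
    have h2 : tr A (Coker Z) (N ⧸ U) = ⊥ := by
      rw [tr, iSup_eq_bot]
      intro φ
      rw [hne φ, LinearMap.range_zero]
    rw [h1] at h2
    exact hU1 (Submodule.Quotient.subsingleton_iff.1
      ((Submodule.subsingleton_iff A).1 (subsingleton_of_bot_eq_top h2.symm)))
  obtain ⟨φ, hφ, hφj⟩ := exists_socle K hloc φ₀ hφ₀
  have hφs : Function.Surjective φ := hU3 φ hTC hφ
  -- its kernel
  haveI hfK : FiniteDimensional K (LinearMap.ker φ) :=
    Module.Finite.of_injective ((LinearMap.ker φ).subtype.restrictScalars K)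
      (Submodule.injective_subtype _)
  have hK1 : TT X (LinearMap.ker φ) := hTC.ker hU2
  have hK2 : tr A (Coker Z) (LinearMap.ker φ) = ⊤ := gen_left K hEF hK1 hZ hdt
  have hKj : jac A (Coker Z) = LinearMap.ker φ := by
    apply le_antisymm
    · refine iSup_le fun j => ?_
      rintro _ ⟨x, rfl⟩
      rw [LinearMap.mem_ker]
      exact LinearMap.congr_fun (hφj j.1 j.2) x
    · intro x hx
      have h1 : (⟨x, hx⟩ : LinearMap.ker φ) ∈ tr A (Coker Z) (LinearMap.ker φ) := by
        rw [hK2]; trivial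
      have h2 : tr A (Coker Z) (LinearMap.ker φ) ≤
          (jac A (Coker Z)).comap (LinearMap.ker φ).subtype := by
        refine iSup_le fun α => ?_
        rintro _ ⟨y, rfl⟩
        rw [Submodule.mem_comap]
        refine mem_jac (j := (LinearMap.ker φ).subtype ∘ₗ α) (fun hb => hφ ?_) y
        apply LinearMap.ext
        intro z
        obtain ⟨w, hw⟩ := hb.2 z
        have h3 := (α w).2
        rw [LinearMap.mem_ker] at h3
        simp only [LinearMap.comp_apply, Submodule.subtype_apply] at hw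
        rw [hw] at h3
        exact h3
      exact h2 h1
  -- a map to the brick
  obtain ⟨ψ₀, hψ₀⟩ : ∃ ψ : Coker Z →ₗ[A] N, ψ ≠ 0 := by
    by_contra hne
    push Not at hne
    have h1 : tr A (Coker Z) N = ⊤ := gen_left K hEF hT hZ hdt
    have h2 : tr A (Coker Z) N = ⊥ := by
      rw [tr, iSup_eq_bot]
      intro φ
      rw [hne φ, LinearMap.range_zero]
    rw [h1] at h2
    exact absurd ((Submodule.subsingleton_iff A).1 (subsingleton_of_bot_eq_top h2.symm))
      (not_subsingleton N)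
  obtain ⟨ψ, hψ, hψj⟩ := exists_socle K hloc ψ₀ hψ₀
  let e : (Coker Z ⧸ jac A (Coker Z)) ≃ₗ[A] (N ⧸ U) :=
    (Submodule.quotEquivOfEq _ _ hKj) ≪≫ₗ LinearMap.quotKerEquivOfSurjective φ hφs
  have hjψ : jac A (Coker Z) ≤ LinearMap.ker ψ := by
    refine iSup_le fun j => ?_
    rintro _ ⟨x, rfl⟩
    rw [LinearMap.mem_ker]
    exact LinearMap.congr_fun (hψj j.1 j.2) x
  let ι : (N ⧸ U) →ₗ[A] N := (jac A (Coker Z)).liftQ ψ hjψ ∘ₗ e.symm.toLinearMap
  have hι : ι ≠ 0 := by
    intro h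
    apply hψ
    apply LinearMap.ext
    intro x
    have h1 := LinearMap.congr_fun h (e ((jac A (Coker Z)).mkQ x))
    simp only [ι, LinearMap.comp_apply, LinearEquiv.coe_coe, LinearEquiv.symm_apply_apply,
      Submodule.mkQ_apply, Submodule.liftQ_apply, LinearMap.zero_apply] at h1
    exact h1
  have hb := hN.bij_of_surj (Submodule.mkQ_surjective U) hι
  exact ⟨LinearEquiv.ofBijective _ hb ≪≫ₗ e.symm⟩

end quad

/-- Finitely many modules contain all bricks of a quadrant. -/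
theorem bricks_of_quadrant (K : Type*) [Field K] [Infinite K] {A : Type u} [Ring A] [Algebra K A]
    [FiniteDimensional K A] (E F : Type u) [AddCommGroup E] [Module A E] [AddCommGroup F]
    [Module A F] [Module.Finite A E] [Module.Finite A F] [Module.Projective A E]
    [Module.Projective A F] [Nontrivial E] [Nontrivial F] (hE : KS A E) (hF : KS A F)
    (hEF : ∀ (M : Type u) [AddCommGroup M] [Module A M], (∀ φ : E →ₗ[A] M, φ = 0) →
      (∀ φ : F →ₗ[A] M, φ = 0) → Subsingleton M)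
    (hyp : ∀ a b : ℕ, ∃ f : QOb A E F a b, Rigid f) :
    ∃ L : List (ModuleCat.{u} A), ∀ (N : Type u) [AddCommGroup N] [Module A N]
      [Module.Finite A N], Brick A N → (∃ φ : E →ₗ[A] N, φ ≠ 0) →
      (∃ (a b : ℕ) (f : QOb A E F a b), 0 < b ∧ Rigid f ∧ TT f N) →
      ∃ X ∈ L, Nonempty (N ≃ₗ[A] X) := by
  classical
  letI : Module K E := Module.compHom E (algebraMap K A)
  haveI : IsScalarTower K A E := tower_compHom (A := A) K E
  haveI : Module.Finite K E := Module.Finite.trans A E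
  letI : Module K F := Module.compHom F (algebraMap K A)
  haveI : IsScalarTower K A F := tower_compHom (A := A) K F
  haveI : Module.Finite K F := Module.Finite.trans A F
  obtain ⟨L, hL⟩ : ∃ L : List (Σ c : ℕ × ℕ, QOb A E F c.1 c.2), Cov L :=
    exists_covers_all (A := A) (P₁ := PUnit.{u+1}) (Q₁ := F) (P₂ := E) (Q₂ := PUnit.{u+1}) K hyp
  have claim : ∀ X : Σ c : ℕ × ℕ, QOb A E F c.1 c.2, ∃ G : ModuleCat.{u} A,
      (X ∈ L → 0 < X.1.2 → ∃ (a' b' : ℕ) (Z : QOb A E F a' b'), Rigid Z ∧ EZero X.2 Z ∧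
        0 < dt (a', b') X.1 ∧
        (∀ φ : Coker Z →ₗ[A] Coker Z, Function.Bijective φ ∨ ∃ n, φ ^ n = 0) ∧
        Nonempty ((Coker Z ⧸ jac A (Coker Z)) ≃ₗ[A] G)) := by
    intro X
    by_cases h : X ∈ L ∧ 0 < X.1.2
    · obtain ⟨h1, h2⟩ := h
      have h3 : dt (1, 0) X.1 = X.1.2 := by simp [dt]
      obtain ⟨Z₀, z1, z2, z3, z4⟩ := nbr K hL X (hL.1 X h1) (1, 0) (by rw [h3]; omega)
      have hex : ∃ n, ∃ (a' b' : ℕ) (Z : QOb A E F a' b'), Rigid Z ∧ EZero X.2 Z ∧
          EZero Z X.2 ∧ 0 < dt (a', b') X.1 ∧ a' + b' = n := by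
        refine ⟨_, Z₀.1.1, Z₀.1.2, Z₀.2, hL.1 _ z1, z3, z4, ?_, rfl⟩
        rw [h3] at z2
        exact pos_of_mul_pos_right z2 (by positivity)
      obtain ⟨a', b', Z, y1, y2, y3, y4, y5⟩ := Nat.find_spec hex
      refine ⟨ModuleCat.of A (Coker Z ⧸ jac A (Coker Z)), fun _ _ =>
        ⟨a', b', Z, y1, y2, y4, ?_, ⟨LinearEquiv.refl A _⟩⟩⟩
      refine local_end K hE hF X.2 Z y1 y2 y3 y4 ?_
      intro a'' b'' Z' w1 w2 w3 w4
      rw [y5]
      exact Nat.find_min' hex ⟨a'', b'', Z', w1, w2, w3, w4, rfl⟩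
    · exact ⟨ModuleCat.of A PUnit, fun h1 h2 => absurd ⟨h1, h2⟩ h⟩
  choose G hG using claim
  refine ⟨L.map G, ?_⟩
  rintro N _ _ _ hN ⟨φE, hφE⟩ ⟨a, b, f, hb, hf, hT⟩
  letI : Module K N := Module.compHom N (algebraMap K A)
  haveI : IsScalarTower K A N := tower_compHom (A := A) K N
  haveI : Module.Finite K N := Module.Finite.trans A N
  -- the positive ones
  have hpos : ∀ (a b : ℕ) (f : QOb A E F a b), 0 < b → TT f N → 0 < a := by
    intro a b f hb hf
    rcases Nat.eq_zero_or_pos a with rfl | ha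
    · exfalso
      have h1 := hf.le K
      rw [finrank_src, finrank_tgt, zero_mul] at h1
      have h2 : finrank K (E →ₗ[A] N) = 0 := by
        rcases Nat.mul_eq_zero.1 (Nat.le_zero.1 h1) with h | h
        · omega
        · exact h
      haveI : FiniteDimensional K (E →ₗ[A] N) := finite_hom
      haveI := Module.finrank_zero_iff.1 h2
      exact hφE (Subsingleton.elim _ _)
    · exact ha
  let S : Set (Σ c : ℕ × ℕ, QOb A E F c.1 c.2) := {X | X ∈ L ∧ 0 < X.1.2 ∧ TT X.2 N}
  have hSfin : S.Finite := (List.finite_toSet L).subset fun X hX => hX.1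
  have hSne : S.Nonempty := by
    obtain ⟨X, hX, Y, hY, α, β, hab, hXY, hYX⟩ := hL.2 a b
    obtain ⟨Z, z1, z2, z3⟩ := exists_comb X Y α β a b hab
    have hZ : Rigid Z := z1.rigid (hL.1 _ hX) (hL.1 _ hY) hXY hYX
    have hTZ : TT Z N := hT.iso (rigid_unique K hf hZ)
    have hb' : b = α * X.1.2 + β * Y.1.2 := by
      have := congrArg Prod.snd hab
      simpa using this
    by_cases h1 : 0 < α ∧ 0 < X.1.2
    · exact ⟨X, hX, h1.2, (z2 h1.1).tt N hTZ⟩
    · have h2 : α * X.1.2 = 0 := by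
        rcases Nat.eq_zero_or_pos α with h | h
        · rw [h, zero_mul]
        · have : X.1.2 = 0 := by
            by_contra hne
            exact h1 ⟨h, Nat.pos_of_ne_zero hne⟩
          rw [this, mul_zero]
      rw [h2, zero_add] at hb'
      have h3 : 0 < β := by
        rcases Nat.eq_zero_or_pos β with h | h
        · rw [h, zero_mul] at hb'; omega
        · exact h
      have h4 : 0 < Y.1.2 := by
        rcases Nat.eq_zero_or_pos Y.1.2 with h | h
        · rw [h, mul_zero] at hb'; omega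
        · exact h
      exact ⟨Y, hY, h4, (z3 h3).tt N hTZ⟩
  obtain ⟨X, ⟨hXL, hXb, hXT⟩, hXmax⟩ := Set.exists_max_image S
    (fun X => (X.1.2 : ℚ) / X.1.1) hSfin hSne
  have hXa := hpos _ _ _ hXb hXT
  have hXr := hL.1 _ hXL
  have h0 : dt (0, 1) X.1 = - X.1.1 := by simp [dt]
  obtain ⟨Y, hYL, hY1, hXY, hYX⟩ := nbr K hL X hXr (0, 1) (by rw [h0]; omega)
  have hY2 : dt Y.1 X.1 < 0 := by
    rw [h0] at hY1
    by_contra hge
    push Not at hge
    have : -(X.1.1 : ℤ) * dt Y.1 X.1 ≤ 0 := by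
      have h1 : (0 : ℤ) ≤ (X.1.1 : ℤ) := by positivity
      nlinarith
    omega
  have hYT : ¬ TT Y.2 N := by
    intro hYT
    have hYb : 0 < Y.1.2 := by
      rcases Nat.eq_zero_or_pos Y.1.2 with h | h
      · exfalso
        simp only [dt, h] at hY2
        have : (0 : ℤ) ≤ (Y.1.1 : ℤ) * (X.1.2 : ℤ) := by positivity
        simp at hY2
        linarith
      · exact h
    have hYa := hpos _ _ _ hYb hYT
    have h1 : (Y.1.2 : ℚ) / Y.1.1 ≤ (X.1.2 : ℚ) / X.1.1 := hXmax Y ⟨hYL, hYb, hYT⟩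
    rw [div_le_div_iff₀ (by exact_mod_cast hYa) (by exact_mod_cast hXa)] at h1
    have h2 : Y.1.2 * X.1.1 ≤ X.1.2 * Y.1.1 := by exact_mod_cast h1
    have h3 : (Y.1.2 : ℤ) * X.1.1 ≤ X.1.2 * Y.1.1 := by exact_mod_cast h2
    simp only [dt] at hY2
    linarith
  obtain ⟨a', b', Z, z1, z2, z3, z4, ⟨e⟩⟩ := hG X hXL hXb
  have hdt : X.1.1 * b' < a' * X.1.2 := by
    simp only [dt] at z3
    have : (X.1.1 : ℤ) * b' < a' * X.1.2 := by linarith
    exact_mod_cast this
  obtain ⟨e'⟩ := brick_iso K hEF hN hXr z1 z2 hdt z4 hXT hYX hYT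
  exact ⟨G X, List.mem_map.2 ⟨X, hXL, rfl⟩, ⟨e' ≪≫ₗ e⟩⟩

/-- A module outside the quadrant has the simple top of `E` as a quotient. -/
theorem top_of_no_rigid (K : Type*) [Field K] [Infinite K] {A : Type u} [Ring A] [Algebra K A]
    [FiniteDimensional K A] (E F : Type u) [AddCommGroup E] [Module A E] [AddCommGroup F]
    [Module A F] [Module.Finite A E] [Module.Finite A F] [Module.Projective A E]
    [Module.Projective A F] {S₁ S₂ : Type u} [AddCommGroup S₁] [Module A S₁]
    [AddCommGroup S₂] [Module A S₂] [IsSimpleModule A S₂]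
    (hS : ∀ (S : Type u) [AddCommGroup S] [Module A S] [IsSimpleModule A S],
      Nonempty (S ≃ₗ[A] S₁) ∨ Nonempty (S ≃ₗ[A] S₂))
    {π : F →ₗ[A] S₂} (hπ : Function.Surjective π)
    (hyp : ∀ a b : ℕ, ∃ f : QOb A E F a b, Rigid f)
    (N : Type u) [AddCommGroup N] [Module A N] [Module.Finite A N]
    (hno : ¬ ∃ (a b : ℕ) (f : QOb A E F a b), 0 < b ∧ Rigid f ∧ TT f N) :
    ∃ ρ : N →ₗ[A] S₁, Function.Surjective ρ := by
  classical
  haveI : IsNoetherianRing A := noeth_of_fd K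
  haveI : IsArtinianRing A := artin_of_fd K
  letI : Module K E := Module.compHom E (algebraMap K A)
  haveI : IsScalarTower K A E := tower_compHom (A := A) K E
  haveI : Module.Finite K E := Module.Finite.trans A E
  letI : Module K F := Module.compHom F (algebraMap K A)
  haveI : IsScalarTower K A F := tower_compHom (A := A) K F
  haveI : Module.Finite K F := Module.Finite.trans A F
  letI : Module K N := Module.compHom N (algebraMap K A)
  haveI : IsScalarTower K A N := tower_compHom (A := A) K N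
  haveI : Module.Finite K N := Module.Finite.trans A N
  haveI : Module.Projective A PUnit.{u+1} := projective_punit
  haveI : FiniteDimensional K (E →ₗ[A] F) := finite_hom
  set m := finrank K (E →ₗ[A] F) with hm
  haveI := projective_pi (A := A) E 1
  haveI := projective_pi (A := A) F m
  haveI := projective_pi (A := A) PUnit.{u+1} m
  haveI := projective_pi (A := A) PUnit.{u+1} 1
  let b := Module.finBasis K (E →ₗ[A] F)
  let f₁ : QOb A E F m 1 := LinearMap.inl A _ _ ∘ₗ (LinearMap.pi fun i => b i) ∘ₗ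
    (LinearMap.proj 0) ∘ₗ LinearMap.snd A (Fin m → PUnit.{u+1}) (Fin 1 → E)
  have hf₁ : TT f₁ F := by
    intro k
    let k' : E →ₗ[A] F := k ∘ₗ LinearMap.inr A _ _ ∘ₗ LinearMap.single A (fun _ : Fin 1 => E) 0
    refine ⟨(∑ i, (b.repr k' i) • (LinearMap.proj (R := A) (φ := fun _ : Fin m => F) i)) ∘ₗ
      LinearMap.fst A _ _, ?_⟩
    have h1 : k' = ∑ i, (b.repr k' i) • b i := (b.sum_repr k').symm
    apply LinearMap.ext
    rintro ⟨x, y⟩
    have h2 : k (x, y) = k' (y 0) := by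
      show k (x, y) = k (0, Pi.single 0 (y 0))
      congr 1
      refine Prod.ext (Subsingleton.elim _ _) ?_
      funext i
      rw [Subsingleton.elim i 0]
      simp
    have h3 : k' (y 0) = ∑ c, (b.repr k') c • (b c) (y 0) := by
      conv_lhs => rw [h1]
      rw [LinearMap.sum_apply]
      rfl
    rw [h2, h3]
    simp [f₁]
  have htr : tr A F N ≠ ⊤ := by
    intro htop
    have h1 : TT f₁ (tr A F N) := hf₁.tr K
    rw [htop] at h1
    have h2 : TT f₁ N := h1.congr Submodule.topEquiv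
    obtain ⟨f₀, hf₀⟩ := hyp m 1
    exact hno ⟨m, 1, f₀, Nat.one_pos, hf₀, h2.rigid K hf₀⟩
  obtain ⟨W, hW, hle⟩ := (eq_top_or_exists_le_coatom (tr A F N)).resolve_left htr
  haveI hsim : IsSimpleModule A (N ⧸ W) := isSimpleModule_iff_isCoatom.2 hW
  rcases hS (N ⧸ W) with ⟨⟨e⟩⟩ | ⟨⟨e⟩⟩
  · exact ⟨e.toLinearMap ∘ₗ W.mkQ, e.surjective.comp (Submodule.mkQ_surjective W)⟩
  · exfalso
    obtain ⟨l, hl⟩ := Module.projective_lifting_property (e.toLinearMap ∘ₗ W.mkQ) π
      (e.surjective.comp (Submodule.mkQ_surjective W))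
    haveI := IsSimpleModule.nontrivial A S₂
    obtain ⟨s, hs⟩ := exists_ne (0 : S₂)
    obtain ⟨x, rfl⟩ := hπ s
    apply hs
    rw [← hl]
    have h1 : l x ∈ W := hle (mem_tr l x)
    have h2 : W.mkQ (l x) = 0 := (Submodule.Quotient.mk_eq_zero W).2 h1
    simp only [LinearMap.comp_apply]
    rw [h2, map_zero]

/-- If all classes are rigid, an algebra with at most two simple modules has finitely many
bricks. -/
theorem main_bricks (K : Type*) [Field K] [Infinite K] (A : Type u) [Ring A] [Algebra K A]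
    [FiniteDimensional K A] (S₁ S₂ : Type u) [AddCommGroup S₁] [Module A S₁]
    [AddCommGroup S₂] [Module A S₂] [IsSimpleModule A S₁] [IsSimpleModule A S₂]
    (hS : ∀ (S : Type u) [AddCommGroup S] [Module A S] [IsSimpleModule A S],
      Nonempty (S ≃ₗ[A] S₁) ∨ Nonempty (S ≃ₗ[A] S₂))
    (hyp : ∀ (P Q : Type u) [AddCommGroup P] [Module A P] [AddCommGroup Q] [Module A Q]
      [Module.Finite A P] [Module.Finite A Q] [Module.Projective A P] [Module.Projective A Q],
      ∃ f : P →ₗ[A] Q, Rigid f) :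
    ∃ L : List (ModuleCat.{u} A), ∀ (N : Type u) [AddCommGroup N] [Module A N]
      [Module.Finite A N], Brick A N → ∃ X ∈ L, Nonempty (N ≃ₗ[A] X) := by
  haveI : IsNoetherianRing A := noeth_of_fd K
  haveI : IsArtinianRing A := artin_of_fd K
  obtain ⟨E, i1, i2, i3, i4, π₁, hπ₁, hmin₁⟩ := exists_cover (A := A) K S₁
  obtain ⟨F, j1, j2, j3, j4, π₂, hπ₂, hmin₂⟩ := exists_cover (A := A) K S₂
  have hS1 := IsSimpleModule.nontrivial A S₁
  have hS2 := IsSimpleModule.nontrivial A S₂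
  haveI hEn : Nontrivial E := by
    obtain ⟨s, t, hst⟩ := hS1.exists_pair_ne
    obtain ⟨x, rfl⟩ := hπ₁ s
    obtain ⟨y, rfl⟩ := hπ₁ t
    exact ⟨x, y, fun h => hst (by rw [h])⟩
  haveI hFn : Nontrivial F := by
    obtain ⟨s, t, hst⟩ := hS2.exists_pair_ne
    obtain ⟨x, rfl⟩ := hπ₂ s
    obtain ⟨y, rfl⟩ := hπ₂ t
    exact ⟨x, y, fun h => hst (by rw [h])⟩
  have hπ₁0 : π₁ ≠ 0 := by
    intro h
    obtain ⟨s, hs⟩ := exists_ne (0 : S₁)
    obtain ⟨x, rfl⟩ := hπ₁ s
    rw [h] at hs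
    exact hs rfl
  have hπ₂0 : π₂ ≠ 0 := by
    intro h
    obtain ⟨s, hs⟩ := exists_ne (0 : S₂)
    obtain ⟨x, rfl⟩ := hπ₂ s
    rw [h] at hs
    exact hs rfl
  have hKE : KS A E := ks_of_cover K hπ₁ hmin₁
  have hKF : KS A F := ks_of_cover K hπ₂ hmin₂
  have hypEF : ∀ a b : ℕ, ∃ f : QOb A E F a b, Rigid f := by
    intro a b
    haveI : Module.Projective A PUnit.{u+1} := projective_punit
    haveI := projective_pi (A := A) E b
    haveI := projective_pi (A := A) F a
    haveI := projective_pi (A := A) PUnit.{u+1} a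
    haveI := projective_pi (A := A) PUnit.{u+1} b
    exact hyp _ _
  have hypFE : ∀ a b : ℕ, ∃ f : QOb A F E a b, Rigid f := by
    intro a b
    haveI : Module.Projective A PUnit.{u+1} := projective_punit
    haveI := projective_pi (A := A) F b
    haveI := projective_pi (A := A) E a
    haveI := projective_pi (A := A) PUnit.{u+1} a
    haveI := projective_pi (A := A) PUnit.{u+1} b
    exact hyp _ _
  -- a nonzero finitely generated module has a simple quotient
  have hquo : ∀ (N : Type u) [AddCommGroup N] [Module A N] [Module.Finite A N] [Nontrivial N],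
      (∃ ρ : N →ₗ[A] S₁, Function.Surjective ρ) ∨ (∃ ρ : N →ₗ[A] S₂, Function.Surjective ρ) := by
    intro N _ _ _ _
    obtain ⟨W, hW⟩ := IsCoatomic.exists_coatom (α := Submodule A N)
    haveI : IsSimpleModule A (N ⧸ W) := isSimpleModule_iff_isCoatom.2 hW
    rcases hS (N ⧸ W) with ⟨⟨e⟩⟩ | ⟨⟨e⟩⟩
    · exact Or.inl ⟨e.toLinearMap ∘ₗ W.mkQ, e.surjective.comp (Submodule.mkQ_surjective W)⟩
    · exact Or.inr ⟨e.toLinearMap ∘ₗ W.mkQ, e.surjective.comp (Submodule.mkQ_surjective W)⟩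
  have hsub : ∀ (N : Type u) [AddCommGroup N] [Module A N] [Module.Finite A N] [Nontrivial N],
      (∃ ι : S₁ →ₗ[A] N, ι ≠ 0) ∨ (∃ ι : S₂ →ₗ[A] N, ι ≠ 0) := by
    intro N _ _ _ _
    obtain ⟨W, hW⟩ := IsAtomic.exists_atom (α := Submodule A N)
    haveI : IsSimpleModule A W := isSimpleModule_iff_isAtom.2 hW
    haveI := IsSimpleModule.nontrivial A W
    have h0 : ∀ (S : Type u) [AddCommGroup S] [Module A S] (e : W ≃ₗ[A] S),
        W.subtype ∘ₗ e.symm.toLinearMap ≠ 0 := by
      intro S _ _ e h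
      obtain ⟨w, hw⟩ := exists_ne (0 : W)
      apply hw
      have := LinearMap.congr_fun h (e w)
      simp only [LinearMap.comp_apply, LinearEquiv.coe_coe, LinearEquiv.symm_apply_apply,
        LinearMap.zero_apply] at this
      exact Subtype.ext this
    rcases hS W with ⟨⟨e⟩⟩ | ⟨⟨e⟩⟩
    · exact Or.inl ⟨_, h0 _ e⟩
    · exact Or.inr ⟨_, h0 _ e⟩
  -- a finitely generated module without maps from both covers vanishes
  have hEF' : ∀ (M : Type u) [AddCommGroup M] [Module A M], (∀ φ : E →ₗ[A] M, φ = 0) →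
      (∀ φ : F →ₗ[A] M, φ = 0) → Subsingleton M := by
    intro M _ _ h1 h2
    by_contra hne
    haveI := not_subsingleton_iff_nontrivial.1 hne
    obtain ⟨x, hx⟩ := exists_ne (0 : M)
    let M' : Submodule A M := Submodule.span A {x}
    haveI : Nontrivial M' := ⟨⟨x, Submodule.mem_span_singleton_self x⟩, 0, fun h =>
      hx (congrArg Subtype.val h)⟩
    rcases hquo M' with ⟨ρ, hρ⟩ | ⟨ρ, hρ⟩
    · obtain ⟨l, hl⟩ := Module.projective_lifting_property ρ π₁ hρ
      apply hπ₁0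
      have : l = 0 := by
        ext y
        exact LinearMap.congr_fun (h1 (M'.subtype ∘ₗ l)) y
      rw [← hl, this, LinearMap.comp_zero]
    · obtain ⟨l, hl⟩ := Module.projective_lifting_property ρ π₂ hρ
      apply hπ₂0
      have : l = 0 := by
        ext y
        exact LinearMap.congr_fun (h2 (M'.subtype ∘ₗ l)) y
      rw [← hl, this, LinearMap.comp_zero]
  obtain ⟨L₁, hL₁⟩ := bricks_of_quadrant K E F hKE hKF hEF' hypEF
  obtain ⟨L₂, hL₂⟩ := bricks_of_quadrant K F E hKF hKE (fun M _ _ h1 h2 => hEF' M h2 h1) hypFE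
  refine ⟨ModuleCat.of A S₁ :: ModuleCat.of A S₂ :: (L₁ ++ L₂), ?_⟩
  intro N _ _ _ hN
  haveI := hN.1
  have fin₁ : (∃ ρ : N →ₗ[A] S₁, Function.Surjective ρ) → (∃ ι : S₁ →ₗ[A] N, ι ≠ 0) →
      ∃ X ∈ ModuleCat.of A S₁ :: ModuleCat.of A S₂ :: (L₁ ++ L₂), Nonempty (N ≃ₗ[A] X) := by
    rintro ⟨ρ, hρ⟩ ⟨ι, hι⟩
    exact ⟨ModuleCat.of A S₁, by simp, ⟨LinearEquiv.ofBijective ρ (hN.bij_of_surj hρ hι)⟩⟩
  have fin₂ : (∃ ρ : N →ₗ[A] S₂, Function.Surjective ρ) → (∃ ι : S₂ →ₗ[A] N, ι ≠ 0) →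
      ∃ X ∈ ModuleCat.of A S₁ :: ModuleCat.of A S₂ :: (L₁ ++ L₂), Nonempty (N ≃ₗ[A] X) := by
    rintro ⟨ρ, hρ⟩ ⟨ι, hι⟩
    exact ⟨ModuleCat.of A S₂, by simp, ⟨LinearEquiv.ofBijective ρ (hN.bij_of_surj hρ hι)⟩⟩
  by_cases hE0 : ∃ φ : E →ₗ[A] N, φ ≠ 0
  · by_cases hF0 : ∃ φ : F →ₗ[A] N, φ ≠ 0
    · by_cases h1 : ∃ (a b : ℕ) (f : QOb A E F a b), 0 < b ∧ Rigid f ∧ TT f N
      · obtain ⟨X, hX, hNX⟩ := hL₁ N hN hE0 h1
        exact ⟨X, by simp [hX], hNX⟩
      · by_cases h2 : ∃ (a b : ℕ) (f : QOb A F E a b), 0 < b ∧ Rigid f ∧ TT f N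
        · obtain ⟨X, hX, hNX⟩ := hL₂ N hN hF0 h2
          exact ⟨X, by simp [hX], hNX⟩
        · have t1 := top_of_no_rigid K E F hS hπ₂ hypEF N h1
          have t2 := top_of_no_rigid K F E (S₁ := S₂) (S₂ := S₁)
            (fun S _ _ _ => (hS S).symm) hπ₁ hypFE N h2
          rcases hsub N with h | h
          · exact fin₁ t1 h
          · exact fin₂ t2 h
    · push Not at hF0
      refine fin₁ ((hquo N).resolve_right ?_) ((hsub N).resolve_right ?_)
      · rintro ⟨ρ, hρ⟩
        obtain ⟨l, hl⟩ := Module.projective_lifting_property ρ π₂ hρ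
        apply hπ₂0
        rw [← hl, hF0 l, LinearMap.comp_zero]
      · rintro ⟨ι, hι⟩
        apply hι
        have := hF0 (ι ∘ₗ π₂)
        ext s
        obtain ⟨x, rfl⟩ := hπ₂ s
        exact LinearMap.congr_fun this x
  · push Not at hE0
    refine fin₂ ((hquo N).resolve_left ?_) ((hsub N).resolve_left ?_)
    · rintro ⟨ρ, hρ⟩
      obtain ⟨l, hl⟩ := Module.projective_lifting_property ρ π₁ hρ
      apply hπ₁0
      rw [← hl, hE0 l, LinearMap.comp_zero]
    · rintro ⟨ι, hι⟩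
      apply hι
      have := hE0 (ι ∘ₗ π₁)
      ext s
      obtain ⟨x, rfl⟩ := hπ₁ s
      exact LinearMap.congr_fun this x

end Pool.Agent.H51.T2
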