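import Pool.Agent.H51.T2.Class

/-! Algebras with at most two simple modules. -/

set_option linter.style.haveILetI false
set_option linter.unusedSectionVars false

namespace Pool.Agent.H51.T2

open Module

universe u

theorem projective_pi {A : Type*} [Ring A] (M : Type*) [AddCommGroup M] [Module A M]
    [Module.Projective A M] (n : ℕ) : Module.Projective A (Fin n → M) := by
  induction n with
  | zero => exact Module.Projective.of_free
  | succ n ih =>
    haveI : Module.Projective A (Fin 1 → M) :=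
      Module.Projective.of_equiv (LinearEquiv.funUnique (Fin 1) A M).symm
    exact Module.Projective.of_equiv (catE A M n 1)

theorem projective_punit {A : Type*} [Ring A] : Module.Projective A PUnit.{u+1} :=
  Module.Projective.of_free

/-- Finitely many modules contain all indecomposable modules with a rigid presentation of
class `(a, b)`. -/
theorem list_of_quadrant (K : Type*) [Field K] [Infinite K] {A : Type u} [Ring A] [Algebra K A]
    [FiniteDimensional K A] (E F : Type u) [AddCommGroup E] [Module A E] [AddCommGroup F]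
    [Module A F] [Module.Finite A E] [Module.Finite A F] [Module.Projective A E]
    [Module.Projective A F]
    (hyp : ∀ (P Q : Type u) [AddCommGroup P] [Module A P] [AddCommGroup Q] [Module A Q]
      [Module.Finite A P] [Module.Finite A Q] [Module.Projective A P] [Module.Projective A Q],
      ∃ f : P →ₗ[A] Q, Rigid f) :
    ∃ L : List (ModuleCat.{u} A), ∀ (a b : ℕ)
      (f : ((Fin a → PUnit.{u+1}) × (Fin b → E)) →ₗ[A] ((Fin a → F) × (Fin b → PUnit.{u+1}))),
      Rigid f → ∀ (M : Type u) [AddCommGroup M] [Module A M], Indec A M →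
        Nonempty (M ≃ₗ[A] Coker f) → ∃ X ∈ L, Nonempty (M ≃ₗ[A] X) := by
  letI : Module K E := Module.compHom E (algebraMap K A)
  haveI : IsScalarTower K A E := tower_compHom (A := A) K E
  haveI : Module.Finite K E := Module.Finite.trans A E
  letI : Module K F := Module.compHom F (algebraMap K A)
  haveI : IsScalarTower K A F := tower_compHom (A := A) K F
  haveI : Module.Finite K F := Module.Finite.trans A F
  haveI hu : Module.Projective A PUnit.{u+1} := projective_punit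
  have hyp' : ∀ a b : ℕ, ∃ f : Ob A PUnit.{u+1} F E PUnit.{u+1} a b, Rigid f := by
    intro a b
    haveI := projective_pi (A := A) E b
    haveI := projective_pi (A := A) F a
    haveI := projective_pi (A := A) PUnit.{u+1} a
    haveI := projective_pi (A := A) PUnit.{u+1} b
    exact hyp _ _
  obtain ⟨L, hL1, hL2⟩ := exists_covers_all (A := A) (P₁ := PUnit.{u+1}) (Q₁ := F) (P₂ := E)
    (Q₂ := PUnit.{u+1}) K hyp'
  refine ⟨L.map (fun X => ModuleCat.of A (Coker X.2)), ?_⟩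
  intro a b f hf M _ _ hM he
  obtain ⟨X, hX, Y, hY, α, β, hab, hXY, hYX⟩ := hL2 a b
  obtain ⟨Z, hZ, -, -, -, -, hZ'⟩ := exists_sum X Y (hL1 X hX) (hL1 Y hY) hXY hYX α β a b hab
  have h1 : Iso f Z := rigid_unique K hf hZ
  obtain ⟨e1⟩ := coker_iso h1
  obtain ⟨e⟩ := he
  rcases hZ' M hM ⟨e ≪≫ₗ e1⟩ with h2 | h2
  · exact ⟨_, List.mem_map.2 ⟨X, hX, rfl⟩, h2⟩
  · exact ⟨_, List.mem_map.2 ⟨Y, hY, rfl⟩, h2⟩

/-- A vector of length `a` with a positive number of entries contains the first module. -/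
theorem incl_proj {A : Type*} [Ring A] {E F P : Type*} [AddCommGroup E] [Module A E]
    [AddCommGroup F] [Module A F] [AddCommGroup P] [Module A P] {a b : ℕ} (ha : 0 < a)
    (e : P ≃ₗ[A] ((Fin a → E) × (Fin b → F))) :
    ∃ (i : E →ₗ[A] P) (p : P →ₗ[A] E), p ∘ₗ i = LinearMap.id := by
  refine ⟨e.symm.toLinearMap ∘ₗ LinearMap.inl A _ _ ∘ₗ LinearMap.single A (fun _ => E) ⟨0, ha⟩,
    LinearMap.proj ⟨0, ha⟩ ∘ₗ LinearMap.fst A _ _ ∘ₗ e.toLinearMap, ?_⟩
  ext x
  simp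

theorem incl_proj' {A : Type*} [Ring A] {E F P : Type*} [AddCommGroup E] [Module A E]
    [AddCommGroup F] [Module A F] [AddCommGroup P] [Module A P] {a b : ℕ} (hb : 0 < b)
    (e : P ≃ₗ[A] ((Fin a → E) × (Fin b → F))) :
    ∃ (i : F →ₗ[A] P) (p : P →ₗ[A] F), p ∘ₗ i = LinearMap.id := by
  refine ⟨e.symm.toLinearMap ∘ₗ LinearMap.inr A _ _ ∘ₗ LinearMap.single A (fun _ => F) ⟨0, hb⟩,
    LinearMap.proj ⟨0, hb⟩ ∘ₗ LinearMap.snd A _ _ ∘ₗ e.toLinearMap, ?_⟩
  ext x
  simp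

theorem indec_pow {A : Type*} [Ring A] {G M : Type*} [AddCommGroup G] [Module A G]
    [AddCommGroup M] [Module A M] (hM : Indec A M) (n : ℕ) :
    Nonempty (M ≃ₗ[A] (Fin n → G)) → Nonempty (M ≃ₗ[A] G) := by
  induction n with
  | zero =>
    rintro ⟨e⟩
    exfalso
    obtain ⟨x, y, hxy⟩ := (hM.1).exists_pair_ne
    apply hxy
    apply e.injective
    exact Subsingleton.elim _ _
  | succ n ih =>
    rintro ⟨e⟩
    rcases hM.prod (e ≪≫ₗ (catE A G n 1).symm) with h | h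
    · exact ih h
    · obtain ⟨h⟩ := h
      exact ⟨h ≪≫ₗ LinearEquiv.funUnique (Fin 1) A G⟩

/-- An indecomposable module isomorphic to a sum of copies of two modules is one of them. -/
theorem indec_sum {A : Type*} [Ring A] {E F M : Type*} [AddCommGroup E] [Module A E]
    [AddCommGroup F] [Module A F] [AddCommGroup M] [Module A M] (hM : Indec A M) {a b : ℕ}
    (e : M ≃ₗ[A] ((Fin a → E) × (Fin b → F))) :
    Nonempty (M ≃ₗ[A] E) ∨ Nonempty (M ≃ₗ[A] F) := by
  rcases hM.prod e with h | h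
  · exact Or.inl (indec_pow hM a h)
  · exact Or.inr (indec_pow hM b h)

theorem main_two (K : Type*) [Field K] [Infinite K] (A : Type u) [Ring A] [Algebra K A]
    [FiniteDimensional K A] (S₁ S₂ : Type u) [AddCommGroup S₁] [Module A S₁]
    [AddCommGroup S₂] [Module A S₂] [IsSimpleModule A S₁] [IsSimpleModule A S₂]
    (hS : ∀ (S : Type u) [AddCommGroup S] [Module A S] [IsSimpleModule A S],
      Nonempty (S ≃ₗ[A] S₁) ∨ Nonempty (S ≃ₗ[A] S₂))
    (hyp : ∀ (P Q : Type u) [AddCommGroup P] [Module A P] [AddCommGroup Q] [Module A Q]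
      [Module.Finite A P] [Module.Finite A Q] [Module.Projective A P] [Module.Projective A Q],
      ∃ f : P →ₗ[A] Q, Rigid f) :
    ∃ L : List (ModuleCat.{u} A), ∀ (M : Type u) [AddCommGroup M] [Module A M], Indec A M →
      (∃ (P₁ P₀ : Type u) (_ : AddCommGroup P₁) (_ : Module A P₁) (_ : AddCommGroup P₀)
        (_ : Module A P₀) (f : P₁ →ₗ[A] P₀) (π : P₀ →ₗ[A] M),
        Module.Finite A P₁ ∧ Module.Finite A P₀ ∧ Module.Projective A P₁ ∧
        Module.Projective A P₀ ∧ Function.Surjective π ∧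
        LinearMap.range f = LinearMap.ker π ∧
        (∀ N : Submodule A P₀, N ⊔ LinearMap.ker π = ⊤ → N = ⊤) ∧
        ∀ k : P₁ →ₗ[A] M, ∃ l : P₀ →ₗ[A] M, k = l ∘ₗ f) →
      ∃ X ∈ L, Nonempty (M ≃ₗ[A] X) := by
  haveI : IsNoetherianRing A := noeth_of_fd K
  haveI : IsArtinianRing A := artin_of_fd K
  obtain ⟨E, i1, i2, i3, i4, π₁, hπ₁, hmin₁⟩ := exists_cover (A := A) K S₁
  obtain ⟨F, j1, j2, j3, j4, π₂, hπ₂, hmin₂⟩ := exists_cover (A := A) K S₂
  have hS1 := IsSimpleModule.nontrivial A S₁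
  have hS2 := IsSimpleModule.nontrivial A S₂
  haveI hEn : Nontrivial E := by
    obtain ⟨s, t, hst⟩ := hS1.exists_pair_ne
    obtain ⟨x, rfl⟩ := hπ₁ s
    obtain ⟨y, rfl⟩ := hπ₁ t
    exact ⟨x, y, fun h => hst (by rw [h])⟩
  haveI hFn : Nontrivial F := by
    obtain ⟨s, t, hst⟩ := hS2.exists_pair_ne
    obtain ⟨x, rfl⟩ := hπ₂ s
    obtain ⟨y, rfl⟩ := hπ₂ t
    exact ⟨x, y, fun h => hst (by rw [h])⟩
  have hE := local_of_minimal hπ₁ hmin₁
  have hF := local_of_minimal hπ₂ hmin₂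
  -- classification of projectives
  have hcov : ∀ (Q : Type u) [AddCommGroup Q] [Module A Q] [Module.Finite A Q]
      [Module.Projective A Q] [Nontrivial Q],
      ∃ (Q' : Type u) (_ : AddCommGroup Q') (_ : Module A Q') (_ : Module.Finite A Q')
        (_ : Module.Projective A Q'),
        (Nonempty (Q ≃ₗ[A] (E × Q')) ∨ Nonempty (Q ≃ₗ[A] (F × Q')))
          ∧ kdim (A := A) K Q' < kdim (A := A) K Q := by
    intro Q _ _ _ _ _
    obtain ⟨N, hN⟩ := IsCoatomic.exists_coatom (α := Submodule A Q)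
    haveI : IsSimpleModule A (Q ⧸ N) := isSimpleModule_iff_isCoatom.2 hN
    rcases hS (Q ⧸ N) with ⟨⟨e⟩⟩ | ⟨⟨e⟩⟩
    · obtain ⟨Q', k1, k2, k3, k4, ⟨e'⟩⟩ := split_cover K hπ₁ hmin₁ (Q := Q)
        (ρ := e.toLinearMap ∘ₗ N.mkQ) (e.surjective.comp (Submodule.mkQ_surjective N))
      refine ⟨Q', k1, k2, k3, k4, Or.inl ⟨e'⟩, ?_⟩
      rw [kdim_congr K e', kdim_prod]
      have := kdim_pos (A := A) K E
      omega
    · obtain ⟨Q', k1, k2, k3, k4, ⟨e'⟩⟩ := split_cover K hπ₂ hmin₂ (Q := Q)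
        (ρ := e.toLinearMap ∘ₗ N.mkQ) (e.surjective.comp (Submodule.mkQ_surjective N))
      refine ⟨Q', k1, k2, k3, k4, Or.inr ⟨e'⟩, ?_⟩
      rw [kdim_congr K e', kdim_prod]
      have := kdim_pos (A := A) K F
      omega
  obtain ⟨L₁, hL₁⟩ := list_of_quadrant K E F hyp
  obtain ⟨L₂, hL₂⟩ := list_of_quadrant K F E hyp
  refine ⟨ModuleCat.of A E :: ModuleCat.of A F :: (L₁ ++ L₂), ?_⟩
  rintro M _ _ hM ⟨P₁, P₀, l1, l2, l3, l4, f, π, f1, f0, p1, p0, hπ, hex, hsup, hk⟩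
  have hrig : Rigid f := rigid_of_pres hπ hex hk
  rw [← hex] at hsup
  obtain ⟨c, d, ⟨e₁⟩⟩ := classify K hcov _ P₁ (Nat.lt_succ_self _)
  obtain ⟨a, b, ⟨e₀⟩⟩ := classify K hcov _ P₀ (Nat.lt_succ_self _)
  have s1 : a = 0 ∨ c = 0 := by
    by_contra hne
    push Not at hne
    obtain ⟨i₀, p₀, h₀⟩ := incl_proj (Nat.pos_of_ne_zero hne.1) e₀
    obtain ⟨i₁, p₁, h₁⟩ := incl_proj (Nat.pos_of_ne_zero hne.2) e₁
    exact sign_coherent hE hrig hsup h₀ h₁
  have s2 : b = 0 ∨ d = 0 := by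
    by_contra hne
    push Not at hne
    obtain ⟨i₀, p₀, h₀⟩ := incl_proj' (Nat.pos_of_ne_zero hne.1) e₀
    obtain ⟨i₁, p₁, h₁⟩ := incl_proj' (Nat.pos_of_ne_zero hne.2) e₁
    exact sign_coherent hF hrig hsup h₀ h₁
  -- the cokernel
  have hcok : Nonempty (M ≃ₗ[A] Coker f) :=
    ⟨((Submodule.quotEquivOfEq _ _ hex) ≪≫ₗ LinearMap.quotKerEquivOfSurjective π hπ).symm⟩
  have htriv : ∀ (X : Type u) [AddCommGroup X] [Module A X] (n : ℕ),
      Nonempty ((Fin n → PUnit.{u+1}) ≃ₗ[A] (Fin 0 → X)) := by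
    intro X _ _ n
    exact ⟨{ toFun := fun _ => Fin.elim0
             invFun := fun _ _ => PUnit.unit
             map_add' := fun _ _ => Subsingleton.elim _ _
             map_smul' := fun _ _ => Subsingleton.elim _ _
             left_inv := fun _ => Subsingleton.elim _ _
             right_inv := fun _ => Subsingleton.elim _ _ }⟩
  rcases s1 with rfl | rfl
  · rcases s2 with rfl | rfl
    · -- the target vanishes
      exfalso
      obtain ⟨e⟩ := hcok
      obtain ⟨x, y, hxy⟩ := (hM.1).exists_pair_ne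
      apply hxy
      haveI : Subsingleton P₀ := e₀.toEquiv.subsingleton
      obtain ⟨x', rfl⟩ := hπ x
      obtain ⟨y', rfl⟩ := hπ y
      rw [Subsingleton.elim x' y']
    · -- `a = 0`, `d = 0`: maps `E ^ c → F ^ b`
      obtain ⟨t₁⟩ := htriv F b
      obtain ⟨t₂⟩ := htriv E c
      let ε₁ : P₁ ≃ₗ[A] ((Fin b → PUnit.{u+1}) × (Fin c → E)) :=
        e₁ ≪≫ₗ LinearEquiv.prodComm A _ _ ≪≫ₗ (t₁.symm.prodCongr (LinearEquiv.refl A _))
      let ε₀ : P₀ ≃ₗ[A] ((Fin b → F) × (Fin c → PUnit.{u+1})) :=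
        e₀ ≪≫ₗ LinearEquiv.prodComm A _ _ ≪≫ₗ ((LinearEquiv.refl A _).prodCongr t₂.symm)
      have hiso : Iso f (ε₀.toLinearMap ∘ₗ f ∘ₗ ε₁.symm.toLinearMap) := by
        refine ⟨ε₁, ε₀, ?_⟩
        apply LinearMap.ext
        intro x
        simp only [LinearMap.comp_apply, LinearEquiv.coe_coe, LinearEquiv.symm_apply_apply]
      obtain ⟨e⟩ := hcok
      obtain ⟨e'⟩ := coker_iso hiso
      obtain ⟨X, hX, hMX⟩ := hL₁ b c _ (hrig.iso hiso) M hM ⟨e ≪≫ₗ e'⟩
      exact ⟨X, by simp [hX], hMX⟩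
  · rcases s2 with rfl | rfl
    · -- `c = 0`, `b = 0`: maps `F ^ d → E ^ a`
      obtain ⟨t₁⟩ := htriv E a
      obtain ⟨t₂⟩ := htriv F d
      let ε₁ : P₁ ≃ₗ[A] ((Fin a → PUnit.{u+1}) × (Fin d → F)) :=
        e₁ ≪≫ₗ (t₁.symm.prodCongr (LinearEquiv.refl A _))
      let ε₀ : P₀ ≃ₗ[A] ((Fin a → E) × (Fin d → PUnit.{u+1})) :=
        e₀ ≪≫ₗ ((LinearEquiv.refl A _).prodCongr t₂.symm)
      have hiso : Iso f (ε₀.toLinearMap ∘ₗ f ∘ₗ ε₁.symm.toLinearMap) := by
        refine ⟨ε₁, ε₀, ?_⟩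
        apply LinearMap.ext
        intro x
        simp only [LinearMap.comp_apply, LinearEquiv.coe_coe, LinearEquiv.symm_apply_apply]
      obtain ⟨e⟩ := hcok
      obtain ⟨e'⟩ := coker_iso hiso
      obtain ⟨X, hX, hMX⟩ := hL₂ a d _ (hrig.iso hiso) M hM ⟨e ≪≫ₗ e'⟩
      exact ⟨X, by simp [hX], hMX⟩
    · -- the source vanishes
      obtain ⟨e⟩ := hcok
      haveI : Subsingleton P₁ := e₁.toEquiv.subsingleton
      have hf0 : LinearMap.range f = ⊥ := by
        rw [LinearMap.range_eq_bot]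
        ext x
        rw [Subsingleton.elim x 0]
        simp
      have e2 : M ≃ₗ[A] P₀ := e ≪≫ₗ Submodule.quotEquivOfEqBot _ hf0
      rcases indec_sum hM (e2 ≪≫ₗ e₀) with h | h
      · exact ⟨ModuleCat.of A E, by simp, h⟩
      · exact ⟨ModuleCat.of A F, by simp, h⟩

end Pool.Agent.H51.T2
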