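import Pool.Agent.H51.T2.Strict

/-! The descent: finitely many cones cover a rational quadrant all of whose classes contain rigid
maps. -/

namespace Pool.Agent.H51.T2

open Module

section ob
variable (A : Type*) [Ring A] (P₁ Q₁ P₂ Q₂ : Type*)
variable [AddCommGroup P₁] [Module A P₁] [AddCommGroup Q₁] [Module A Q₁]
variable [AddCommGroup P₂] [Module A P₂] [AddCommGroup Q₂] [Module A Q₂]

/-- Module maps of class `(a, b)`: from `P₁ ^ a × P₂ ^ b` to `Q₁ ^ a × Q₂ ^ b`. -/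
abbrev Ob (a b : ℕ) : Type _ :=
  ((Fin a → P₁) × (Fin b → P₂)) →ₗ[A] ((Fin a → Q₁) × (Fin b → Q₂))

/-- Concatenation of two vectors. -/
def catE (M : Type*) [AddCommGroup M] [Module A M] (a b : ℕ) :
    ((Fin a → M) × (Fin b → M)) ≃ₗ[A] (Fin (a + b) → M) :=
  (LinearEquiv.sumArrowLequivProdArrow (Fin a) (Fin b) A M).symm ≪≫ₗ
    (LinearEquiv.funCongrLeft A M (finSumFinEquiv (m := a) (n := b)).symm)

/-- The class is additive. -/
def addE (M M' : Type*) [AddCommGroup M] [Module A M] [AddCommGroup M'] [Module A M']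
    (a b a' b' : ℕ) :
    (((Fin a → M) × (Fin b → M')) × ((Fin a' → M) × (Fin b' → M'))) ≃ₗ[A]
      ((Fin (a + a') → M) × (Fin (b + b') → M')) :=
  (LinearEquiv.prodProdProdComm A (Fin a → M) (Fin b → M') (Fin a' → M) (Fin b' → M')) ≪≫ₗ
    ((catE A M a a').prodCongr (catE A M' b b'))

variable {A P₁ Q₁ P₂ Q₂}

/-- The direct sum of two maps of classes `(a, b)` and `(a', b')`. -/
def Ob.add {a b a' b' : ℕ} (f : Ob A P₁ Q₁ P₂ Q₂ a b) (g : Ob A P₁ Q₁ P₂ Q₂ a' b') :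
    Ob A P₁ Q₁ P₂ Q₂ (a + a') (b + b') :=
  (addE A Q₁ Q₂ a b a' b').toLinearMap ∘ₗ (f.prodMap g) ∘ₗ
    (addE A P₁ P₂ a b a' b').symm.toLinearMap

theorem Ob.iso_add {a b a' b' : ℕ} (f : Ob A P₁ Q₁ P₂ Q₂ a b) (g : Ob A P₁ Q₁ P₂ Q₂ a' b') :
    Iso (f.prodMap g) (f.add g) := by
  refine ⟨addE A P₁ P₂ a b a' b', addE A Q₁ Q₂ a b a' b', ?_⟩
  apply LinearMap.ext
  intro x
  simp [Ob.add]

/-- The map on the product corresponding to a map of class `(a + a', b + b')`. -/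
def Ob.unadd {a b a' b' : ℕ} (m : Ob A P₁ Q₁ P₂ Q₂ (a + a') (b + b')) :
    (((Fin a → P₁) × (Fin b → P₂)) × ((Fin a' → P₁) × (Fin b' → P₂))) →ₗ[A]
      (((Fin a → Q₁) × (Fin b → Q₂)) × ((Fin a' → Q₁) × (Fin b' → Q₂))) :=
  (addE A Q₁ Q₂ a b a' b').symm.toLinearMap ∘ₗ m ∘ₗ (addE A P₁ P₂ a b a' b').toLinearMap

theorem Ob.iso_unadd {a b a' b' : ℕ} (m : Ob A P₁ Q₁ P₂ Q₂ (a + a') (b + b')) :
    Iso (Ob.unadd m) m := by
  refine ⟨addE A P₁ P₂ a b a' b', addE A Q₁ Q₂ a b a' b', ?_⟩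
  apply LinearMap.ext
  intro x
  simp [Ob.unadd]

theorem iso_swap {P Q P' Q' : Type*} [AddCommGroup P] [Module A P] [AddCommGroup Q] [Module A Q]
    [AddCommGroup P'] [Module A P'] [AddCommGroup Q'] [Module A Q']
    (m : (P × P') →ₗ[A] (Q × Q')) :
    Iso m ((LinearEquiv.prodComm A Q Q').toLinearMap ∘ₗ m ∘ₗ
      (LinearEquiv.prodComm A P' P).toLinearMap) := by
  refine ⟨LinearEquiv.prodComm A P P', LinearEquiv.prodComm A Q Q', ?_⟩
  apply LinearMap.ext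
  intro x
  simp

end ob

variable {K : Type*} [Field K] [Infinite K] {A : Type*} [Ring A] [Algebra K A]
variable {P₁ Q₁ P₂ Q₂ : Type*}
variable [AddCommGroup P₁] [Module K P₁] [Module A P₁] [IsScalarTower K A P₁]
variable [AddCommGroup Q₁] [Module K Q₁] [Module A Q₁] [IsScalarTower K A Q₁]
variable [AddCommGroup P₂] [Module K P₂] [Module A P₂] [IsScalarTower K A P₂]
variable [AddCommGroup Q₂] [Module K Q₂] [Module A Q₂] [IsScalarTower K A Q₂]
variable [FiniteDimensional K P₁] [FiniteDimensional K Q₁]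
variable [FiniteDimensional K P₂] [FiniteDimensional K Q₂]

/-- Both inequalities for the middle class. -/
theorem strict_ob {a b a' b' : ℕ} {f : Ob A P₁ Q₁ P₂ Q₂ a b} {g : Ob A P₁ Q₁ P₂ Q₂ a' b'}
    {m : Ob A P₁ Q₁ P₂ Q₂ (a + a') (b + b')} (hf : Rigid f) (hg : Rigid g) (hm : Rigid m)
    (hN : ¬ (EZero f g ∧ EZero g f)) :
    ee K f m + ee K m f < ee K f g + ee K g f ∧ ee K m g + ee K g m < ee K f g + ee K g f := by
  have h1 : Iso m (Ob.unadd m) := (Ob.iso_unadd m).symm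
  have h2 := h1.trans (iso_swap (Ob.unadd m))
  constructor
  · have := strict (K := K) hf hg (hm.iso h1) hN
    rwa [ee_iso (Iso.refl f) h1, ee_iso h1 (Iso.refl f)]
  · have := strict (K := K) hg hf (hm.iso h2) (fun h => hN ⟨h.2, h.1⟩)
    rw [ee_iso (Iso.refl g) h2, ee_iso h2 (Iso.refl g)]
    omega

/-- A finite set of rigid maps such that every combination of two classes is a combination of the
classes of two compatible members. -/
def Covers (A P₁ Q₁ P₂ Q₂ : Type*) [Ring A]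
    [AddCommGroup P₁] [Module A P₁] [AddCommGroup Q₁] [Module A Q₁]
    [AddCommGroup P₂] [Module A P₂] [AddCommGroup Q₂] [Module A Q₂]
    (L : List (Σ c : ℕ × ℕ, Ob A P₁ Q₁ P₂ Q₂ c.1 c.2)) (x y : ℕ × ℕ) : Prop :=
  (∀ X ∈ L, Rigid X.2) ∧ ∀ α β : ℕ, ∃ X ∈ L, ∃ Y ∈ L, ∃ α' β' : ℕ,
    α • x + β • y = α' • X.1 + β' • Y.1 ∧ EZero X.2 Y.2 ∧ EZero Y.2 X.2

theorem exists_covers (K : Type*) [Field K] [Infinite K] [Algebra K A]
    [Module K P₁] [IsScalarTower K A P₁] [Module K Q₁] [IsScalarTower K A Q₁]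
    [Module K P₂] [IsScalarTower K A P₂] [Module K Q₂] [IsScalarTower K A Q₂]
    [FiniteDimensional K P₁] [FiniteDimensional K Q₁]
    [FiniteDimensional K P₂] [FiniteDimensional K Q₂]
    (hyp : ∀ a b : ℕ, ∃ f : Ob A P₁ Q₁ P₂ Q₂ a b, Rigid f) (N : ℕ) :
    ∀ (a b a' b' : ℕ) (f : Ob A P₁ Q₁ P₂ Q₂ a b) (g : Ob A P₁ Q₁ P₂ Q₂ a' b'),
      Rigid f → Rigid g → ee K f g + ee K g f < N →
      ∃ L, Covers A P₁ Q₁ P₂ Q₂ L (a, b) (a', b') := by
  induction N with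
  | zero => intro a b a' b' f g _ _ h; exact absurd h (Nat.not_lt_zero _)
  | succ N ih =>
    intro a b a' b' f g hf hg hN
    by_cases hc : EZero f g ∧ EZero g f
    · refine ⟨[⟨(a, b), f⟩, ⟨(a', b'), g⟩], ?_, ?_⟩
      · intro X hX
        simp only [List.mem_cons, List.not_mem_nil, or_false] at hX
        rcases hX with rfl | rfl
        · exact hf
        · exact hg
      · intro α β
        exact ⟨⟨(a, b), f⟩, by simp, ⟨(a', b'), g⟩, by simp, α, β, rfl, hc.1, hc.2⟩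
    · obtain ⟨m, hm⟩ := hyp (a + a') (b + b')
      obtain ⟨h1, h2⟩ := strict_ob (K := K) hf hg hm hc
      obtain ⟨L₁, hL₁, hL₁'⟩ := ih a b (a + a') (b + b') f m hf hm (by omega)
      obtain ⟨L₂, hL₂, hL₂'⟩ := ih (a + a') (b + b') a' b' m g hm hg (by omega)
      refine ⟨L₁ ++ L₂, ?_, ?_⟩
      · intro X hX
        rcases List.mem_append.1 hX with h | h
        · exact hL₁ X h
        · exact hL₂ X h
      · intro α β
        rcases le_total β α with h | h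
        · obtain ⟨X, hX, Y, hY, α', β', h3, h4, h5⟩ := hL₁' (α - β) β
          refine ⟨X, List.mem_append_left _ hX, Y, List.mem_append_left _ hY, α', β', ?_, h4, h5⟩
          rw [← h3]
          obtain ⟨γ, rfl⟩ := Nat.exists_eq_add_of_le h
          ext
          · simp; ring
          · simp; ring
        · obtain ⟨X, hX, Y, hY, α', β', h3, h4, h5⟩ := hL₂' α (β - α)
          refine ⟨X, List.mem_append_right _ hX, Y, List.mem_append_right _ hY, α', β', ?_, h4,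
            h5⟩
          rw [← h3]
          obtain ⟨γ, rfl⟩ := Nat.exists_eq_add_of_le h
          ext
          · simp; ring
          · simp; ring

/-- All classes `(a, b)` are covered by finitely many compatible pairs. -/
theorem exists_covers_all (K : Type*) [Field K] [Infinite K] [Algebra K A]
    [Module K P₁] [IsScalarTower K A P₁] [Module K Q₁] [IsScalarTower K A Q₁]
    [Module K P₂] [IsScalarTower K A P₂] [Module K Q₂] [IsScalarTower K A Q₂]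
    [FiniteDimensional K P₁] [FiniteDimensional K Q₁]
    [FiniteDimensional K P₂] [FiniteDimensional K Q₂]
    (hyp : ∀ a b : ℕ, ∃ f : Ob A P₁ Q₁ P₂ Q₂ a b, Rigid f) :
    ∃ L : List (Σ c : ℕ × ℕ, Ob A P₁ Q₁ P₂ Q₂ c.1 c.2), (∀ X ∈ L, Rigid X.2) ∧
      ∀ a b : ℕ, ∃ X ∈ L, ∃ Y ∈ L, ∃ α β : ℕ,
        (a, b) = α • X.1 + β • Y.1 ∧ EZero X.2 Y.2 ∧ EZero Y.2 X.2 := by
  obtain ⟨f, hf⟩ := hyp 1 0
  obtain ⟨g, hg⟩ := hyp 0 1
  obtain ⟨L, h1, h2⟩ := exists_covers K hyp _ 1 0 0 1 f g hf hg (Nat.lt_succ_self _)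
  refine ⟨L, h1, fun a b => ?_⟩
  obtain ⟨X, hX, Y, hY, α, β, h3, h4⟩ := h2 a b
  refine ⟨X, hX, Y, hY, α, β, ?_, h4⟩
  rw [← h3]
  ext <;> simp

/-- Multiples of an object. -/
def Ob.nsmul {a b : ℕ} (f : Ob A P₁ Q₁ P₂ Q₂ a b) (n : ℕ) :
    Σ c : ℕ × ℕ, Ob A P₁ Q₁ P₂ Q₂ c.1 c.2 :=
  Nat.rec (motive := fun _ => Σ c : ℕ × ℕ, Ob A P₁ Q₁ P₂ Q₂ c.1 c.2) ⟨(0, 0), 0⟩
    (fun _ X => ⟨(X.1.1 + a, X.1.2 + b), X.2.add f⟩) n

end Pool.Agent.H51.T2
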