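import Pool.Agent.H51.T2.Cover
import Pool.Agent.H51.T2.Plane

/-! Classification of projectives, sign coherence, indecomposable modules. -/

set_option linter.style.haveILetI false
set_option linter.unusedSectionVars false

namespace Pool.Agent.H51.T2

open Module

universe u

/-- An indecomposable module: nonzero, and not a direct sum of two nonzero submodules. -/
def Indec (A : Type*) [Ring A] (M : Type*) [AddCommGroup M] [Module A M] : Prop :=
  Nontrivial M ∧ ∀ N N' : Submodule A M, IsCompl N N' → N = ⊥ ∨ N' = ⊥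

section indec
variable {A : Type*} [Ring A] {M X Y : Type*} [AddCommGroup M] [Module A M]
  [AddCommGroup X] [Module A X] [AddCommGroup Y] [Module A Y]

theorem Indec.prod (h : Indec A M) (e : M ≃ₗ[A] (X × Y)) :
    Nonempty (M ≃ₗ[A] X) ∨ Nonempty (M ≃ₗ[A] Y) := by
  let N : Submodule A M := LinearMap.ker (LinearMap.snd A X Y ∘ₗ e.toLinearMap)
  let N' : Submodule A M := LinearMap.ker (LinearMap.fst A X Y ∘ₗ e.toLinearMap)
  have hc : IsCompl N N' := by
    constructor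
    · rw [Submodule.disjoint_def]
      intro x hx hx'
      simp only [N, N', LinearMap.mem_ker, LinearMap.comp_apply, LinearMap.snd_apply,
        LinearMap.fst_apply, LinearEquiv.coe_coe] at hx hx'
      apply e.injective
      rw [map_zero]
      exact Prod.ext hx' hx
    · rw [codisjoint_iff, eq_top_iff]
      intro x _
      rw [Submodule.mem_sup]
      refine ⟨e.symm ((e x).1, 0), ?_, e.symm (0, (e x).2), ?_, ?_⟩
      · simp [N]
      · simp [N']
      · rw [← map_add]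
        simp
  rcases h.2 N N' hc with h1 | h1
  · -- the first factor vanishes
    right
    have hX : ∀ x : X, x = 0 := by
      intro x
      have : e.symm (x, 0) ∈ N := by simp [N]
      rw [h1, Submodule.mem_bot] at this
      have h2 := congrArg e this
      simp only [LinearEquiv.apply_symm_apply, map_zero] at h2
      exact congrArg Prod.fst h2
    exact ⟨LinearEquiv.ofBijective (LinearMap.snd A X Y ∘ₗ e.toLinearMap)
      ⟨by
        rw [← LinearMap.ker_eq_bot]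
        exact h1, fun y => ⟨e.symm (0, y), by simp⟩⟩⟩
  · left
    exact ⟨LinearEquiv.ofBijective (LinearMap.fst A X Y ∘ₗ e.toLinearMap)
      ⟨by
        rw [← LinearMap.ker_eq_bot]
        exact h1, fun y => ⟨e.symm (y, 0), by simp⟩⟩⟩

end indec

section classify

variable (K : Type*) [Field K] {A : Type u} [Ring A] [Algebra K A] [FiniteDimensional K A]
variable {E₁ E₂ : Type u} [AddCommGroup E₁] [Module A E₁] [AddCommGroup E₂] [Module A E₂]

/-- Adding one copy of the first module. -/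
noncomputable def consE₁ (a b : ℕ) :
    (E₁ × ((Fin a → E₁) × (Fin b → E₂))) ≃ₗ[A] ((Fin (1 + a) → E₁) × (Fin b → E₂)) :=
  (LinearEquiv.prodAssoc A E₁ (Fin a → E₁) (Fin b → E₂)).symm ≪≫ₗ
    (LinearEquiv.prodCongr
      (((LinearEquiv.funUnique (Fin 1) A E₁).symm.prodCongr (LinearEquiv.refl A (Fin a → E₁)))
        ≪≫ₗ catE A E₁ 1 a) (LinearEquiv.refl A (Fin b → E₂)))

theorem classify
    (hcov : ∀ (Q : Type u) [AddCommGroup Q] [Module A Q] [Module.Finite A Q]
      [Module.Projective A Q] [Nontrivial Q],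
      ∃ (Q' : Type u) (_ : AddCommGroup Q') (_ : Module A Q') (_ : Module.Finite A Q')
        (_ : Module.Projective A Q'),
        (Nonempty (Q ≃ₗ[A] (E₁ × Q')) ∨ Nonempty (Q ≃ₗ[A] (E₂ × Q')))
          ∧ kdim (A := A) K Q' < kdim (A := A) K Q) (n : ℕ) :
    ∀ (Q : Type u) [AddCommGroup Q] [Module A Q] [Module.Finite A Q] [Module.Projective A Q],
      kdim (A := A) K Q < n →
      ∃ a b : ℕ, Nonempty (Q ≃ₗ[A] ((Fin a → E₁) × (Fin b → E₂))) := by
  induction n with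
  | zero => intro Q _ _ _ _ h; exact absurd h (Nat.not_lt_zero _)
  | succ n ih =>
    intro Q _ _ _ _ h
    rcases subsingleton_or_nontrivial Q with hs | hs
    · refine ⟨0, 0, ⟨LinearEquiv.ofBijective (0 : Q →ₗ[A] _) ⟨fun x y _ => Subsingleton.elim x y,
        fun y => ⟨0, Subsingleton.elim _ _⟩⟩⟩⟩
    · obtain ⟨Q', i1, i2, i3, i4, he, hlt⟩ := hcov Q
      obtain ⟨a, b, ⟨e⟩⟩ := ih Q' (by omega)
      rcases he with ⟨⟨e'⟩⟩ | ⟨⟨e'⟩⟩
      · exact ⟨1 + a, b, ⟨e' ≪≫ₗ (LinearEquiv.prodCongr (LinearEquiv.refl A E₁) e) ≪≫ₗ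
          consE₁ a b⟩⟩
      · exact ⟨a, 1 + b, ⟨e' ≪≫ₗ (LinearEquiv.prodCongr (LinearEquiv.refl A E₂)
          (e ≪≫ₗ LinearEquiv.prodComm A _ _)) ≪≫ₗ consE₁ b a ≪≫ₗ LinearEquiv.prodComm A _ _⟩⟩

end classify

section sign

variable {A : Type*} [Ring A] {E P₁ P₀ M : Type*} [AddCommGroup E] [Module A E]
  [AddCommGroup P₁] [Module A P₁] [AddCommGroup P₀] [Module A P₀] [AddCommGroup M] [Module A M]

/-- If the source and the target of a rigid map share an indecomposable summand, the kernel of the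
cokernel map is not superfluous. -/
theorem sign_coherent [Nontrivial E]
    (hE : ∀ φ ψ : E →ₗ[A] E, φ - ψ = LinearMap.id → Function.Bijective φ ∨ Function.Bijective ψ)
    {f : P₁ →ₗ[A] P₀} (hf : Rigid f)
    (hsup : ∀ N : Submodule A P₀, N ⊔ LinearMap.range f = ⊤ → N = ⊤)
    {i₀ : E →ₗ[A] P₀} {p₀ : P₀ →ₗ[A] E} (h₀ : p₀ ∘ₗ i₀ = LinearMap.id)
    {i₁ : E →ₗ[A] P₁} {p₁ : P₁ →ₗ[A] E} (h₁ : p₁ ∘ₗ i₁ = LinearMap.id) : False := by
  have key : ∀ (q : P₀ →ₗ[A] E) (w : E →ₗ[A] P₁), Function.Bijective (q ∘ₗ f ∘ₗ w) → False := by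
    intro q w hw
    have h1 : LinearMap.ker q ⊔ LinearMap.range f = ⊤ := by
      rw [eq_top_iff]
      intro x _
      obtain ⟨y, hy⟩ := hw.2 (q x)
      rw [Submodule.mem_sup]
      refine ⟨x - f (w y), ?_, f (w y), ⟨w y, rfl⟩, by abel⟩
      rw [LinearMap.mem_ker, map_sub, ← hy]
      simp
    have h2 := hsup _ h1
    obtain ⟨y, hy⟩ := exists_ne (0 : E)
    obtain ⟨z, hz⟩ := hw.2 y
    have h3 : f (w z) ∈ LinearMap.ker q := by rw [h2]; trivial
    rw [LinearMap.mem_ker] at h3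
    apply hy
    rw [← hz]
    exact h3
  obtain ⟨s, t, hst⟩ := hf (i₀ ∘ₗ p₁)
  have h4 : (p₀ ∘ₗ f ∘ₗ (s ∘ₗ i₁)) - ((p₀ ∘ₗ t) ∘ₗ f ∘ₗ i₁) = LinearMap.id := by
    ext x
    have h5 := congrArg p₀ (LinearMap.congr_fun hst (i₁ x))
    have h6 := LinearMap.congr_fun h₁ x
    have h7 := LinearMap.congr_fun h₀ x
    simp only [LinearMap.comp_apply, LinearMap.sub_apply, LinearMap.id_apply, map_sub] at h5 h6 h7 ⊢
    rw [← h5, h6, h7]
  rcases hE _ _ h4 with h | h
  · exact key _ _ h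
  · exact key _ _ h

/-- The condition of Adachi, Iyama and Reiten implies that the presentation is rigid. -/
theorem rigid_of_pres [Module.Projective A P₀] [Module.Projective A P₁] {f : P₁ →ₗ[A] P₀}
    {π : P₀ →ₗ[A] M} (hπ : Function.Surjective π) (hex : LinearMap.range f = LinearMap.ker π)
    (h : ∀ k : P₁ →ₗ[A] M, ∃ l : P₀ →ₗ[A] M, k = l ∘ₗ f) : Rigid f := by
  intro g
  obtain ⟨l, hl⟩ := h (π ∘ₗ g)
  obtain ⟨t, ht⟩ := Module.projective_lifting_property π l hπ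
  have h1 : ∀ x, g x - t (f x) ∈ LinearMap.range f := by
    intro x
    rw [hex, LinearMap.mem_ker, map_sub]
    have h2 := LinearMap.congr_fun hl x
    have h3 := LinearMap.congr_fun ht (f x)
    simp only [LinearMap.comp_apply] at h2 h3
    rw [h2, h3, sub_self]
  obtain ⟨s, hs⟩ := Module.projective_lifting_property f.rangeRestrict
    (LinearMap.codRestrict (LinearMap.range f) (g - t ∘ₗ f) h1) f.surjective_rangeRestrict
  refine ⟨s, -t, ?_⟩
  ext x
  have h4 := congrArg Subtype.val (LinearMap.congr_fun hs x)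
  simp only [LinearMap.comp_apply, LinearMap.codRestrict_apply, LinearMap.sub_apply] at h4
  have h5 : f (s x) = g x - t (f x) := h4
  simp [h5]

end sign

section coker

variable {A : Type*} [Ring A]

/-- The cokernel of a map. -/
abbrev Coker {P Q : Type*} [AddCommGroup P] [Module A P] [AddCommGroup Q] [Module A Q]
    (f : P →ₗ[A] Q) : Type _ := Q ⧸ LinearMap.range f

theorem coker_iso {P Q P' Q' : Type*} [AddCommGroup P] [Module A P] [AddCommGroup Q] [Module A Q]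
    [AddCommGroup P'] [Module A P'] [AddCommGroup Q'] [Module A Q']
    {f : P →ₗ[A] Q} {g : P' →ₗ[A] Q'} (h : Iso f g) : Nonempty (Coker f ≃ₗ[A] Coker g) := by
  obtain ⟨α, β, h⟩ := h
  refine ⟨Submodule.Quotient.equiv _ _ β ?_⟩
  ext y
  simp only [Submodule.mem_map, LinearMap.mem_range]
  constructor
  · rintro ⟨_, ⟨x, rfl⟩, rfl⟩
    exact ⟨α x, LinearMap.congr_fun h x⟩
  · rintro ⟨x, rfl⟩
    refine ⟨f (α.symm x), ⟨_, rfl⟩, ?_⟩
    have := LinearMap.congr_fun h (α.symm x)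
    simp only [LinearMap.comp_apply, LinearEquiv.coe_coe, LinearEquiv.apply_symm_apply] at this
    exact this.symm

theorem coker_prod {P Q P' Q' : Type*} [AddCommGroup P] [Module A P] [AddCommGroup Q] [Module A Q]
    [AddCommGroup P'] [Module A P'] [AddCommGroup Q'] [Module A Q']
    (f : P →ₗ[A] Q) (g : P' →ₗ[A] Q') :
    Nonempty (Coker (f.prodMap g) ≃ₗ[A] (Coker f × Coker g)) := by
  let φ : (Q × Q') →ₗ[A] (Coker f × Coker g) :=
    (LinearMap.range f).mkQ.prodMap (LinearMap.range g).mkQ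
  have hφ : Function.Surjective φ := by
    rintro ⟨x, y⟩
    obtain ⟨x, rfl⟩ := Submodule.mkQ_surjective _ x
    obtain ⟨y, rfl⟩ := Submodule.mkQ_surjective _ y
    exact ⟨(x, y), rfl⟩
  have hk : LinearMap.ker φ = LinearMap.range (f.prodMap g) := by
    ext ⟨x, y⟩
    simp only [φ, LinearMap.mem_ker, LinearMap.prodMap_apply, Prod.mk_eq_zero,
      LinearMap.mem_range, Prod.exists, Prod.mk.injEq]
    rw [Submodule.mkQ_apply, Submodule.mkQ_apply, Submodule.Quotient.mk_eq_zero,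
      Submodule.Quotient.mk_eq_zero]
    constructor
    · rintro ⟨⟨a, ha⟩, ⟨b, hb⟩⟩
      exact ⟨a, b, ha, hb⟩
    · rintro ⟨a, b, ha, hb⟩
      exact ⟨⟨a, ha⟩, ⟨b, hb⟩⟩
  exact ⟨(Submodule.quotEquivOfEq _ _ hk.symm) ≪≫ₗ
    LinearMap.quotKerEquivOfSurjective φ hφ⟩

variable {P₁ Q₁ P₂ Q₂ : Type*}
variable [AddCommGroup P₁] [Module A P₁] [AddCommGroup Q₁] [Module A Q₁]
variable [AddCommGroup P₂] [Module A P₂] [AddCommGroup Q₂] [Module A Q₂]

theorem EZero.add_left {a b a' b' : ℕ} {f : Ob A P₁ Q₁ P₂ Q₂ a b} {g : Ob A P₁ Q₁ P₂ Q₂ a' b'}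
    {P Q : Type*} [AddCommGroup P] [Module A P] [AddCommGroup Q] [Module A Q] {h : P →ₗ[A] Q}
    (hf : EZero f h) (hg : EZero g h) : EZero (f.add g) h :=
  (EZero.prod_left hf hg).iso (Ob.iso_add f g) (Iso.refl h)

theorem EZero.add_right {a b a' b' : ℕ} {f : Ob A P₁ Q₁ P₂ Q₂ a b} {g : Ob A P₁ Q₁ P₂ Q₂ a' b'}
    {P Q : Type*} [AddCommGroup P] [Module A P] [AddCommGroup Q] [Module A Q] {h : P →ₗ[A] Q}
    (hf : EZero h f) (hg : EZero h g) : EZero h (f.add g) :=
  (EZero.prod_right hf hg).iso (Iso.refl h) (Ob.iso_add f g)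

/-- Sums of copies of two compatible rigid maps. -/
theorem exists_sum (X Y : Σ c : ℕ × ℕ, Ob A P₁ Q₁ P₂ Q₂ c.1 c.2) (hX : Rigid X.2)
    (hY : Rigid Y.2) (hXY : EZero X.2 Y.2) (hYX : EZero Y.2 X.2) (α β : ℕ) :
    ∀ a b : ℕ, (a, b) = α • X.1 + β • Y.1 → ∃ Z : Ob A P₁ Q₁ P₂ Q₂ a b, Rigid Z ∧
      EZero Z X.2 ∧ EZero X.2 Z ∧ EZero Z Y.2 ∧ EZero Y.2 Z ∧
      ∀ (M : Type*) [AddCommGroup M] [Module A M], Indec A M → Nonempty (M ≃ₗ[A] Coker Z) →
        Nonempty (M ≃ₗ[A] Coker X.2) ∨ Nonempty (M ≃ₗ[A] Coker Y.2) := by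
  induction α with
  | zero =>
    induction β with
    | zero =>
      intro a b h
      obtain ⟨rfl, rfl⟩ : a = 0 ∧ b = 0 := by simpa using h
      have hz : ∀ (P Q : Type _) [AddCommGroup P] [Module A P] [AddCommGroup Q] [Module A Q]
          (k : P →ₗ[A] Q), EZero (0 : Ob A P₁ Q₁ P₂ Q₂ 0 0) k := by
        intro P Q _ _ _ _ k l
        refine ⟨0, 0, ?_⟩
        ext x
        · exact x.elim0
        · exact x.elim0
      have hz' : ∀ (P Q : Type _) [AddCommGroup P] [Module A P] [AddCommGroup Q] [Module A Q]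
          (k : P →ₗ[A] Q), EZero k (0 : Ob A P₁ Q₁ P₂ Q₂ 0 0) := by
        intro P Q _ _ _ _ k l
        refine ⟨0, 0, ?_⟩
        ext x y
        · exact y.elim0
        · exact y.elim0
      refine ⟨0, hz _ _ _, hz _ _ _, hz' _ _ _, hz _ _ _, hz' _ _ _, ?_⟩
      intro M _ _ hM ⟨e⟩
      exfalso
      obtain ⟨x, hx⟩ := (hM.1).exists_pair_ne
      obtain ⟨y, hxy⟩ := hx
      apply hxy
      apply e.injective
      exact Subsingleton.elim _ _
    | succ β ih =>
      intro a b h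
      have h' : (a, b) = 0 • X.1 + β • Y.1 + Y.1 := by rw [h, succ_nsmul, add_assoc]
      obtain ⟨c, hc⟩ : ∃ c : ℕ × ℕ, c = 0 • X.1 + β • Y.1 := ⟨_, rfl⟩
      rw [← hc] at h'
      obtain ⟨rfl, rfl⟩ : a = c.1 + Y.1.1 ∧ b = c.2 + Y.1.2 := by
        simpa [Prod.ext_iff] using h'
      obtain ⟨Z, z1, z2, z3, z4, z5, z6⟩ := ih c.1 c.2 hc
      refine ⟨Z.add Y.2, ?_, z2.add_left hYX, z3.add_right hXY, z4.add_left hY,
        z5.add_right hY, ?_⟩
      · exact EZero.add_left (z1.add_right z4) (z5.add_right hY)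
      · intro M _ _ hM ⟨e⟩
        obtain ⟨e1⟩ := coker_iso (Ob.iso_add Z Y.2)
        obtain ⟨e2⟩ := coker_prod Z Y.2
        rcases hM.prod (e ≪≫ₗ e1.symm ≪≫ₗ e2) with h1 | h1
        · exact z6 M hM h1
        · exact Or.inr h1
  | succ α ih =>
    intro a b h
    have h' : (a, b) = α • X.1 + β • Y.1 + X.1 := by rw [h, succ_nsmul]; abel
    obtain ⟨c, hc⟩ : ∃ c : ℕ × ℕ, c = α • X.1 + β • Y.1 := ⟨_, rfl⟩
    rw [← hc] at h'
    obtain ⟨rfl, rfl⟩ : a = c.1 + X.1.1 ∧ b = c.2 + X.1.2 := by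
      simpa [Prod.ext_iff] using h'
    obtain ⟨Z, z1, z2, z3, z4, z5, z6⟩ := ih c.1 c.2 hc
    refine ⟨Z.add X.2, ?_, z2.add_left hX, z3.add_right hX, z4.add_left hXY,
      z5.add_right hYX, ?_⟩
    · exact EZero.add_left (z1.add_right z2) (z3.add_right hX)
    · intro M _ _ hM ⟨e⟩
      obtain ⟨e1⟩ := coker_iso (Ob.iso_add Z X.2)
      obtain ⟨e2⟩ := coker_prod Z X.2
      rcases hM.prod (e ≪≫ₗ e1.symm ≪≫ₗ e2) with h1 | h1
      · exact z6 M hM h1
      · exact Or.inl h1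

end coker

end Pool.Agent.H51.T2
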