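import Pool.Agent.H51.T2.Fac

/-! Classes: sums, multiples, monotonicity, neighbours. -/

set_option linter.style.haveILetI false
set_option linter.unusedSectionVars false

namespace Pool.Agent.H51.T2

open Module

universe u

section dom
variable {A : Type u} [Ring A]
variable {P Q P' Q' P'' Q'' : Type u} [AddCommGroup P] [Module A P] [AddCommGroup Q] [Module A Q]
  [AddCommGroup P'] [Module A P'] [AddCommGroup Q'] [Module A Q']
  [AddCommGroup P''] [Module A P''] [AddCommGroup Q''] [Module A Q'']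

/-- `X` behaves like a summand of `Z`. -/
structure Dom (Z : P →ₗ[A] Q) (X : P' →ₗ[A] Q') : Prop where
  left : ∀ (V W : Type u) [AddCommGroup V] [Module A V] [AddCommGroup W] [Module A W]
    (g : V →ₗ[A] W), EZero Z g → EZero X g
  right : ∀ (V W : Type u) [AddCommGroup V] [Module A V] [AddCommGroup W] [Module A W]
    (g : V →ₗ[A] W), EZero g Z → EZero g X
  tt : ∀ (M : Type u) [AddCommGroup M] [Module A M], TT Z M → TT X M

/-- `Z` behaves like a sum of copies of `X` and `Y`. -/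
structure Gen (Z : P →ₗ[A] Q) (X : P' →ₗ[A] Q') (Y : P'' →ₗ[A] Q'') : Prop where
  left : ∀ (V W : Type u) [AddCommGroup V] [Module A V] [AddCommGroup W] [Module A W]
    (g : V →ₗ[A] W), EZero X g → EZero Y g → EZero Z g
  right : ∀ (V W : Type u) [AddCommGroup V] [Module A V] [AddCommGroup W] [Module A W]
    (g : V →ₗ[A] W), EZero g X → EZero g Y → EZero g Z
  tt : ∀ (M : Type u) [AddCommGroup M] [Module A M], TT X M → TT Y M → TT Z M

theorem Dom.refl (X : P →ₗ[A] Q) : Dom X X := ⟨fun _ _ _ _ _ _ _ h => h,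
  fun _ _ _ _ _ _ _ h => h, fun _ _ _ h => h⟩

theorem Dom.trans {Z : P →ₗ[A] Q} {X : P' →ₗ[A] Q'} {Y : P'' →ₗ[A] Q''} (h : Dom Z X)
    (h' : Dom X Y) : Dom Z Y :=
  ⟨fun V W _ _ _ _ g hg => h'.left V W g (h.left V W g hg),
    fun V W _ _ _ _ g hg => h'.right V W g (h.right V W g hg),
    fun M _ _ hM => h'.tt M (h.tt M hM)⟩

theorem Dom.of_iso {Z : P →ₗ[A] Q} {X : P' →ₗ[A] Q'} (h : Iso Z X) : Dom Z X :=
  ⟨fun _ _ _ _ _ _ g hg => hg.iso h (Iso.refl g), fun _ _ _ _ _ _ g hg => hg.iso (Iso.refl g) h,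
    fun _ _ _ hM => hM.iso h⟩

theorem Dom.fst (X : P →ₗ[A] Q) (Y : P' →ₗ[A] Q') : Dom (X.prodMap Y) X :=
  ⟨fun _ _ _ _ _ _ _ hg => hg.of_prod_left_fst, fun _ _ _ _ _ _ _ hg => hg.of_prod_right_fst,
    fun _ _ _ hM => hM.of_prod_fst⟩

theorem Dom.snd (X : P →ₗ[A] Q) (Y : P' →ₗ[A] Q') : Dom (X.prodMap Y) Y :=
  ⟨fun _ _ _ _ _ _ _ hg => hg.of_prod_left_snd, fun _ _ _ _ _ _ _ hg => hg.of_prod_right_snd,
    fun _ _ _ hM => hM.of_prod_snd⟩

theorem Dom.rigid {Z : P →ₗ[A] Q} {X : P' →ₗ[A] Q'} (h : Dom Z X) (hZ : Rigid Z) : Rigid X :=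
  h.left _ _ X (h.right _ _ Z hZ)

theorem Gen.prod {Z : P →ₗ[A] Q} {X : P' →ₗ[A] Q'} {Y : P'' →ₗ[A] Q''} (h : Gen Z X Y)
    {P₁ Q₁ : Type u} [AddCommGroup P₁] [Module A P₁] [AddCommGroup Q₁] [Module A Q₁]
    {Z₁ : P₁ →ₗ[A] Q₁} (h₁ : Gen Z₁ X Y) : Gen (Z.prodMap Z₁) X Y :=
  ⟨fun V W _ _ _ _ g hX hY => (h.left V W g hX hY).prod_left (h₁.left V W g hX hY),
    fun V W _ _ _ _ g hX hY => (h.right V W g hX hY).prod_right (h₁.right V W g hX hY),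
    fun M _ _ hX hY => (h.tt M hX hY).prod (h₁.tt M hX hY)⟩

theorem Gen.iso {Z : P →ₗ[A] Q} {X : P' →ₗ[A] Q'} {Y : P'' →ₗ[A] Q''} (h : Gen Z X Y)
    {P₁ Q₁ : Type u} [AddCommGroup P₁] [Module A P₁] [AddCommGroup Q₁] [Module A Q₁]
    {Z₁ : P₁ →ₗ[A] Q₁} (h₁ : Iso Z Z₁) : Gen Z₁ X Y :=
  ⟨fun V W _ _ _ _ g hX hY => (h.left V W g hX hY).iso h₁ (Iso.refl g),
    fun V W _ _ _ _ g hX hY => (h.right V W g hX hY).iso (Iso.refl g) h₁,
    fun M _ _ hX hY => (h.tt M hX hY).iso h₁⟩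

theorem Gen.left_self (X : P' →ₗ[A] Q') (Y : P'' →ₗ[A] Q'') : Gen X X Y :=
  ⟨fun _ _ _ _ _ _ _ h _ => h, fun _ _ _ _ _ _ _ h _ => h, fun _ _ _ h _ => h⟩

theorem Gen.right_self (X : P' →ₗ[A] Q') (Y : P'' →ₗ[A] Q'') : Gen Y X Y :=
  ⟨fun _ _ _ _ _ _ _ _ h => h, fun _ _ _ _ _ _ _ _ h => h, fun _ _ _ _ h => h⟩

theorem Gen.rigid {Z : P →ₗ[A] Q} {X : P' →ₗ[A] Q'} {Y : P'' →ₗ[A] Q''} (h : Gen Z X Y)
    (hX : Rigid X) (hY : Rigid Y) (hXY : EZero X Y) (hYX : EZero Y X) : Rigid Z :=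
  h.left _ _ Z (h.right _ _ X hX hXY) (h.right _ _ Y hYX hY)

variable {P₁ Q₁ P₂ Q₂ : Type u}
variable [AddCommGroup P₁] [Module A P₁] [AddCommGroup Q₁] [Module A Q₁]
variable [AddCommGroup P₂] [Module A P₂] [AddCommGroup Q₂] [Module A Q₂]

theorem Dom.add_left {a b a' b' : ℕ} (f : Ob A P₁ Q₁ P₂ Q₂ a b) (g : Ob A P₁ Q₁ P₂ Q₂ a' b') :
    Dom (f.add g) f :=
  (Dom.of_iso (Ob.iso_add f g).symm).trans (Dom.fst f g)

theorem Dom.add_right {a b a' b' : ℕ} (f : Ob A P₁ Q₁ P₂ Q₂ a b) (g : Ob A P₁ Q₁ P₂ Q₂ a' b') :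
    Dom (f.add g) g :=
  (Dom.of_iso (Ob.iso_add f g).symm).trans (Dom.snd f g)

/-- Sums of copies of two maps. -/
theorem exists_comb (X Y : Σ c : ℕ × ℕ, Ob A P₁ Q₁ P₂ Q₂ c.1 c.2) (α β : ℕ) :
    ∀ a b : ℕ, (a, b) = α • X.1 + β • Y.1 → ∃ Z : Ob A P₁ Q₁ P₂ Q₂ a b, Gen Z X.2 Y.2 ∧
      (0 < α → Dom Z X.2) ∧ (0 < β → Dom Z Y.2) := by
  induction α with
  | zero =>
    induction β with
    | zero =>
      intro a b h
      obtain ⟨rfl, rfl⟩ : a = 0 ∧ b = 0 := by simpa using h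
      refine ⟨0, ⟨?_, ?_, ?_⟩, fun h => absurd h (lt_irrefl 0), fun h => absurd h (lt_irrefl 0)⟩
      · intro V W _ _ _ _ g _ _ l
        refine ⟨0, 0, ?_⟩
        ext x
        · exact x.elim0
        · exact x.elim0
      · intro V W _ _ _ _ g _ _ l
        refine ⟨0, 0, ?_⟩
        ext x y
        · exact y.elim0
        · exact y.elim0
      · intro M _ _ _ _ k
        refine ⟨0, ?_⟩
        ext x
        · exact x.elim0
        · exact x.elim0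
    | succ β ih =>
      intro a b h
      have h' : (a, b) = 0 • X.1 + β • Y.1 + Y.1 := by rw [h, succ_nsmul, add_assoc]
      obtain ⟨c, hc⟩ : ∃ c : ℕ × ℕ, c = 0 • X.1 + β • Y.1 := ⟨_, rfl⟩
      rw [← hc] at h'
      obtain ⟨rfl, rfl⟩ : a = c.1 + Y.1.1 ∧ b = c.2 + Y.1.2 := by
        simpa [Prod.ext_iff] using h'
      obtain ⟨Z, z1, z2, z3⟩ := ih c.1 c.2 hc
      exact ⟨Z.add Y.2, (z1.prod (Gen.right_self X.2 Y.2)).iso (Ob.iso_add Z Y.2),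
        fun h => absurd h (lt_irrefl 0), fun _ => Dom.add_right Z Y.2⟩
  | succ α ih =>
    intro a b h
    have h' : (a, b) = α • X.1 + β • Y.1 + X.1 := by rw [h, succ_nsmul]; abel
    obtain ⟨c, hc⟩ : ∃ c : ℕ × ℕ, c = α • X.1 + β • Y.1 := ⟨_, rfl⟩
    rw [← hc] at h'
    obtain ⟨rfl, rfl⟩ : a = c.1 + X.1.1 ∧ b = c.2 + X.1.2 := by
      simpa [Prod.ext_iff] using h'
    obtain ⟨Z, z1, z2, z3⟩ := ih c.1 c.2 hc
    exact ⟨Z.add X.2, (z1.prod (Gen.left_self X.2 Y.2)).iso (Ob.iso_add Z X.2),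
      fun _ => Dom.add_right Z X.2, fun h => (Dom.add_left Z X.2).trans (z3 h)⟩

end dom

section nbr

variable {K : Type*} [Field K] [Infinite K] {A : Type u} [Ring A] [Algebra K A]
variable {P₁ Q₁ P₂ Q₂ : Type u}
variable [AddCommGroup P₁] [Module K P₁] [Module A P₁] [IsScalarTower K A P₁]
variable [AddCommGroup Q₁] [Module K Q₁] [Module A Q₁] [IsScalarTower K A Q₁]
variable [AddCommGroup P₂] [Module K P₂] [Module A P₂] [IsScalarTower K A P₂]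
variable [AddCommGroup Q₂] [Module K Q₂] [Module A Q₂] [IsScalarTower K A Q₂]
variable [FiniteDimensional K P₁] [FiniteDimensional K Q₁]
variable [FiniteDimensional K P₂] [FiniteDimensional K Q₂]

/-- The determinant of two classes. -/
def dt (c d : ℕ × ℕ) : ℤ := (c.1 : ℤ) * d.2 - (c.2 : ℤ) * d.1

/-- The finite list of rigid maps covers all classes. -/
def Cov (L : List (Σ c : ℕ × ℕ, Ob A P₁ Q₁ P₂ Q₂ c.1 c.2)) : Prop :=
  (∀ X ∈ L, Rigid X.2) ∧ ∀ a b : ℕ, ∃ X ∈ L, ∃ Y ∈ L, ∃ α β : ℕ,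
    (a, b) = α • X.1 + β • Y.1 ∧ EZero X.2 Y.2 ∧ EZero Y.2 X.2

theorem dt_nsmul (n : ℕ) (c d : ℕ × ℕ) : dt (n • c) d = n * dt c d := by
  simp [dt]; ring

theorem dt_add (c c' d : ℕ × ℕ) : dt (c + c') d = dt c d + dt c' d := by
  simp [dt]; ring

theorem dt_swap (c d : ℕ × ℕ) : dt c d = - dt d c := by
  simp only [dt]; ring

theorem dt_self (c : ℕ × ℕ) : dt c c = 0 := by simp only [dt]; ring

/-- A compatible pair of rigid maps whose cone contains `X` consists of maps compatible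
with `X`. -/
theorem compat_of_cone (K : Type*) [Field K] [Infinite K] [Algebra K A]
    [Module K P₁] [IsScalarTower K A P₁] [Module K Q₁] [IsScalarTower K A Q₁]
    [Module K P₂] [IsScalarTower K A P₂] [Module K Q₂] [IsScalarTower K A Q₂]
    [FiniteDimensional K P₁] [FiniteDimensional K Q₁]
    [FiniteDimensional K P₂] [FiniteDimensional K Q₂]
    (X Y Y' : Σ c : ℕ × ℕ, Ob A P₁ Q₁ P₂ Q₂ c.1 c.2)
    (hX : Rigid X.2) (hY : Rigid Y.2) (hY' : Rigid Y'.2) (h1 : EZero Y.2 Y'.2)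
    (h2 : EZero Y'.2 Y.2) {d p q : ℕ} (hd : 0 < d) (h : d • X.1 = p • Y.1 + q • Y'.1) :
    (EZero X.2 Y.2 ∧ EZero Y.2 X.2) ∧ (EZero X.2 Y'.2 ∧ EZero Y'.2 X.2) := by
  obtain ⟨Z, z1, -, -⟩ := exists_comb Y Y' p q (d • X.1).1 (d • X.1).2 h
  obtain ⟨Z', y1, y2, -⟩ := exists_comb X X d 0 (d • X.1).1 (d • X.1).2
    (by show d • X.1 = d • X.1 + 0 • X.1; rw [zero_smul, add_zero])
  have hZ : Rigid Z := z1.rigid hY hY' h1 h2
  have hZ' : Rigid Z' := y1.rigid hX hX hX hX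
  have hiso : Iso Z Z' := rigid_unique K hZ hZ'
  have hD : Dom Z X.2 := (Dom.of_iso hiso).trans (y2 hd)
  exact ⟨⟨hD.left _ _ _ (z1.left _ _ _ hY h2), hD.right _ _ _ (z1.right _ _ _ hY h1)⟩,
    ⟨hD.left _ _ _ (z1.left _ _ _ h1 hY'), hD.right _ _ _ (z1.right _ _ _ h2 hY')⟩⟩

/-- Neighbours. -/
theorem nbr (K : Type*) [Field K] [Infinite K] [Algebra K A]
    [Module K P₁] [IsScalarTower K A P₁] [Module K Q₁] [IsScalarTower K A Q₁]
    [Module K P₂] [IsScalarTower K A P₂] [Module K Q₂] [IsScalarTower K A Q₂]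
    [FiniteDimensional K P₁] [FiniteDimensional K Q₁]
    [FiniteDimensional K P₂] [FiniteDimensional K Q₂]
    {L : List (Σ c : ℕ × ℕ, Ob A P₁ Q₁ P₂ Q₂ c.1 c.2)} (hL : Cov L)
    (X : Σ c : ℕ × ℕ, Ob A P₁ Q₁ P₂ Q₂ c.1 c.2) (hX : Rigid X.2) (v : ℕ × ℕ)
    (hv : dt v X.1 ≠ 0) :
    ∃ Y ∈ L, 0 < dt v X.1 * dt Y.1 X.1 ∧ EZero X.2 Y.2 ∧ EZero Y.2 X.2 := by
  classical
  choose! f hf g hg α β hab h1 h2 using fun n : ℕ => hL.2 (n • X.1 + v).1 (n • X.1 + v).2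
  have hab' : ∀ n, n • X.1 + v = α n • (f n).1 + β n • (g n).1 := fun n => hab n
  -- a pair which occurs infinitely often
  obtain ⟨⟨Y, Y'⟩, hinf⟩ : ∃ z : {x // x ∈ L} × {x // x ∈ L},
      {n : ℕ | (f n = z.1.1 ∧ g n = z.2.1)}.Infinite := by
    by_contra hne
    push Not at hne
    have hcov : (Set.univ : Set ℕ) ⊆ ⋃ z : {x // x ∈ L} × {x // x ∈ L},
        {n : ℕ | (f n = z.1.1 ∧ g n = z.2.1)} := by
      intro n _
      rw [Set.mem_iUnion]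
      exact ⟨(⟨f n, hf n⟩, ⟨g n, hg n⟩), rfl, rfl⟩
    haveI : Finite {x // x ∈ L} := (List.finite_toSet L).to_subtype
    exact Set.infinite_univ ((Set.finite_iUnion hne).subset hcov)
  obtain ⟨Y, hYL⟩ := Y
  obtain ⟨Y', hYL'⟩ := Y'
  simp only at hinf
  -- the two coordinates of the determinant
  have e1 : ∀ n ∈ {n : ℕ | f n = Y ∧ g n = Y'},
      (α n : ℤ) * dt Y.1 Y'.1 = n * dt X.1 Y'.1 + dt v Y'.1 ∧
      (β n : ℤ) * dt Y.1 Y'.1 = n * dt Y.1 X.1 + dt Y.1 v := by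
    intro n hn
    have h3 := hab' n
    rw [hn.1, hn.2] at h3
    have h4 := congrArg (fun c => dt c Y'.1) h3
    have h5 := congrArg (fun c => dt c Y.1) h3
    simp only [dt_add, dt_nsmul, dt_self, mul_zero, add_zero, zero_add] at h4 h5
    refine ⟨h4.symm, ?_⟩
    rw [dt_swap Y.1 Y'.1, dt_swap Y.1 X.1, dt_swap Y.1 v]
    linarith
  have hc : ∀ N : ℕ, ∃ n ∈ {n : ℕ | f n = Y ∧ g n = Y'}, N < n := fun N => by
    obtain ⟨n, hn, hn'⟩ := hinf.exists_gt N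
    exact ⟨n, hn, hn'⟩
  -- sign lemma
  have key : ∀ (γ : ℕ → ℕ) (d x y : ℤ), (∀ n ∈ {n : ℕ | f n = Y ∧ g n = Y'},
      (γ n : ℤ) * d = n * x + y) → 0 ≤ d → 0 ≤ x := by
    intro γ d x y h hd
    by_contra hx
    push Not at hx
    obtain ⟨n, hn, hn'⟩ := hc y.natAbs
    have h3 := h n hn
    have h4 : (0 : ℤ) ≤ (γ n : ℤ) * d := by positivity
    have h5 : (n : ℤ) * x ≤ - (n : ℤ) := by nlinarith
    have h6 : y ≤ (y.natAbs : ℤ) := Int.le_natAbs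
    have h7 : (y.natAbs : ℤ) < (n : ℤ) := by exact_mod_cast hn'
    linarith
  have key' : ∀ (γ : ℕ → ℕ) (d x y : ℤ), (∀ n ∈ {n : ℕ | f n = Y ∧ g n = Y'},
      (γ n : ℤ) * d = n * x + y) → d ≤ 0 → x ≤ 0 := by
    intro γ d x y h hd
    have := key γ (-d) (-x) (-y) (fun n hn => by have := h n hn; linarith) (by linarith)
    linarith
  have k1 := fun n hn => (e1 n hn).1
  have k2 := fun n hn => (e1 n hn).2
  -- the relation `d X = p Y + q Y'`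
  have hrel : ∀ i : Bool, (dt Y.1 Y'.1) * (if i then (X.1.1 : ℤ) else X.1.2) =
      dt X.1 Y'.1 * (if i then (Y.1.1 : ℤ) else Y.1.2) +
      dt Y.1 X.1 * (if i then (Y'.1.1 : ℤ) else Y'.1.2) := by
    intro i
    cases i <;> simp [dt] <;> ring
  obtain ⟨n0, hn0, -⟩ := hc 0
  have hsum := hab' n0
  rw [hn0.1, hn0.2] at hsum
  have hcX := congrArg (fun c => dt c X.1) hsum
  simp only [dt_add, dt_nsmul, dt_self, mul_zero, zero_add] at hcX
  have hE1 : EZero Y.2 Y'.2 := by have := h1 n0; rwa [hn0.1, hn0.2] at this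
  have hE2 : EZero Y'.2 Y.2 := by have := h2 n0; rwa [hn0.1, hn0.2] at this
  have hd0 : dt Y.1 Y'.1 ≠ 0 := by
    intro hd
    obtain ⟨n1, hn1, hlt⟩ := hc n0
    have a0 := k1 n0 hn0
    have a1 := k1 n1 hn1
    have b0 := k2 n0 hn0
    have b1 := k2 n1 hn1
    rw [hd, mul_zero] at a0 a1 b0 b1
    have hlt' : (n0 : ℤ) < n1 := by exact_mod_cast hlt
    have c1 : dt X.1 Y'.1 = 0 := by
      have : ((n1 : ℤ) - n0) * dt X.1 Y'.1 = 0 := by linarith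
      rcases mul_eq_zero.1 this with h | h
      · omega
      · exact h
    have c2 : dt Y.1 X.1 = 0 := by
      have : ((n1 : ℤ) - n0) * dt Y.1 X.1 = 0 := by linarith
      rcases mul_eq_zero.1 this with h | h
      · omega
      · exact h
    have c3 : dt Y'.1 X.1 = 0 := by rw [dt_swap]; linarith
    apply hv
    rw [hcX, c2, c3]; simp
  -- both cases
  have fin : ∀ (W W' : Σ c : ℕ × ℕ, Ob A P₁ Q₁ P₂ Q₂ c.1 c.2), Rigid W.2 → Rigid W'.2 →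
      EZero W.2 W'.2 → EZero W'.2 W.2 → 0 < dt W.1 W'.1 → 0 ≤ dt X.1 W'.1 → 0 ≤ dt W.1 X.1 →
      (EZero X.2 W.2 ∧ EZero W.2 X.2) ∧ (EZero X.2 W'.2 ∧ EZero W'.2 X.2) := by
    intro W W' r1 r2 r3 r4 hd hp hq
    refine compat_of_cone K X W W' hX r1 r2 r3 r4 (d := (dt W.1 W'.1).toNat)
      (p := (dt X.1 W'.1).toNat) (q := (dt W.1 X.1).toNat) (by omega) ?_
    have t1 : ((dt W.1 W'.1).toNat : ℤ) = dt W.1 W'.1 := Int.toNat_of_nonneg hd.le
    have t2 : ((dt X.1 W'.1).toNat : ℤ) = dt X.1 W'.1 := Int.toNat_of_nonneg hp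
    have t3 : ((dt W.1 X.1).toNat : ℤ) = dt W.1 X.1 := Int.toNat_of_nonneg hq
    refine Prod.ext ?_ ?_
    · simp only [Prod.fst_add, Prod.smul_fst, smul_eq_mul]
      zify
      rw [t1, t2, t3]
      simp only [dt]; ring
    · simp only [Prod.snd_add, Prod.smul_snd, smul_eq_mul]
      zify
      rw [t1, t2, t3]
      simp only [dt]; ring
  have hcomp : (EZero X.2 Y.2 ∧ EZero Y.2 X.2) ∧ (EZero X.2 Y'.2 ∧ EZero Y'.2 X.2) := by
    rcases lt_or_gt_of_ne hd0 with hneg | hpos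
    · have p1 := key' α _ _ _ k1 hneg.le
      have p2 := key' β _ _ _ k2 hneg.le
      have := fin Y' Y (hL.1 _ hYL') (hL.1 _ hYL) hE2 hE1 (by rw [dt_swap]; linarith)
        (by rw [dt_swap]; linarith) (by rw [dt_swap]; linarith)
      exact ⟨this.2, this.1⟩
    · exact fin Y Y' (hL.1 _ hYL) (hL.1 _ hYL') hE1 hE2 hpos (key α _ _ _ k1 hpos.le)
        (key β _ _ _ k2 hpos.le)
  have hpos : 0 < (α n0 : ℤ) * (dt v X.1 * dt Y.1 X.1) + β n0 * (dt v X.1 * dt Y'.1 X.1) := by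
    have : (α n0 : ℤ) * (dt v X.1 * dt Y.1 X.1) + β n0 * (dt v X.1 * dt Y'.1 X.1) =
        dt v X.1 * dt v X.1 := by rw [hcX]; ring
    rw [this]
    exact mul_self_pos.2 hv
  by_cases hY : 0 < dt v X.1 * dt Y.1 X.1
  · exact ⟨Y, hYL, hY, hcomp.1⟩
  · refine ⟨Y', hYL', ?_, hcomp.2⟩
    by_contra hY'
    push Not at hY hY'
    have s1 : (α n0 : ℤ) * (dt v X.1 * dt Y.1 X.1) ≤ 0 :=
      mul_nonpos_of_nonneg_of_nonpos (by positivity) hY
    have s2 : (β n0 : ℤ) * (dt v X.1 * dt Y'.1 X.1) ≤ 0 :=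
      mul_nonpos_of_nonneg_of_nonpos (by positivity) hY'
    linarith

end nbr

end Pool.Agent.H51.T2
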