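import Pool.Agent.H51.T2.Two

/-! Deformations of direct sums of rigid maps. -/

namespace Pool.Agent.H51.T2

open Module

variable {K : Type*} [Field K] {A : Type*} [Ring A] [Algebra K A]
variable {P Q P' Q' P₁ Q₁ P₂ Q₂ : Type*}
variable [AddCommGroup P] [Module K P] [Module A P] [IsScalarTower K A P]
variable [AddCommGroup Q] [Module K Q] [Module A Q] [IsScalarTower K A Q]
variable [AddCommGroup P'] [Module K P'] [Module A P'] [IsScalarTower K A P']
variable [AddCommGroup Q'] [Module K Q'] [Module A Q'] [IsScalarTower K A Q']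
variable [AddCommGroup P₁] [Module K P₁] [Module A P₁] [IsScalarTower K A P₁]
variable [AddCommGroup Q₁] [Module K Q₁] [Module A Q₁] [IsScalarTower K A Q₁]
variable [AddCommGroup P₂] [Module K P₂] [Module A P₂] [IsScalarTower K A P₂]
variable [AddCommGroup Q₂] [Module K Q₂] [Module A Q₂] [IsScalarTower K A Q₂]

theorem dd_poly_right {f : P →ₗ[A] Q} {l : K → (P' →ₗ[A] Q')} (hl : PolyMap l) :
    PolyMap (fun t => dd K f (l t)) := by
  have h1 : ∀ t, dd K f (l t) = (compB K P P' Q' (l t)) ∘ₗ LinearMap.fst K _ _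
      + (-((compB K P Q Q').flip f)) ∘ₗ LinearMap.snd K _ _ := by
    intro t
    apply LinearMap.ext
    intro x
    simp [dd]
  simp only [h1]
  refine PolyMap.add ?_ (PolyMap.const _)
  exact hl.linear ((LinearMap.lcomp K _ (LinearMap.fst K (P →ₗ[A] P') (Q →ₗ[A] Q'))) ∘ₗ
    (compB K P P' Q'))

theorem dd_poly_left {g : P' →ₗ[A] Q'} {l : K → (P →ₗ[A] Q)} (hl : PolyMap l) :
    PolyMap (fun t => dd K (l t) g) := by
  have h1 : ∀ t, dd K (l t) g = (compB K P P' Q' g) ∘ₗ LinearMap.fst K _ _
      + (-((compB K P Q Q').flip (l t))) ∘ₗ LinearMap.snd K _ _ := by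
    intro t
    apply LinearMap.ext
    intro x
    simp [dd]
  simp only [h1]
  refine PolyMap.add (PolyMap.const _) ?_
  exact hl.linear ((LinearMap.lcomp K _ (LinearMap.snd K (P →ₗ[A] P') (Q →ₗ[A] Q'))) ∘ₗ
    (-(compB K P Q Q').flip))

/-- Restriction of scalars of endomorphisms, and bijectivity at almost all points. -/
theorem finite_not_bij [FiniteDimensional K P] {φ : K → (P →ₗ[A] P)} (hφ : PolyMap φ)
    (h0 : Function.Bijective (φ 0)) : {t | ¬ Function.Bijective (φ t)}.Finite := by
  have h1 : PolyMap (fun t => (φ t).restrictScalars K) :=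
    hφ.linear (LinearMap.restrictScalarsₗ K A P P K)
  exact h1.finite_not_bijective h0

theorem line_poly (f₀ f₁ : P →ₗ[A] Q) : PolyMap (fun t : K => f₀ + t • (f₁ - f₀)) :=
  (PolyMap.const _).add (PolyMap.id.smul (PolyMap.const _))

theorem line_flip (f₀ m : P →ₗ[A] Q) (t : K) :
    m + (1 - t) • (f₀ - m) = f₀ + t • (m - f₀) := by
  rw [sub_smul, one_smul, smul_sub, smul_sub]; abel

section fin
variable [FiniteDimensional K P] [FiniteDimensional K Q]

/-- A rigid map is isomorphic to almost all maps on every line through it. -/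
theorem iso_line {f₀ : P →ₗ[A] Q} (h : Rigid f₀) (f₁ : P →ₗ[A] Q) :
    {t : K | ¬ Iso f₀ (f₀ + t • (f₁ - f₀))}.Finite := by
  have : FiniteDimensional K (P →ₗ[A] Q) := finite_hom
  have : FiniteDimensional K (P →ₗ[A] P) := finite_hom
  have : FiniteDimensional K (Q →ₗ[A] Q) := finite_hom
  set D : K → _ := fun t => dd K f₀ (f₀ + t • (f₁ - f₀)) with hD
  have hDp : PolyMap D := dd_poly_right (line_poly f₀ f₁)
  have hD0 : D 0 = dd K f₀ f₀ := by simp [hD]
  have hr : {t | ¬ finrank K (LinearMap.range (D t)) ≤ finrank K (LinearMap.range (D 0))}.Finite := by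
    refine Set.finite_empty.subset fun t ht => ht ?_
    rw [hD0, (eZero_iff_range (K := K)).1 h, finrank_top]
    exact Submodule.finrank_le _
  have hv : D 0 (LinearMap.id, LinearMap.id) = 0 := by
    rw [hD0, dd_apply]; simp
  obtain ⟨u, hu, hu0, hfin⟩ := lift_kernel D hDp hr hv
  have hα : PolyMap (fun t => (u t).1) := hu.linear (LinearMap.fst K _ _)
  have hβ : PolyMap (fun t => (u t).2) := hu.linear (LinearMap.snd K _ _)
  have hα' := finite_not_bij hα (by rw [hu0]; exact Function.bijective_id)
  have hβ' := finite_not_bij hβ (by rw [hu0]; exact Function.bijective_id)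
  refine ((hfin.union hα').union hβ').subset fun t ht => ?_
  by_contra hne
  simp only [Set.mem_union, Set.mem_ofPred_eq, not_or, not_not] at hne
  obtain ⟨⟨h1, h2⟩, h3⟩ := hne
  apply ht
  refine ⟨LinearEquiv.ofBijective _ h2, LinearEquiv.ofBijective _ h3, ?_⟩
  have h4 := h1
  simp only [hD, dd_apply, sub_eq_zero] at h4
  exact h4

variable [Infinite K]

/-- Two rigid maps between the same modules are isomorphic. -/
theorem rigid_unique (K : Type*) [Field K] [Algebra K A] [Infinite K]
    [Module K P] [IsScalarTower K A P] [Module K Q] [IsScalarTower K A Q]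
    [FiniteDimensional K P] [FiniteDimensional K Q]
    {f g : P →ₗ[A] Q} (hf : Rigid f) (hg : Rigid g) : Iso f g := by
  have h1 := iso_line (K := K) hf g
  have h2 := (iso_line (K := K) hg f).image (fun t => 1 - t)
  obtain ⟨t, ht⟩ := ((h1.union h2).infinite_compl).nonempty
  simp only [Set.compl_union, Set.mem_inter_iff, Set.mem_compl_iff, Set.mem_ofPred_eq,
    not_not, Set.mem_image, not_exists, not_and] at ht
  obtain ⟨h3, h4⟩ := ht
  have h5 : Iso g (g + (1 - t) • (f - g)) := by
    by_contra hne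
    exact h4 (1 - t) hne (by ring)
  have h6 : g + (1 - t) • (f - g) = f + t • (g - f) := by
    rw [sub_smul, one_smul, smul_sub, smul_sub]; abel
  rw [h6] at h5
  exact h3.trans h5.symm

end fin

end Pool.Agent.H51.T2
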