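import Pool.Agent.H51.T2.Main

/-! Modules `M` such that every map from the source of `f` to `M` factors through `f`. -/

set_option linter.style.haveILetI false
set_option linter.unusedSectionVars false

namespace Pool.Agent.H51.T2

open Module

universe u

section basic
variable {A : Type*} [Ring A]
variable {P Q P' Q' M N : Type*} [AddCommGroup P] [Module A P] [AddCommGroup Q] [Module A Q]
  [AddCommGroup P'] [Module A P'] [AddCommGroup Q'] [Module A Q']
  [AddCommGroup M] [Module A M] [AddCommGroup N] [Module A N]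

/-- Every map from the source of `f` to `M` factors through `f`. -/
def TT (f : P →ₗ[A] Q) (M : Type*) [AddCommGroup M] [Module A M] : Prop :=
  ∀ k : P →ₗ[A] M, ∃ l : Q →ₗ[A] M, k = l ∘ₗ f

/-- The cokernel of `f` has no nonzero map to `M`. -/
def HH (f : P →ₗ[A] Q) (M : Type*) [AddCommGroup M] [Module A M] : Prop :=
  ∀ l : Q →ₗ[A] M, l ∘ₗ f = 0 → l = 0

theorem TT.iso {f : P →ₗ[A] Q} {g : P' →ₗ[A] Q'} (h : TT f M) (hfg : Iso f g) : TT g M := by
  obtain ⟨α, β, hab⟩ := hfg
  intro k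
  obtain ⟨l, hl⟩ := h (k ∘ₗ α.toLinearMap)
  refine ⟨l ∘ₗ β.symm.toLinearMap, ?_⟩
  ext x
  have h1 := LinearMap.congr_fun hl (α.symm x)
  have h2 := LinearMap.congr_fun hab (α.symm x)
  simp only [LinearMap.comp_apply, LinearEquiv.coe_coe, LinearEquiv.apply_symm_apply] at h1 h2 ⊢
  rw [h1, h2, LinearEquiv.symm_apply_apply]

theorem TT.surj [Module.Projective A P] {f : P →ₗ[A] Q} (h : TT f M) {π : M →ₗ[A] N}
    (hπ : Function.Surjective π) : TT f N := by
  intro k
  obtain ⟨k', hk'⟩ := Module.projective_lifting_property π k hπ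
  obtain ⟨l, hl⟩ := h k'
  exact ⟨π ∘ₗ l, by rw [← hk', hl]; rfl⟩

theorem TT.congr [Module.Projective A P] {f : P →ₗ[A] Q} (h : TT f M) (e : M ≃ₗ[A] N) :
    TT f N := h.surj (π := e.toLinearMap) e.surjective

theorem TT.prod {f : P →ₗ[A] Q} {g : P' →ₗ[A] Q'} (hf : TT f M) (hg : TT g M) :
    TT (f.prodMap g) M := by
  intro k
  obtain ⟨l, hl⟩ := hf (k ∘ₗ LinearMap.inl A P P')
  obtain ⟨l', hl'⟩ := hg (k ∘ₗ LinearMap.inr A P P')
  refine ⟨l.coprod l', ?_⟩
  refine LinearMap.prod_ext ?_ ?_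
  · rw [hl]; ext x; simp
  · rw [hl']; ext x; simp

theorem TT.of_prod_fst {f : P →ₗ[A] Q} {g : P' →ₗ[A] Q'} (h : TT (f.prodMap g) M) : TT f M := by
  intro k
  obtain ⟨l, hl⟩ := h (k ∘ₗ LinearMap.fst A P P')
  refine ⟨l ∘ₗ LinearMap.inl A Q Q', ?_⟩
  ext x
  have := LinearMap.congr_fun hl (x, 0)
  simpa using this

theorem TT.of_prod_snd {f : P →ₗ[A] Q} {g : P' →ₗ[A] Q'} (h : TT (f.prodMap g) M) : TT g M := by
  intro k
  obtain ⟨l, hl⟩ := h (k ∘ₗ LinearMap.snd A P P')
  refine ⟨l ∘ₗ LinearMap.inr A Q Q', ?_⟩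
  ext x
  have := LinearMap.congr_fun hl (0, x)
  simpa using this

theorem TT.pi {f : P →ₗ[A] Q} (h : TT f M) (ι : Type*) : TT f (ι → M) := by
  intro k
  choose l hl using fun i : ι => h (LinearMap.proj i ∘ₗ k)
  refine ⟨LinearMap.pi l, ?_⟩
  ext x i
  exact LinearMap.congr_fun (hl i) x

theorem EZero.tt [Module.Projective A P] {f : P →ₗ[A] Q} {g : P' →ₗ[A] Q'} (h : EZero f g) :
    TT f (Coker g) := by
  intro k
  obtain ⟨k', hk'⟩ := Module.projective_lifting_property (LinearMap.range g).mkQ k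
    (Submodule.mkQ_surjective _)
  obtain ⟨s, t, hst⟩ := h k'
  refine ⟨-((LinearMap.range g).mkQ ∘ₗ t), ?_⟩
  rw [← hk', hst]
  ext x
  simp only [LinearMap.comp_apply, LinearMap.sub_apply, LinearMap.neg_apply, map_sub]
  have h0 : (LinearMap.range g).mkQ (g (s x)) = 0 := by
    rw [Submodule.mkQ_apply, Submodule.Quotient.mk_eq_zero]
    exact ⟨s x, rfl⟩
  rw [h0, zero_sub]

/-- The sum of the images of all maps from `C` to `M`. -/
def tr (A : Type*) [Ring A] (C M : Type*) [AddCommGroup C] [Module A C] [AddCommGroup M]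
    [Module A M] : Submodule A M :=
  ⨆ φ : C →ₗ[A] M, LinearMap.range φ

theorem mem_tr {C : Type*} [AddCommGroup C] [Module A C] (φ : C →ₗ[A] M) (x : C) :
    φ x ∈ tr A C M :=
  Submodule.mem_iSup_of_mem φ ⟨x, rfl⟩

end basic

section dims

variable (K : Type*) [Field K] {A : Type*} [Ring A] [Algebra K A]
variable {P Q C M : Type*}
variable [AddCommGroup P] [Module K P] [Module A P] [IsScalarTower K A P]
variable [AddCommGroup Q] [Module K Q] [Module A Q] [IsScalarTower K A Q]
variable [AddCommGroup C] [Module K C] [Module A C] [IsScalarTower K A C]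
variable [AddCommGroup M] [Module K M] [Module A M] [IsScalarTower K A M]
variable [FiniteDimensional K P] [FiniteDimensional K Q] [FiniteDimensional K C]
variable [FiniteDimensional K M]

include K in
/-- The trace is a quotient of a finite sum of copies. -/
theorem tr_pi : ∃ (n : ℕ) (σ : (Fin n → C) →ₗ[A] tr A C M), Function.Surjective σ := by
  have : FiniteDimensional K (C →ₗ[A] M) := finite_hom
  let b := Module.finBasis K (C →ₗ[A] M)
  let n := finrank K (C →ₗ[A] M)
  let σ₀ : (Fin n → C) →ₗ[A] M := LinearMap.lsum A (fun _ => C) ℕ (fun i => b i)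
  have hσ₀ : ∀ x, σ₀ x = ∑ i, b i (x i) := fun x => by
    simp only [σ₀, LinearMap.lsum_apply, LinearMap.sum_apply, LinearMap.comp_apply,
      LinearMap.proj_apply]
    rfl
  have h1 : ∀ x, σ₀ x ∈ tr A C M := by
    intro x
    rw [hσ₀]
    exact Submodule.sum_mem _ fun i _ => mem_tr _ _
  refine ⟨n, LinearMap.codRestrict _ σ₀ h1, ?_⟩
  have h2 : tr A C M ≤ LinearMap.range σ₀ := by
    refine iSup_le fun φ => ?_
    rintro _ ⟨x, rfl⟩
    refine ⟨fun i => (b.repr φ i) • x, ?_⟩
    rw [hσ₀]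
    conv_rhs => rw [← b.sum_repr φ]
    rw [LinearMap.sum_apply]
    refine Finset.sum_congr rfl fun i _ => ?_
    rw [LinearMap.smul_apply]
    exact LinearMap.map_smul_of_tower (b i) _ x
  rintro ⟨y, hy⟩
  obtain ⟨x, hx⟩ := h2 hy
  exact ⟨x, Subtype.ext hx⟩

include K in
theorem TT.tr [Module.Projective A P] {f : P →ₗ[A] Q} (h : TT f C) : TT f (tr A C M) := by
  obtain ⟨n, σ, hσ⟩ := tr_pi K (A := A) (C := C) (M := M)
  exact (h.pi (Fin n)).surj hσ

include K in
/-- The cokernel of a rigid map has no nonzero map to the quotient by its trace. -/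
theorem hh_quot [Module.Projective A P] [Module.Projective A Q] {f : P →ₗ[A] Q}
    (h : TT f (Coker f)) : HH f (M ⧸ tr A (Coker f) M) := by
  have ht : TT f (Pool.Agent.H51.T2.tr A (Coker f) M) := h.tr K
  intro l hl
  obtain ⟨l', hl'⟩ := Module.projective_lifting_property
    (Pool.Agent.H51.T2.tr A (Coker f) M).mkQ l (Submodule.mkQ_surjective _)
  have h1 : ∀ x, (l' ∘ₗ f) x ∈ Pool.Agent.H51.T2.tr A (Coker f) M := by
    intro x
    rw [← Submodule.Quotient.mk_eq_zero]
    have := LinearMap.congr_fun hl x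
    rw [← hl'] at this
    exact this
  obtain ⟨m, hm⟩ := ht (LinearMap.codRestrict _ (l' ∘ₗ f) h1)
  let g : Q →ₗ[A] M := l' - (Pool.Agent.H51.T2.tr A (Coker f) M).subtype ∘ₗ m
  have hg : LinearMap.range f ≤ LinearMap.ker g := by
    rintro _ ⟨x, rfl⟩
    rw [LinearMap.mem_ker]
    have := congrArg Subtype.val (LinearMap.congr_fun hm x)
    simp only [LinearMap.codRestrict_apply, LinearMap.comp_apply] at this
    simp [g, this]
  ext q
  have h2 : g q ∈ Pool.Agent.H51.T2.tr A (Coker f) M := by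
    have := mem_tr (A := A) ((LinearMap.range f).liftQ g hg) ((LinearMap.range f).mkQ q)
    simpa using this
  have h3 : l' q ∈ Pool.Agent.H51.T2.tr A (Coker f) M := by
    have h4 : l' q = g q + (m q : M) := by simp [g]
    rw [h4]
    exact Submodule.add_mem _ h2 (m q).2
  rw [← hl']
  simp only [LinearMap.comp_apply, LinearMap.zero_apply, Submodule.mkQ_apply]
  exact (Submodule.Quotient.mk_eq_zero _).2 h3

/-- Composition with `f`, as a map of vector spaces. -/
def pre (f : P →ₗ[A] Q) (M : Type*) [AddCommGroup M] [Module K M] [Module A M]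
    [IsScalarTower K A M] : (Q →ₗ[A] M) →ₗ[K] (P →ₗ[A] M) :=
  (compB K P Q M).flip f

@[simp] theorem pre_apply (f : P →ₗ[A] Q) (l : Q →ₗ[A] M) : pre K f M l = l ∘ₗ f := rfl

theorem tt_iff {f : P →ₗ[A] Q} : TT f M ↔ Function.Surjective (pre K f M) := by
  constructor
  · intro h k
    obtain ⟨l, hl⟩ := h k
    exact ⟨l, by rw [pre_apply, hl]⟩
  · intro h k
    obtain ⟨l, hl⟩ := h k
    exact ⟨l, by rw [← hl, pre_apply]⟩

theorem hh_iff {f : P →ₗ[A] Q} : HH f M ↔ Function.Injective (pre K f M) := by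
  rw [← LinearMap.ker_eq_bot, LinearMap.ker_eq_bot']
  rfl

theorem TT.le {f : P →ₗ[A] Q} (h : TT f M) : finrank K (P →ₗ[A] M) ≤ finrank K (Q →ₗ[A] M) := by
  have : FiniteDimensional K (Q →ₗ[A] M) := finite_hom
  exact LinearMap.finrank_le_finrank_of_surjective ((tt_iff K).1 h)

theorem TT.eq {f : P →ₗ[A] Q} (h : TT f M) (h' : HH f M) :
    finrank K (P →ₗ[A] M) = finrank K (Q →ₗ[A] M) :=
  (LinearEquiv.ofBijective _ ⟨(hh_iff K).1 h', (tt_iff K).1 h⟩).finrank_eq.symm

theorem TT.hh {f : P →ₗ[A] Q} (h : TT f M)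
    (h' : finrank K (P →ₗ[A] M) = finrank K (Q →ₗ[A] M)) : HH f M := by
  have : FiniteDimensional K (Q →ₗ[A] M) := finite_hom
  have : FiniteDimensional K (P →ₗ[A] M) := finite_hom
  rw [hh_iff K]
  exact (LinearMap.injective_iff_surjective_of_finrank_eq_finrank h'.symm).2 ((tt_iff K).1 h)

variable [Infinite K]

include K in
/-- Semicontinuity: a rigid map inherits the property from every map with the same source and
target. -/
theorem TT.rigid {f₁ f₀ : P →ₗ[A] Q} (h : TT f₁ M) (h0 : Rigid f₀) : TT f₀ M := by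
  have i1 : FiniteDimensional K (Q →ₗ[A] M) := finite_hom
  have i2 : FiniteDimensional K (P →ₗ[A] M) := finite_hom
  set D : K → _ := fun t => pre K (f₀ + t • (f₁ - f₀)) M with hD
  have hDp : PolyMap D := (line_poly f₀ f₁).linear (compB K P Q M).flip
  have h1 := generic_rank_at D hDp 1
  have h2 := iso_line (K := K) h0 f₁
  obtain ⟨t, ht⟩ := ((h1.union h2).infinite_compl).nonempty
  simp only [Set.compl_union, Set.mem_inter_iff, Set.mem_compl_iff, Set.mem_ofPred_eq,
    not_not] at ht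
  obtain ⟨h3, h4⟩ := ht
  have h5 : D 1 = pre K f₁ M := by simp [hD]
  have h6 : LinearMap.range (pre K f₁ M) = ⊤ := LinearMap.range_eq_top.2 ((tt_iff K).1 h)
  rw [h5, h6, finrank_top] at h3
  have h7 : LinearMap.range (D t) = ⊤ :=
    Submodule.eq_top_of_finrank_eq (le_antisymm (Submodule.finrank_le _) h3)
  have h8 : TT (f₀ + t • (f₁ - f₀)) M := (tt_iff K).2 (LinearMap.range_eq_top.1 h7)
  exact h8.iso h4.symm

end dims

end Pool.Agent.H51.T2
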