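import Pool.Agent.H51.T2.Mono

/-! The endomorphism ring of the cokernel of a minimal left neighbour is local. -/

set_option linter.style.haveILetI false
set_option linter.unusedSectionVars false

namespace Pool.Agent.H51.T2

open Module

universe u

/-- Direct summands of powers of `E` are powers of `E`. -/
def KS (A : Type u) [Ring A] (E : Type u) [AddCommGroup E] [Module A E] : Prop :=
  ∀ (P : Type u) [AddCommGroup P] [Module A P] [Module.Finite A P] [Module.Projective A P] (b : ℕ)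
    (i : P →ₗ[A] (Fin b → E)) (p : (Fin b → E) →ₗ[A] P), p ∘ₗ i = LinearMap.id →
    ∃ c : ℕ, Nonempty (P ≃ₗ[A] (Fin c → E))

theorem ks_of_cover (K : Type*) [Field K] {A : Type u} [Ring A] [Algebra K A]
    [FiniteDimensional K A] {S E : Type u} [AddCommGroup S] [Module A S] [IsSimpleModule A S]
    [AddCommGroup E] [Module A E] [Module.Finite A E] [Module.Projective A E] [Nontrivial E]
    {π : E →ₗ[A] S} (hπ : Function.Surjective π)
    (hmin : ∀ φ : E →ₗ[A] E, π ∘ₗ φ = π → Function.Bijective φ) : KS A E := by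
  haveI : IsNoetherianRing A := noeth_of_fd K
  haveI : IsArtinianRing A := artin_of_fd K
  have main : ∀ (n : ℕ) (P : Type u) [AddCommGroup P] [Module A P] [Module.Finite A P]
      [Module.Projective A P] (b : ℕ) (i : P →ₗ[A] (Fin b → E)) (p : (Fin b → E) →ₗ[A] P),
      p ∘ₗ i = LinearMap.id → kdim (A := A) K P < n →
      ∃ c : ℕ, Nonempty (P ≃ₗ[A] (Fin c → E)) := by
    intro n
    induction n with
    | zero => intro P _ _ _ _ b i p _ h; exact absurd h (Nat.not_lt_zero _)
    | succ n ih =>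
      intro P _ _ _ _ b i p hpi hP
      rcases subsingleton_or_nontrivial P with hs | hs
      · exact ⟨0, ⟨LinearEquiv.ofBijective (0 : P →ₗ[A] _) ⟨fun x y _ => Subsingleton.elim x y,
          fun y => ⟨0, Subsingleton.elim _ _⟩⟩⟩⟩
      obtain ⟨N, hN⟩ := IsCoatomic.exists_coatom (α := Submodule A P)
      haveI hsim : IsSimpleModule A (P ⧸ N) := isSimpleModule_iff_isCoatom.2 hN
      have hp : Function.Surjective p := fun x => ⟨i x, LinearMap.congr_fun hpi x⟩
      have hq : Function.Surjective (N.mkQ ∘ₗ p) := (Submodule.mkQ_surjective N).comp hp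
      -- some component is nonzero
      obtain ⟨j, hj⟩ : ∃ j : Fin b, (N.mkQ ∘ₗ p) ∘ₗ LinearMap.single A (fun _ => E) j ≠ 0 := by
        by_contra hne
        push Not at hne
        have h0 : N.mkQ ∘ₗ p = 0 := by
          apply LinearMap.pi_ext'
          intro j
          rw [hne j]; rfl
        haveI := IsSimpleModule.nontrivial A (P ⧸ N)
        obtain ⟨x, hx⟩ := exists_ne (0 : P ⧸ N)
        obtain ⟨y, rfl⟩ := hq x
        rw [h0] at hx
        exact hx rfl
      set ρ := (N.mkQ ∘ₗ p) ∘ₗ LinearMap.single A (fun _ => E) j with hρ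
      have hρs : Function.Surjective ρ := (LinearMap.surjective_or_eq_zero ρ).resolve_right hj
      have hker : LinearMap.ker ρ ≤ LinearMap.ker π := by
        intro x hx
        by_contra hx'
        have := top_of_minimal hmin (LinearMap.ker ρ) ⟨x, hx, hx'⟩
        exact hj (LinearMap.ker_eq_top.1 this)
      have hS : Nonempty ((P ⧸ N) ≃ₗ[A] S) := by
        let τ : (E ⧸ LinearMap.ker ρ) →ₗ[A] S := (LinearMap.ker ρ).liftQ π hker
        haveI : IsSimpleModule A (E ⧸ LinearMap.ker ρ) :=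
          IsSimpleModule.congr (LinearMap.quotKerEquivOfSurjective ρ hρs)
        have hτ : τ ≠ 0 := by
          intro h
          haveI := IsSimpleModule.nontrivial A S
          obtain ⟨x, hx⟩ := exists_ne (0 : S)
          obtain ⟨y, rfl⟩ := hπ x
          apply hx
          have := LinearMap.congr_fun h ((LinearMap.ker ρ).mkQ y)
          simpa [τ] using this
        have hb := LinearMap.bijective_of_ne_zero hτ
        exact ⟨(LinearMap.quotKerEquivOfSurjective ρ hρs).symm ≪≫ₗ LinearEquiv.ofBijective τ hb⟩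
      obtain ⟨eS⟩ := hS
      obtain ⟨Q, k1, k2, k3, k4, ⟨e⟩⟩ := split_cover K hπ hmin (Q := P)
        (ρ := eS.toLinearMap ∘ₗ N.mkQ) (eS.surjective.comp (Submodule.mkQ_surjective N))
      have hQ : kdim (A := A) K Q < n := by
        rw [kdim_congr K e, kdim_prod] at hP
        have := kdim_pos (A := A) K E
        omega
      obtain ⟨c, ⟨e'⟩⟩ := ih Q b (i ∘ₗ e.symm.toLinearMap ∘ₗ LinearMap.inr A E Q)
        (LinearMap.snd A E Q ∘ₗ e.toLinearMap ∘ₗ p) (by
          apply LinearMap.ext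
          intro x
          have h1 : p (i (e.symm (0, x))) = e.symm (0, x) := LinearMap.congr_fun hpi _
          simp [h1]) hQ
      exact ⟨1 + c, ⟨e ≪≫ₗ ((LinearEquiv.funUnique (Fin 1) A E).symm.prodCongr e') ≪≫ₗ
        catE A E 1 c⟩⟩
  intro P _ _ _ _ b i p h
  exact main _ P b i p h (Nat.lt_succ_self _)

section loc

variable (K : Type*) [Field K] {A : Type u} [Ring A] [Algebra K A] [FiniteDimensional K A]
variable {E F : Type u} [AddCommGroup E] [Module A E] [AddCommGroup F] [Module A F]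
  [Module.Finite A E] [Module.Finite A F] [Module.Projective A E] [Module.Projective A F]
  [Nontrivial E] [Nontrivial F]

theorem kdim_pow (E : Type u) [AddCommGroup E] [Module A E] [Module.Finite A E] (b : ℕ) :
    kdim (A := A) K (Fin b → E) = b * kdim (A := A) K E := by
  letI : Module K E := Module.compHom E (algebraMap K A)
  haveI := tower_compHom (A := A) K E
  haveI : Module.Finite K E := Module.Finite.trans A E
  rw [kdim_eq K (Fin b → E), kdim_eq K E, Module.finrank_pi_fintype]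
  simp

include K in
/-- Two complementary submodules of a power of `E`. -/
theorem ks_compl (hE : KS A E) {P : Type u} [AddCommGroup P] [Module A P] {b : ℕ}
    (e : P ≃ₗ[A] (Fin b → E)) {P₀ P₁ : Submodule A P} (h : IsCompl P₀ P₁) :
    ∃ b₀ b₁ : ℕ, b₀ + b₁ = b ∧ Nonempty (P₀ ≃ₗ[A] (Fin b₀ → E)) ∧
      Nonempty (P₁ ≃ₗ[A] (Fin b₁ → E)) := by
  haveI : IsNoetherianRing A := noeth_of_fd K
  haveI := projective_pi (A := A) E b
  haveI : Module.Projective A P := Module.Projective.of_equiv e.symm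
  haveI : Module.Finite A P := Module.Finite.equiv e.symm
  have key : ∀ (R R' : Submodule A P), IsCompl R R' → ∃ c, Nonempty (R ≃ₗ[A] (Fin c → E)) := by
    intro R R' hR
    let q : P →ₗ[A] R := R.projectionOnto R' hR
    have hq : q ∘ₗ R.subtype = LinearMap.id := by
      ext x
      simp [q]
    haveI : Module.Projective A R := Module.Projective.of_split R.subtype q hq
    refine hE R b (e.toLinearMap ∘ₗ R.subtype) (q ∘ₗ e.symm.toLinearMap) ?_
    apply LinearMap.ext
    intro x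
    have := LinearMap.congr_fun hq x
    simpa using this
  obtain ⟨b₀, ⟨e₀⟩⟩ := key P₀ P₁ h
  obtain ⟨b₁, ⟨e₁⟩⟩ := key P₁ P₀ h.symm
  refine ⟨b₀, b₁, ?_, ⟨e₀⟩, ⟨e₁⟩⟩
  have h1 := kdim_congr (A := A) K (Submodule.prodEquivOfIsCompl P₀ P₁ h)
  haveI : Module.Finite A P₀ := Module.Finite.equiv e₀.symm
  haveI : Module.Finite A P₁ := Module.Finite.equiv e₁.symm
  rw [kdim_prod, kdim_congr K e₀, kdim_congr K e₁, kdim_congr K e, kdim_pow, kdim_pow,
    kdim_pow, ← add_mul] at h1
  exact Nat.eq_of_mul_eq_mul_right (kdim_pos (A := A) K E) h1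

include K in
theorem local_end (hE : KS A E) (hF : KS A F) {c : ℕ × ℕ} {V W : Type u} [AddCommGroup V]
    [Module A V] [AddCommGroup W] [Module A W] (X : V →ₗ[A] W) {a b : ℕ} (Z : QOb A E F a b)
    (hZ : Rigid Z) (h1 : EZero X Z) (h2 : EZero Z X) (hdt : 0 < dt (a, b) c)
    (hmin : ∀ (a' b' : ℕ) (Z' : QOb A E F a' b'), Rigid Z' → EZero X Z' → EZero Z' X →
      0 < dt (a', b') c → a + b ≤ a' + b')
    (φ : Coker Z →ₗ[A] Coker Z) : Function.Bijective φ ∨ ∃ n, φ ^ n = 0 := by
  haveI : IsNoetherianRing A := noeth_of_fd K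
  haveI : IsArtinianRing A := artin_of_fd K
  haveI : Module.Projective A PUnit.{u+1} := projective_punit
  haveI := projective_pi (A := A) E b
  haveI := projective_pi (A := A) F a
  haveI := projective_pi (A := A) PUnit.{u+1} a
  haveI := projective_pi (A := A) PUnit.{u+1} b
  set P := (Fin a → PUnit.{u+1}) × (Fin b → E) with hP
  set Q := (Fin a → F) × (Fin b → PUnit.{u+1}) with hQ
  let mk : Q →ₗ[A] Coker Z := (LinearMap.range Z).mkQ
  have hmk : Function.Surjective mk := Submodule.mkQ_surjective _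
  obtain ⟨t, ht⟩ := Module.projective_lifting_property mk (φ ∘ₗ mk) hmk
  have hr : ∀ x, t (Z x) ∈ LinearMap.range Z := by
    intro x
    have h3 := LinearMap.congr_fun ht (Z x)
    have h4 : mk (Z x) = 0 := by
      show (LinearMap.range Z).mkQ (Z x) = 0
      rw [Submodule.mkQ_apply, Submodule.Quotient.mk_eq_zero]
      exact ⟨x, rfl⟩
    simp only [LinearMap.comp_apply, h4, map_zero] at h3
    have h5 : (LinearMap.range Z).mkQ (t (Z x)) = 0 := h3
    rwa [Submodule.mkQ_apply, Submodule.Quotient.mk_eq_zero] at h5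
  obtain ⟨s, hs⟩ := Module.projective_lifting_property Z.rangeRestrict
    (LinearMap.codRestrict (LinearMap.range Z) (t ∘ₗ Z) hr) Z.surjective_rangeRestrict
  have hst : ∀ x, Z (s x) = t (Z x) := fun x =>
    congrArg Subtype.val (LinearMap.congr_fun hs x)
  have hpow : ∀ (n : ℕ) (x : P), Z ((s ^ n) x) = (t ^ n) (Z x) := by
    intro n
    induction n with
    | zero => intro x; rfl
    | succ n ih =>
      intro x
      rw [pow_succ', pow_succ', Module.End.mul_apply, Module.End.mul_apply, hst, ih]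
  have hφpow : ∀ (n : ℕ) (x : Q), mk ((t ^ n) x) = (φ ^ n) (mk x) := by
    intro n
    induction n with
    | zero => intro x; rfl
    | succ n ih =>
      intro x
      rw [pow_succ', pow_succ', Module.End.mul_apply, Module.End.mul_apply, ← ih]
      exact LinearMap.congr_fun ht _
  obtain ⟨n, ⟨hn0, hnP⟩, hnQ⟩ := (((Filter.eventually_gt_atTop 0).and
    (LinearMap.eventually_isCompl_ker_pow_range_pow (R := A) s)).and
    (LinearMap.eventually_isCompl_ker_pow_range_pow (R := A) t)).exists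
  obtain ⟨b₀, b₁, hb, ⟨e₀⟩, ⟨e₁⟩⟩ := ks_compl K hE (dropL (A := A) (Fin b → E) a) hnP
  obtain ⟨a₀, a₁, ha, ⟨d₀⟩, ⟨d₁⟩⟩ := ks_compl K hF (dropR (A := A) (Fin a → F) b) hnQ
  -- the two summands
  have r0 : ∀ x ∈ LinearMap.ker (s ^ n), Z x ∈ LinearMap.ker (t ^ n) := by
    intro x hx
    rw [LinearMap.mem_ker] at hx ⊢
    rw [← hpow, hx, map_zero]
  have r1 : ∀ x ∈ LinearMap.range (s ^ n), Z x ∈ LinearMap.range (t ^ n) := by
    rintro _ ⟨x, rfl⟩
    exact ⟨Z x, (hpow n x).symm⟩
  let Z₀ := Z.restrict r0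
  let Z₁ := Z.restrict r1
  have hiso : Iso (Z₀.prodMap Z₁) Z := by
    refine ⟨Submodule.prodEquivOfIsCompl _ _ hnP, Submodule.prodEquivOfIsCompl _ _ hnQ, ?_⟩
    apply LinearMap.ext
    rintro ⟨x, y⟩
    simp [Z₀, Z₁]
  have hD0 : Dom Z Z₀ := (Dom.of_iso hiso.symm).trans (Dom.fst Z₀ Z₁)
  have hD1 : Dom Z Z₁ := (Dom.of_iso hiso.symm).trans (Dom.snd Z₀ Z₁)
  have hZZ : EZero Z Z := hZ
  let Z₀' : QOb A E F a₀ b₀ := (dropR (A := A) (Fin a₀ → F) b₀).symm.toLinearMap ∘ₗ
    d₀.toLinearMap ∘ₗ Z₀ ∘ₗ e₀.symm.toLinearMap ∘ₗ (dropL (A := A) (Fin b₀ → E) a₀).toLinearMap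
  let Z₁' : QOb A E F a₁ b₁ := (dropR (A := A) (Fin a₁ → F) b₁).symm.toLinearMap ∘ₗ
    d₁.toLinearMap ∘ₗ Z₁ ∘ₗ e₁.symm.toLinearMap ∘ₗ (dropL (A := A) (Fin b₁ → E) a₁).toLinearMap
  have i0 : Iso Z₀ Z₀' := by
    refine ⟨e₀ ≪≫ₗ (dropL (A := A) (Fin b₀ → E) a₀).symm,
      d₀ ≪≫ₗ (dropR (A := A) (Fin a₀ → F) b₀).symm, ?_⟩
    apply LinearMap.ext
    intro x
    simp [Z₀']
  have i1 : Iso Z₁ Z₁' := by
    refine ⟨e₁ ≪≫ₗ (dropL (A := A) (Fin b₁ → E) a₁).symm,
      d₁ ≪≫ₗ (dropR (A := A) (Fin a₁ → F) b₁).symm, ?_⟩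
    apply LinearMap.ext
    intro x
    simp [Z₁']
  have D0 : Dom Z Z₀' := hD0.trans (Dom.of_iso i0)
  have D1 : Dom Z Z₁' := hD1.trans (Dom.of_iso i1)
  have hsum : dt (a, b) c = dt (a₀, b₀) c + dt (a₁, b₁) c := by
    rw [← dt_add, Prod.mk_add_mk, ha, hb]
  by_cases hc : 0 < dt (a₀, b₀) c
  · -- nilpotent
    right
    have h3 := hmin a₀ b₀ Z₀' (D0.rigid hZ) (D0.right _ _ X h1) (D0.left _ _ X h2) hc
    have h4 : a₁ = 0 := by omega
    subst h4
    refine ⟨n, ?_⟩
    apply LinearMap.ext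
    intro y
    obtain ⟨x, rfl⟩ := hmk y
    rw [← hφpow]
    have h5 : (t ^ n) x = 0 := by
      haveI : Subsingleton (LinearMap.range (t ^ n)) := d₁.toEquiv.subsingleton
      have := Subsingleton.elim (⟨(t ^ n) x, ⟨x, rfl⟩⟩ : LinearMap.range (t ^ n)) 0
      exact congrArg Subtype.val this
    rw [h5, map_zero]; rfl
  · left
    have hc' : 0 < dt (a₁, b₁) c := by omega
    have h3 := hmin a₁ b₁ Z₁' (D1.rigid hZ) (D1.right _ _ X h1) (D1.left _ _ X h2) hc'
    have h4 : a₀ = 0 := by omega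
    subst h4
    haveI hsub : Subsingleton (LinearMap.ker (t ^ n)) := d₀.toEquiv.subsingleton
    have h5 : LinearMap.ker (t ^ n) = ⊥ := by
      rw [eq_bot_iff]
      intro x hx
      have := Subsingleton.elim (⟨x, hx⟩ : LinearMap.ker (t ^ n)) 0
      exact (Submodule.mem_bot A).2 (congrArg Subtype.val this)
    have h6 : LinearMap.range (t ^ n) = ⊤ := by
      have := hnQ.sup_eq_top
      rwa [h5, bot_sup_eq] at this
    have h7 : Function.Surjective (t ^ n) := LinearMap.range_eq_top.1 h6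
    have h8 : Function.Surjective t := by
      obtain ⟨m, rfl⟩ := Nat.exists_eq_succ_of_ne_zero hn0.ne'
      rw [pow_succ', Module.End.mul_eq_comp] at h7
      exact Function.Surjective.of_comp h7
    have h9 : Function.Surjective φ := by
      intro y
      obtain ⟨x, rfl⟩ := hmk y
      obtain ⟨z, rfl⟩ := h8 x
      exact ⟨mk z, (LinearMap.congr_fun ht z).symm⟩
    exact ⟨IsNoetherian.injective_of_surjective_endomorphism φ h9, h9⟩

end loc

end Pool.Agent.H51.T2
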