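import Pool.Agent.H51.T2.Cls

/-! Monotonicity along a quadrant, and generation by the cokernels of rigid maps to the left. -/

set_option linter.style.haveILetI false
set_option linter.unusedSectionVars false

namespace Pool.Agent.H51.T2

open Module

universe u

/-- Maps `E ^ b → F ^ a`, in the shape of `Ob`. -/
abbrev QOb (A : Type u) [Ring A] (E F : Type u) [AddCommGroup E] [Module A E] [AddCommGroup F]
    [Module A F] (a b : ℕ) : Type u :=
  Ob A PUnit.{u+1} F E PUnit.{u+1} a b

section hom
variable (K : Type*) [Field K] {A : Type u} [Ring A] [Algebra K A]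
variable {E M N N' : Type u} [AddCommGroup E] [Module A E]
  [AddCommGroup M] [Module K M] [Module A M] [IsScalarTower K A M]
  [AddCommGroup N] [Module A N] [AddCommGroup N'] [Module A N']

/-- Precomposition with an isomorphism. -/
def homCongr (e : N ≃ₗ[A] N') : (N' →ₗ[A] M) ≃ₗ[K] (N →ₗ[A] M) where
  toFun := fun k => k ∘ₗ e.toLinearMap
  invFun := fun k => k ∘ₗ e.symm.toLinearMap
  map_add' := fun k k' => by ext x; simp
  map_smul' := fun c k => by ext x; simp
  left_inv := fun k => by ext x; simp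
  right_inv := fun k => by ext x; simp

theorem finrank_pow (b : ℕ) :
    finrank K ((Fin b → E) →ₗ[A] M) = b * finrank K (E →ₗ[A] M) := by
  have e : (Fin b → (E →ₗ[A] M)) ≃ₗ[K] ((Fin b → E) →ₗ[A] M) := LinearMap.lsum A (fun _ => E) K
  rw [← e.finrank_eq]
  by_cases h : Module.Finite K (E →ₗ[A] M)
  · rw [Module.finrank_pi_fintype]; simp
  · rcases b with _ | b
    · rw [zero_mul]; exact finrank_zero_of_subsingleton
    · rw [Module.finrank_of_not_finite h, mul_zero, Module.finrank_of_not_finite]
      intro h'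
      apply h
      exact Module.Finite.of_surjective (LinearMap.proj (R := K) (φ := fun _ : Fin (b+1) =>
        (E →ₗ[A] M)) 0) (Function.surjective_eval 0)

/-- Remove the trivial factor. -/
def dropL (N : Type u) [AddCommGroup N] [Module A N] (a : ℕ) :
    ((Fin a → PUnit.{u+1}) × N) ≃ₗ[A] N where
  toFun := fun x => x.2
  invFun := fun y => (0, y)
  map_add' := fun _ _ => rfl
  map_smul' := fun _ _ => rfl
  left_inv := fun _ => rfl
  right_inv := fun _ => rfl

/-- Remove the trivial factor. -/
def dropR (N : Type u) [AddCommGroup N] [Module A N] (b : ℕ) :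
    (N × (Fin b → PUnit.{u+1})) ≃ₗ[A] N where
  toFun := fun x => x.1
  invFun := fun y => (y, 0)
  map_add' := fun _ _ => rfl
  map_smul' := fun _ _ => rfl
  left_inv := fun _ => rfl
  right_inv := fun _ => rfl

theorem finrank_src (a b : ℕ) :
    finrank K (((Fin a → PUnit.{u+1}) × (Fin b → E)) →ₗ[A] M) = b * finrank K (E →ₗ[A] M) := by
  rw [← finrank_pow K b, (homCongr K (dropL (A := A) (Fin b → E) a)).finrank_eq]

theorem finrank_tgt (a b : ℕ) :
    finrank K (((Fin a → E) × (Fin b → PUnit.{u+1})) →ₗ[A] M) = a * finrank K (E →ₗ[A] M) := by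
  rw [← finrank_pow K a, (homCongr K (dropR (A := A) (Fin a → E) b)).finrank_eq]

end hom

section restrict
variable {A : Type u} [Ring A] {E F : Type u} [AddCommGroup E] [Module A E] [AddCommGroup F]
  [Module A F]

/-- Restriction to fewer copies of `E`. -/
theorem restrict_ob {a b c : ℕ} (f : QOb A E F a (b + c)) : ∃ f' : QOb A E F a b,
    ∀ (M : Type u) [AddCommGroup M] [Module A M], TT f M → TT f' M := by
  let ι : ((Fin a → PUnit.{u+1}) × (Fin b → E)) →ₗ[A]
      ((Fin a → PUnit.{u+1}) × (Fin (b + c) → E)) :=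
    (LinearMap.id).prodMap ((catE A E b c).toLinearMap ∘ₗ LinearMap.inl A _ _)
  let ρ : ((Fin a → PUnit.{u+1}) × (Fin (b + c) → E)) →ₗ[A]
      ((Fin a → PUnit.{u+1}) × (Fin b → E)) :=
    (LinearMap.id).prodMap (LinearMap.fst A _ _ ∘ₗ (catE A E b c).symm.toLinearMap)
  have hρ : ρ ∘ₗ ι = LinearMap.id := by
    apply LinearMap.ext
    intro x
    simp only [ρ, ι, LinearMap.comp_apply, LinearMap.prodMap_apply, LinearMap.id_apply,
      LinearEquiv.coe_coe, LinearEquiv.symm_apply_apply, LinearMap.inl_apply,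
      LinearMap.fst_apply]
  let e : ((Fin a → F) × (Fin (b + c) → PUnit.{u+1})) ≃ₗ[A]
      ((Fin a → F) × (Fin b → PUnit.{u+1})) :=
    (dropR (Fin a → F) (b + c)) ≪≫ₗ (dropR (Fin a → F) b).symm
  refine ⟨e.toLinearMap ∘ₗ f ∘ₗ ι, fun M _ _ hM k => ?_⟩
  obtain ⟨l, hl⟩ := hM (k ∘ₗ ρ)
  refine ⟨l ∘ₗ e.symm.toLinearMap, ?_⟩
  have h1 : k = (k ∘ₗ ρ) ∘ₗ ι := by rw [LinearMap.comp_assoc, hρ, LinearMap.comp_id]
  rw [h1, hl]
  apply LinearMap.ext
  intro x
  simp

theorem restrict_ob' {a b m : ℕ} (h : b ≤ m) (f : QOb A E F a m) : ∃ f' : QOb A E F a b,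
    ∀ (M : Type u) [AddCommGroup M] [Module A M], TT f M → TT f' M := by
  obtain ⟨c, rfl⟩ := Nat.exists_eq_add_of_le h
  exact restrict_ob f

end restrict

section mono

variable (K : Type*) [Field K] [Infinite K] {A : Type u} [Ring A] [Algebra K A]
variable {E F M : Type u}
variable [AddCommGroup E] [Module K E] [Module A E] [IsScalarTower K A E] [FiniteDimensional K E]
variable [AddCommGroup F] [Module K F] [Module A F] [IsScalarTower K A F] [FiniteDimensional K F]
variable [AddCommGroup M] [Module K M] [Module A M] [IsScalarTower K A M] [FiniteDimensional K M]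

include K in
theorem tt_mono {a b a' b' : ℕ} {f : QOb A E F a b} {g : QOb A E F a' b'} (hf : TT f M)
    (hg : Rigid g) (h : a * b' ≤ a' * b) (hb : 0 < b) : TT g M := by
  rcases Nat.eq_zero_or_pos a with rfl | ha
  · -- no maps from `E` to `M`
    have h1 := hf.le K
    rw [finrank_src, finrank_tgt, zero_mul] at h1
    have h2 : finrank K (E →ₗ[A] M) = 0 := by
      rcases Nat.mul_eq_zero.1 (Nat.le_zero.1 h1) with h | h
      · omega
      · exact h
    have h3 : finrank K (((Fin a' → PUnit.{u+1}) × (Fin b' → E)) →ₗ[A] M) = 0 := by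
      rw [finrank_src, h2, mul_zero]
    have : FiniteDimensional K (((Fin a' → PUnit.{u+1}) × (Fin b' → E)) →ₗ[A] M) := finite_hom
    haveI := Module.finrank_zero_iff.1 h3
    intro k
    exact ⟨0, Subsingleton.elim _ _⟩
  · obtain ⟨Z, z1, -, -⟩ := exists_comb ⟨(a, b), f⟩ ⟨(a, b), f⟩ a' 0 (a' * a) (a' * b) (by simp)
    have hZ : TT Z M := z1.tt M hf hf
    obtain ⟨Z', hZ'⟩ := restrict_ob' h Z
    obtain ⟨W, w1, w2, -⟩ := exists_comb ⟨(a', b'), g⟩ ⟨(a', b'), g⟩ a 0 (a' * a) (a * b')
      (by simp [mul_comm])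
    have hW : Rigid W := w1.rigid hg hg hg hg
    exact (w2 ha).tt M ((hZ' M hZ).rigid K hW)

include K in
/-- Cokernels of rigid maps to the left of `X` generate. -/
theorem gen_left [Module.Projective A E] [Module.Projective A F]
    (hEF : ∀ (M : Type u) [AddCommGroup M] [Module A M], (∀ φ : E →ₗ[A] M, φ = 0) →
      (∀ φ : F →ₗ[A] M, φ = 0) → Subsingleton M)
    {a b a' b' : ℕ} {f : QOb A E F a b} {g : QOb A E F a' b'} (hf : TT f M) (hg : Rigid g)
    (h : a * b' < a' * b) : tr A (Coker g) M = ⊤ := by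
  haveI : Module.Projective A PUnit.{u+1} := projective_punit
  haveI := projective_pi (A := A) E b'
  haveI := projective_pi (A := A) E b
  haveI := projective_pi (A := A) F a'
  haveI := projective_pi (A := A) PUnit.{u+1} a'
  haveI := projective_pi (A := A) PUnit.{u+1} a
  haveI := projective_pi (A := A) PUnit.{u+1} b'
  have hb : 0 < b := by
    rcases Nat.eq_zero_or_pos b with rfl | hb
    · omega
    · exact hb
  have ha' : 0 < a' := by
    rcases Nat.eq_zero_or_pos a' with rfl | ha
    · omega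
    · exact ha
  let M' := M ⧸ tr A (Coker g) M
  have h1 : TT f M' := hf.surj (Submodule.mkQ_surjective _)
  have h2 : TT g M' := (tt_mono K hf hg h.le hb).surj (Submodule.mkQ_surjective _)
  have h3 : HH g M' := hh_quot K (EZero.tt hg)
  have h4 := h1.le K
  have h5 := h2.eq K h3
  rw [finrank_src, finrank_tgt] at h4 h5
  set mE := finrank K (E →ₗ[A] M') with hmE
  set mF := finrank K (F →ₗ[A] M') with hmF
  have h6 : mE = 0 := by
    by_contra hne
    have hpos : 0 < mE := Nat.pos_of_ne_zero hne
    have e1 : a' * (b * mE) ≤ a' * (a * mF) := Nat.mul_le_mul_left _ h4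
    have e2 : a * (b' * mE) = a * (a' * mF) := by rw [h5]
    have e3 : a * b' * mE < a' * b * mE := Nat.mul_lt_mul_of_pos_right h hpos
    have e4 : a' * (a * mF) = a * (a' * mF) := by ring
    have e5 : a' * (b * mE) = a' * b * mE := by ring
    have e6 : a * (b' * mE) = a * b' * mE := by ring
    omega
  have h7 : mF = 0 := by
    rw [h6, mul_zero] at h5
    rcases Nat.mul_eq_zero.1 h5.symm with h | h
    · omega
    · exact h
  have i1 : FiniteDimensional K (E →ₗ[A] M') := finite_hom
  have i2 : FiniteDimensional K (F →ₗ[A] M') := finite_hom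
  haveI s1 := Module.finrank_zero_iff.1 h6
  haveI s2 := Module.finrank_zero_iff.1 h7
  have h8 : Subsingleton M' := hEF M' (fun φ => Subsingleton.elim _ _)
    (fun φ => Subsingleton.elim _ _)
  exact Submodule.Quotient.subsingleton_iff.1 h8

end mono

end Pool.Agent.H51.T2
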