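import Mathlib

/-! Polynomial maps from an infinite field to a vector space, and generic ranks on a line. -/

namespace Pool.Agent.H51.T2

open Finset

variable {K : Type*} [Field K]

/-- A polynomial map from the field to a vector space. -/
def PolyMap {V : Type*} [AddCommGroup V] [Module K V] (u : K → V) : Prop :=
  ∃ (n : ℕ) (c : ℕ → V), ∀ t, u t = ∑ i ∈ range n, t ^ i • c i

section basic
variable {V W X : Type*} [AddCommGroup V] [Module K V] [AddCommGroup W] [Module K W]
  [AddCommGroup X] [Module K X]

theorem PolyMap.const (v : V) : PolyMap (fun _ : K => v) :=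
  ⟨1, fun _ => v, fun t => by simp⟩

theorem PolyMap.id : PolyMap (fun t : K => t) :=
  ⟨2, fun i => if i = 1 then 1 else 0, fun t => by simp⟩

theorem PolyMap.linear {u : K → V} (hu : PolyMap u) (L : V →ₗ[K] W) :
    PolyMap (fun t => L (u t)) := by
  obtain ⟨n, c, h⟩ := hu
  refine ⟨n, fun i => L (c i), fun t => ?_⟩
  simp [h, map_sum]

theorem PolyMap.extend {u : K → V} {n : ℕ} {c : ℕ → V}
    (h : ∀ t, u t = ∑ i ∈ range n, t ^ i • c i) {m : ℕ} (hm : n ≤ m) :
    ∀ t, u t = ∑ i ∈ range m, t ^ i • (if i < n then c i else 0) := by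
  intro t
  rw [h t, ← sum_subset (range_subset_range.2 hm)]
  · refine sum_congr rfl fun i hi => ?_
    rw [if_pos (mem_range.1 hi)]
  · intro i _ hi
    rw [if_neg (fun h => hi (mem_range.2 h)), smul_zero]

theorem PolyMap.add {u v : K → V} (hu : PolyMap u) (hv : PolyMap v) :
    PolyMap (fun t => u t + v t) := by
  obtain ⟨n, c, h⟩ := hu
  obtain ⟨m, d, h'⟩ := hv
  refine ⟨max n m, fun i => (if i < n then c i else 0) + (if i < m then d i else 0), fun t => ?_⟩
  simp only [smul_add, sum_add_distrib]
  rw [← PolyMap.extend h (le_max_left n m) t, ← PolyMap.extend h' (le_max_right n m) t]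

theorem PolyMap.sum {ι : Type*} (s : Finset ι) {u : ι → K → V} (hu : ∀ i ∈ s, PolyMap (u i)) :
    PolyMap (fun t => ∑ i ∈ s, u i t) := by
  classical
  induction s using Finset.induction_on with
  | empty => simpa using PolyMap.const (0 : V)
  | insert a s ha ih =>
    simp only [sum_insert ha]
    exact (hu a (mem_insert_self a s)).add (ih fun i hi => hu i (mem_insert_of_mem hi))

theorem PolyMap.pow_smul {u : K → V} (hu : PolyMap u) (k : ℕ) :
    PolyMap (fun t => t ^ k • u t) := by
  obtain ⟨n, c, h⟩ := hu
  refine ⟨n + k, fun i => if k ≤ i then c (i - k) else 0, fun t => ?_⟩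
  show t ^ k • u t = ∑ i ∈ range (n + k), t ^ i • (if k ≤ i then c (i - k) else 0)
  rw [h t, smul_sum, add_comm n k, sum_range_add]
  have h1 : ∑ i ∈ range k, t ^ i • (if k ≤ i then c (i - k) else 0) = 0 := by
    refine sum_eq_zero fun i hi => ?_
    rw [if_neg (not_le.2 (mem_range.1 hi)), smul_zero]
  rw [h1, zero_add]
  refine sum_congr rfl fun i _ => ?_
  simp [pow_add, mul_smul]

theorem PolyMap.bilin {u : K → V} {v : K → W} (hu : PolyMap u) (hv : PolyMap v)
    (B : V →ₗ[K] W →ₗ[K] X) : PolyMap (fun t => B (u t) (v t)) := by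
  obtain ⟨n, c, h⟩ := hu
  have : (fun t => B (u t) (v t)) = fun t => ∑ i ∈ range n, t ^ i • (B (c i)) (v t) := by
    funext t
    rw [h t]
    simp [map_sum, LinearMap.sum_apply]
  rw [this]
  exact PolyMap.sum _ fun i _ => (hv.linear (B (c i))).pow_smul i

theorem PolyMap.smul {a : K → K} {v : K → V} (ha : PolyMap a) (hv : PolyMap v) :
    PolyMap (fun t => a t • v t) :=
  ha.bilin hv (LinearMap.lsmul K V)

theorem PolyMap.mul {a b : K → K} (ha : PolyMap a) (hb : PolyMap b) :
    PolyMap (fun t => a t * b t) := ha.smul hb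

theorem PolyMap.pow {a : K → K} (ha : PolyMap a) (n : ℕ) : PolyMap (fun t => a t ^ n) := by
  induction n with
  | zero => simpa using PolyMap.const (1 : K)
  | succ n ih => simpa [pow_succ] using ih.mul ha

theorem PolyMap.comp {u : K → V} (hu : PolyMap u) {a : K → K} (ha : PolyMap a) :
    PolyMap (fun t => u (a t)) := by
  obtain ⟨n, c, h⟩ := hu
  simp only [h]
  exact PolyMap.sum _ fun i _ => (ha.pow i).smul (PolyMap.const _)

theorem PolyMap.neg {u : K → V} (hu : PolyMap u) : PolyMap (fun t => - u t) := by
  simpa using hu.linear (-LinearMap.id)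

theorem PolyMap.sub {u v : K → V} (hu : PolyMap u) (hv : PolyMap v) :
    PolyMap (fun t => u t - v t) := by
  simpa [sub_eq_add_neg] using hu.add hv.neg

theorem PolyMap.prod {ι : Type*} (s : Finset ι) {u : ι → K → K} (hu : ∀ i ∈ s, PolyMap (u i)) :
    PolyMap (fun t => ∏ i ∈ s, u i t) := by
  classical
  induction s using Finset.induction_on with
  | empty => simpa using PolyMap.const (1 : K)
  | insert a s ha ih =>
    simp only [prod_insert ha]
    exact (hu a (mem_insert_self a s)).mul (ih fun i hi => hu i (mem_insert_of_mem hi))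

theorem PolyMap.det {n : Type*} [Fintype n] [DecidableEq n] {M : K → Matrix n n K}
    (hM : ∀ i j, PolyMap (fun t => M t i j)) : PolyMap (fun t => (M t).det) := by
  simp only [Matrix.det_apply]
  refine PolyMap.sum _ fun σ _ => ?_
  have : (fun t => Equiv.Perm.sign σ • ∏ i, M t (σ i) i)
      = fun t => ((Equiv.Perm.sign σ : ℤ) : K) • ∏ i, M t (σ i) i := by
    funext t
    rw [Units.smul_def, zsmul_eq_mul, smul_eq_mul]
  rw [this]
  exact (PolyMap.const _).smul (PolyMap.prod _ fun i _ => hM _ _)

theorem PolyMap.adjugate {n : Type*} [Fintype n] [DecidableEq n] {M : K → Matrix n n K}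
    (hM : ∀ i j, PolyMap (fun t => M t i j)) (i j : n) :
    PolyMap (fun t => (M t).adjugate i j) := by
  simp only [Matrix.adjugate_apply]
  refine PolyMap.det fun a b => ?_
  by_cases h : a = j
  · subst h
    simpa [Matrix.updateRow_self] using PolyMap.const (K := K) ((Pi.single i (1 : K) : n → K) b)
  · simpa [Matrix.updateRow_ne h] using hM a b

theorem PolyMap.finite_zeros {a : K → K} (ha : PolyMap a) (h0 : a 0 ≠ 0) :
    {t | a t = 0}.Finite := by
  obtain ⟨n, c, h⟩ := ha
  set p : Polynomial K := ∑ i ∈ range n, Polynomial.C (c i) * Polynomial.X ^ i with hp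
  have hev : ∀ t, a t = p.eval t := by
    intro t
    rw [h t, hp, Polynomial.eval_finsetSum]
    refine sum_congr rfl fun i _ => ?_
    rw [Polynomial.eval_mul, Polynomial.eval_C, Polynomial.eval_pow, Polynomial.eval_X,
      smul_eq_mul, mul_comm]
  have hp0 : p ≠ 0 := by
    intro hz
    apply h0
    rw [hev 0, hz, Polynomial.eval_zero]
  refine (Polynomial.finite_setOfPred_isRoot hp0).subset fun t ht => ?_
  simp only [Set.mem_ofPred_eq, Polynomial.IsRoot.def] at ht ⊢
  rw [← hev t, ht]

/-- A polynomial family of endomorphisms which is injective at `0` is bijective at almost all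
points. -/
theorem PolyMap.finite_not_bijective [FiniteDimensional K V] {φ : K → (V →ₗ[K] V)}
    (hφ : PolyMap φ) (h0 : Function.Bijective (φ 0)) :
    {t | ¬ Function.Bijective (φ t)}.Finite := by
  classical
  have hd : PolyMap (fun t => LinearMap.det (φ t)) := by
    set b := Module.finBasis K V
    have : (fun t => LinearMap.det (φ t)) = fun t => (LinearMap.toMatrix b b (φ t)).det := by
      funext t
      rw [LinearMap.det_toMatrix]
    rw [this]
    refine PolyMap.det fun i j => ?_
    have := hφ.linear ((Matrix.entryLinearMap K K i j).comp (LinearMap.toMatrix b b).toLinearMap)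
    simpa using this
  have h0' : LinearMap.det (φ 0) ≠ 0 := by
    have : IsUnit (φ 0) := (Module.End.isUnit_iff _).2 h0
    exact (this.map (LinearMap.det : (V →ₗ[K] V) →* K)).ne_zero
  refine (hd.finite_zeros h0').subset fun t ht => ?_
  simp only [Set.mem_ofPred_eq] at ht ⊢
  by_contra hne
  apply ht
  have : IsUnit (φ t) := (LinearMap.isUnit_iff_isUnit_det _).2 (isUnit_iff_ne_zero.2 hne)
  exact (Module.End.isUnit_iff _).1 this

end basic

end Pool.Agent.H51.T2
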