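import Pool.Agent.H83.T2.S3
import Pool.Agent.H85.T1.RECA
import Pool.Agent.H17.T1.USG
import Pool.Agent.H28.T1.VQB
import Pool.Agent.H78.T1.GRI
import Pool.Agent.H51.T2.TYME

/-!
# T2: RECE, reciprocity from its parts
-/

set_option autoImplicit false
set_option linter.unusedSectionVars false

namespace Pool.T2.RECEaux

open Polynomial Matrix Pool.HYP Pool.TOW Pool.AVS Pool.T1 IsDedekindDomain

open Pool.HYP.One86 (gr_map norm_ne cop_map nsq_mul nsq_map)
open Pool.T1.RECAaux (us_mul us_one nsq_one gr_det_ne two_inv max_iff zmod2_one_or)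

section General

variable {R : Type} [CommRing R] [IsDomain R] {K : Type} [Field K] [Algebra R K]

/-- Near at infinity. -/
theorem near_inf (hLSQ : LSQEStmt) {O : ValuationSubring K} {π : K} (hR : GR R O π)
    (hu : Unif O π) {g h : ℕ} {top : (IsLocalRing.ResidueField O)[X]}
    (hti : Irreducible top) {f : R[X]}
    (htn : top.natDegree = 2 * g + 2) (hf : f ∈ AllE R O π g h) (htop : TopE π g h top f) {α : K[X]}
    (hα : IsCoprime α (fk K f)) (hN : NSq (fk K f) α) :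
    Near (O : Set K) (gr 0 (2 * g + 2) (fk K f) α) (gr 0 (2 * g + 2) (fk K f) 1) := by
  obtain ⟨hfm, hfn, hco⟩ := hf
  have hp0 : π ≠ 0 := hR.pi_ne
  have hfKm : (fk K f).Monic := hfm.map _
  have hfKn : (fk K f).natDegree = 2 * g + 2 := by rw [fk, hfm.natDegree_map, hfn]
  obtain ⟨B, hB⟩ : ∃ B : K[X], B = (fk K f).scaleRoots (π ^ h) := ⟨_, rfl⟩
  have hBn : B.natDegree = 2 * g + 2 := by rw [hB, natDegree_scaleRoots, hfKn]
  have hBc : ∀ i ≤ 2 * g + 2, ∃ x : O, B.coeff i = x ∧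
      IsLocalRing.residue O x = top.coeff i := by
    intro i hi
    have h1 := hco (2 * g + 2 - i) (by omega)
    have h2 := htop (2 * g + 2 - i) (by omega)
    rw [show 2 * g + 2 - (2 * g + 2 - i) = i by omega] at h1 h2
    have h3 : B.coeff i = algebraMap R K (f.coeff i) * π ^ ((2 * g + 2 - i) * h) := by
      rw [hB, coeff_scaleRoots, hfKn, coeff_map, ← pow_mul, mul_comm h]
    have h4 : algebraMap R K (f.coeff i) * π ^ ((2 * g + 2 - i) * h) ∈ O := by
      have h5 : algebraMap R K (f.coeff i) * π ^ (((2 * g + 2 - i) * h : ℕ) : ℤ) ∈ O := h1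
      rwa [zpow_natCast] at h5
    exact ⟨⟨_, h4⟩, h3, h2 ⟨_, h4⟩ rfl⟩
  obtain ⟨A, hAK⟩ : ∃ A : O[X], A.map (algebraMap O K) = B := by
    have h1 : B ∈ lifts (algebraMap O K) := by
      rw [lifts_iff_coeff_lifts]
      intro j
      rcases le_or_gt j (2 * g + 2) with hi | hi
      · obtain ⟨y, hy, -⟩ := hBc j hi
        exact ⟨y, hy.symm⟩
      · rw [coeff_eq_zero_of_natDegree_lt (by omega)]
        exact ⟨0, map_zero _⟩
    exact h1
  have hinj : Function.Injective (algebraMap O K) := IsFractionRing.injective O K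
  have hAn : A.natDegree = 2 * g + 2 := by
    rw [← natDegree_map_eq_of_injective hinj, hAK, hBn]
  have hAr : rd O A = top := by
    ext i
    rw [coeff_map]
    rcases le_or_gt i (2 * g + 2) with hi | hi
    · obtain ⟨y, hy, hy'⟩ := hBc i hi
      have : A.coeff i = y := by
        apply hinj
        rw [← coeff_map, hAK]
        exact hy
      rw [this, hy']
    · rw [coeff_eq_zero_of_natDegree_lt (by omega), map_zero,
        coeff_eq_zero_of_natDegree_lt (by omega)]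
  refine hLSQ K O π hR.two (two_inv hR O) hu ?_ hR.res (g + 1) (fk K f) (π ^ h) A α hfKm
    hfKn (pow_ne_zero _ hp0) (by rw [← hB, ← hAK]) (by rw [hAr]; exact hti) hα hN
  intro x hx
  obtain ⟨n, h1, h2⟩ := hR.val x hx
  exact ⟨n, div_ne_zero hx (zpow_ne_zero _ hp0), h1, h2⟩

end General

section Prime

variable {R : Type} [CommRing R] [IsDedekindDomain R] {K : Type} [Field K] [Algebra R K]
  [IsFractionRing R K]

/-- Near at a prime where `f` is irreducible. -/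
theorem near_prime (hLSQ : LSQEStmt) (hVQB : VQBStmt) {O : ValuationSubring K} {π : K}
    (hR : GR R O π) (P : HeightOneSpectrum R) {g : ℕ} {f ρ : R[X]} (hf : f.Monic)
    (hn : f.natDegree = 2 * g + 2) (hρ : OkP (2 * g + 2) P.asIdeal ρ)
    (hz : Zer P.asIdeal (f - ρ)) {α : K[X]} (hα : IsCoprime α (fk K f))
    (hN : NSq (fk K f) α) :
    Near (RP K P) (gr 0 (2 * g + 2) (fk K f) α) (gr 0 (2 * g + 2) (fk K f) 1) := by
  obtain ⟨ϖ, hϖ1, hϖ2⟩ := Ideal.exists_mem_pow_notMem_pow_succ P.asIdeal P.ne_bot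
    P.isPrime.ne_top 1
  rw [pow_one] at hϖ1
  obtain ⟨⟨V, hV, hu, hval⟩, hv2, hv3⟩ := hVQB R K P ϖ hϖ1 hϖ2
  have hmem : ∀ x : K, x ∈ V ↔ x ∈ RP K P := by
    intro x
    rw [← hV]
    rfl
  have hRV : ∀ a : R, algebraMap R K a ∈ V := by
    intro a
    rw [hmem]
    exact ⟨1, fun h => P.isPrime.ne_top ((Ideal.eq_top_iff_one _).2 h), a, by
      rw [map_one, one_mul]⟩
  let φ : R →+* V := (algebraMap R K).codRestrict V.toSubring hRV
  have hφ : ∀ a, ((φ a : V) : K) = algebraMap R K a := fun a => rfl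
  let ψ : R →+* IsLocalRing.ResidueField V := (IsLocalRing.residue V).comp φ
  have hψ0 : ∀ a, ψ a = 0 ↔ a ∈ P.asIdeal := by
    intro a
    rw [RingHom.comp_apply, IsLocalRing.residue_eq_zero_iff, max_iff hu, hφ, hmem]
    exact hv2 a
  have hψs : Function.Surjective ψ := by
    intro y
    obtain ⟨x, rfl⟩ := IsLocalRing.residue_surjective y
    obtain ⟨a, ha⟩ := hv3 x ((hmem _).1 x.2)
    refine ⟨a, ?_⟩
    symm
    rw [← sub_eq_zero, RingHom.comp_apply, ← map_sub, IsLocalRing.residue_eq_zero_iff,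
      max_iff hu, hmem]
    exact ha
  let e : R ⧸ P.asIdeal →+* IsLocalRing.ResidueField V :=
    Ideal.Quotient.lift P.asIdeal ψ fun a ha => (hψ0 a).2 ha
  have he : e.comp (Ideal.Quotient.mk P.asIdeal) = ψ := Ideal.Quotient.lift_comp_mk _ _ _
  have hei : Function.Injective e := by
    rw [injective_iff_map_eq_zero]
    intro y hy
    obtain ⟨a, rfl⟩ := Ideal.Quotient.mk_surjective y
    rw [← RingHom.comp_apply, he, hψ0] at hy
    exact Ideal.Quotient.eq_zero_iff_mem.2 hy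
  have hes : Function.Surjective e := by
    intro y
    obtain ⟨a, rfl⟩ := hψs y
    exact ⟨Ideal.Quotient.mk _ a, by rw [← RingHom.comp_apply, he]⟩
  have hfin : Finite (IsLocalRing.ResidueField V) := by
    have := hR.fin P.asIdeal P.ne_bot
    exact Finite.of_surjective e hes
  have hfK : (fk K f).scaleRoots 1 = oL V (f.map φ) := by
    rw [scaleRoots_one, oL, Polynomial.map_map]
    rfl
  have hirr : Irreducible (rd V (f.map φ)) := by
    have h1 : rd V (f.map φ) = (md P.asIdeal ρ).map e := by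
      rw [rd, md, Polynomial.map_map, Polynomial.map_map, he]
      ext n
      rw [coeff_map, coeff_map]
      have h2 := hz n
      rw [coeff_sub, ← hψ0, map_sub, sub_eq_zero] at h2
      exact h2
    rw [h1]
    have h3 := (MulEquiv.irreducible_iff (Polynomial.mapEquiv (RingEquiv.ofBijective e
      ⟨hei, hes⟩))).2 hρ.2.2
    exact h3
  have hmain := hLSQ K V (algebraMap R K ϖ) hR.two (two_inv hR V) hu hval hfin (g + 1)
    (fk K f) 1 (f.map φ) α (hf.map _) (by rw [fk, hf.natDegree_map, hn]; rfl) one_ne_zero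
    hfK hirr hα hN
  rwa [hV] at hmain

/-- The valuation ring at a prime. -/
theorem exists_v (hVQB : VQBStmt) (P : HeightOneSpectrum R) :
    ∃ V : ValuationSubring K, (V : Set K) = RP K P ∧ ∃ ϖ : K, Unif V ϖ := by
  obtain ⟨ϖ, hϖ1, hϖ2⟩ := Ideal.exists_mem_pow_notMem_pow_succ P.asIdeal P.ne_bot
    P.isPrime.ne_top 1
  rw [pow_one] at hϖ1
  obtain ⟨⟨V, hV, hu, hval⟩, hv2, hv3⟩ := hVQB R K P ϖ hϖ1 hϖ2
  exact ⟨V, hV, _, hu⟩

end Prime

section Main

variable {F : Type} [Field F] {K : Type} [Field K] [Algebra (RatFunc F) K]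
  [FiniteDimensional (RatFunc F) K] [Algebra.IsSeparable (RatFunc F) K]

/-- The sum formula for one class. -/
theorem one_class (hUSG : USGStmt) (hLSQ : LSQEStmt) (hNSD : NSDEStmt) (hQSL : QSLEStmt)
    (hQSK : QSKEStmt) (hVQB : VQBStmt) {O : ValuationSubring K} {π : K} (hu : Unif O π) (hR : GR (RR F K) O π)
    {Ram : Finset (HeightOneSpectrum (RR F K))}
    (hRam : ∀ (g : ℕ)
      (T : Finset (HeightOneSpectrum (RR F K))) (ϖ : HeightOneSpectrum (RR F K) → RR F K)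
      (d : HeightOneSpectrum (RR F K) → K), Disjoint T Ram →
      (∀ P ∈ T, ϖ P ∈ P.asIdeal ∧ ϖ P ∉ P.asIdeal ^ 2) →
      ∀ A B : Matrix (Fin (2 * g + 2)) (Fin (2 * g + 2)) K, Aᵀ = A → Bᵀ = B → A.det ≠ 0 →
      B.det ≠ 0 → Near (O : Set K) A B → (∀ P ∈ Ram, Near (RP K P) A B) →
      (∀ P : HeightOneSpectrum (RR F K), SD (RP K P) B) →
      (∀ P : HeightOneSpectrum (RR F K), P ∉ T → SD (RP K P) A) →
      (∀ P ∈ T, ∃ k : Matrix (Fin (2 * g + 2)) (Fin (2 * g + 2)) K, k.det ≠ 0 ∧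
        BlkE (RP K P) (ϖ P : K) (kᵀ * A * k) ∧ d P = dscE (ϖ P : K) (kᵀ * A * k)) →
      Even {P | P ∈ T ∧ ¬ SqQ (RP K P) (ϖ P : K) ((-1) ^ g * d P)}.ncard)
    {g : ℕ} {D : DatE (RR F K) O} {h : ℕ} (hg : 1 ≤ g) (hD : D.Ok g) (hRT : Ram ⊆ D.T')
    {f : (RR F K)[X]} (hf : f ∈ FamE π g D h)
    {ϖ : HeightOneSpectrum (RR F K) → RR F K} {L : HeightOneSpectrum (RR F K) → Type}
    [∀ P, Field (L P)] {O' : ∀ P, ValuationSubring (L P)} {ι : ∀ P, K →+* L P}
    (hC : ∀ P ∈ D.T, CompP P (ϖ P) (L P) (O' P) (ι P))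
    {c c' : ∀ P, O' P} {γ : ∀ P, (O' P)[X]}
    (hcγ : ∀ P ∈ D.T, OkE (O' P) g (c P) (c' P) (γ P) ∧
      (fk K f).map (ι P) = oL (O' P) (qf (c P) (c' P) (γ P)))
    {δ : K[X]} {z : HeightOneSpectrum (RR F K) → Ty} (hδ1 : IsCoprime δ (fk K f))
    (hδ2 : NSq (fk K f) δ) (hδ3 : ∀ P : HeightOneSpectrum (RR F K), P ∉ D.T → P ∉ D.T' →
      US P.asIdeal f δ)
    (hδ4 : ∀ P ∈ D.T, EvC (O' P) (ι P (algebraMap (RR F K) K (ϖ P))) (c P) (δ.map (ι P)))
    (hz : ∀ P ∈ D.T, TyE (O' P) (ι P (algebraMap (RR F K) K (ϖ P))) (c P) (c' P) (γ P)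
      (z P)
      (δ.map (ι P))) :
    ∑ P ∈ D.T, (z P).1 * (z P).2 = 0 := by
  classical
  obtain ⟨hf1, hf2, hf3, hf4⟩ := hf
  obtain ⟨hdis, hT, hT', htm, htn, hti⟩ := hD
  have hfm := hf1.1
  have hfn := hf1.2.1
  have hfKm : (fk K f).Monic := hfm.map _
  have hfKn : (fk K f).natDegree = 2 * g + 2 := by rw [fk, hfm.natDegree_map, hfn]
  obtain ⟨A, hA⟩ : ∃ A, A = gr 0 (2 * g + 2) (fk K f) δ := ⟨_, rfl⟩
  obtain ⟨B, hB⟩ : ∃ B, B = gr 0 (2 * g + 2) (fk K f) 1 := ⟨_, rfl⟩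
  have hAs : Aᵀ = A := by rw [hA]; exact One86.gr_symm _ _ _ _
  have hBs : Bᵀ = B := by rw [hB]; exact One86.gr_symm _ _ _ _
  have hA0 : A.det ≠ 0 := by rw [hA]; exact gr_det_ne hfKm hfKn hδ1
  have hB0 : B.det ≠ 0 := by rw [hB]; exact gr_det_ne hfKm hfKn isCoprime_one_left
  have hAmap : ∀ P ∈ D.T, A.map (ι P) =
      gr 0 (2 * g + 2) (oL (O' P) (qf (c P) (c' P) (γ P))) (δ.map (ι P)) := by
    intro P hP
    rw [← (hcγ P hP).2, gr_map (ι P) 0 (2 * g + 2) hfKm, hA]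
  have hcop : ∀ P ∈ D.T, IsCoprime (δ.map (ι P)) (oL (O' P) (qf (c P) (c' P) (γ P))) := by
    intro P hP
    rw [← (hcγ P hP).2]
    exact cop_map (ι P) hδ1
  have hnsq : ∀ P ∈ D.T, NSq (oL (O' P) (qf (c P) (c' P) (γ P))) (δ.map (ι P)) := by
    intro P hP
    rw [← (hcγ P hP).2]
    exact nsq_map (ι P) hfKm hδ2
  have hqsl := fun P (hP : P ∈ D.T) => hQSL (L P) (O' P)
    (ι P (algebraMap (RR F K) K (ϖ P))) (hC P hP).loc g (c P) (c' P) (γ P) hg
    (hcγ P hP).1 (δ.map (ι P)) (z P) (hcop P hP) (hnsq P hP) (hδ4 P hP) (hz P hP)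
  have hqsk := fun P (hP : P ∈ D.T) => hQSK (RR F K) K P (ϖ P) (L P) (O' P) (ι P) (hC P hP)
  have hk : ∀ P : HeightOneSpectrum (RR F K),
      ∃ k : Matrix (Fin (2 * g + 2)) (Fin (2 * g + 2)) K, P ∈ D.T → (z P).1 = 1 →
        k.det ≠ 0 ∧ BlkE (RP K P) (algebraMap (RR F K) K (ϖ P)) (kᵀ * A * k) ∧
        (SqQ (RP K P) (algebraMap (RR F K) K (ϖ P)) ((-1) ^ g *
          dscE (algebraMap (RR F K) K (ϖ P)) (kᵀ * A * k)) ↔ (z P).2 = 0) := by
    intro P
    by_cases hP : P ∈ D.T ∧ (z P).1 = 1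
    · obtain ⟨k, hk0, hk1, hk2⟩ := (hqsl P hP.1).2 hP.2
      rw [← hAmap P hP.1] at hk1 hk2
      obtain ⟨k', h1, h2, h3⟩ := ((hqsk P hP.1).2.2 g A hAs).2 k hk0 hk1
      exact ⟨k', fun _ _ => ⟨h1, h2, h3.trans hk2⟩⟩
    · exact ⟨1, fun h1 h2 => absurd ⟨h1, h2⟩ hP⟩
  choose k hk using hk
  have hev := hRam g (D.T.filter fun P => (z P).1 = 1) ϖ
    (fun P => dscE (algebraMap (RR F K) K (ϖ P)) ((k P)ᵀ * A * k P)) ?_ ?_ A B hAs hBs hA0 hB0
    ?_ ?_ ?_ ?_ ?_
  · have h1 : {P | P ∈ (D.T.filter fun P => (z P).1 = 1) ∧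
        ¬ SqQ (RP K P) ((ϖ P : RR F K) : K) ((-1) ^ g *
          dscE (algebraMap (RR F K) K (ϖ P)) ((k P)ᵀ * A * k P))} =
        ((D.T.filter fun P => (z P).1 = 1 ∧ (z P).2 = 1 :
          Finset (HeightOneSpectrum (RR F K))) : Set (HeightOneSpectrum (RR F K))) := by
      ext P
      simp only [Set.mem_ofPred_eq, Finset.mem_filter, Finset.mem_coe]
      constructor
      · rintro ⟨⟨h1, h2⟩, h3⟩
        refine ⟨h1, h2, ?_⟩
        rcases zmod2_one_or (z P).2 with h4 | h4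
        · exact absurd ((hk P h1 h2).2.2.2 h4) h3
        · exact h4
      · rintro ⟨h1, h2, h3⟩
        refine ⟨⟨h1, h2⟩, fun h4 => ?_⟩
        have h5 := (hk P h1 h2).2.2.1 h4
        rw [h3] at h5
        exact one_ne_zero h5
    rw [h1, Set.ncard_coe_finset] at hev
    have h2 : ∑ P ∈ D.T, (z P).1 * (z P).2 =
        ((D.T.filter fun P => (z P).1 = 1 ∧ (z P).2 = 1).card : ZMod 2) := by
      rw [Finset.card_filter, Nat.cast_sum]
      refine Finset.sum_congr rfl fun P _ => ?_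
      rcases zmod2_one_or (z P).1 with h3 | h3 <;> rcases zmod2_one_or (z P).2 with h4 | h4 <;>
        simp [h3, h4]
    rw [h2]
    exact (ZMod.natCast_eq_zero_iff_even).2 hev
  · exact (hdis.mono_left (Finset.filter_subset _ _)).mono_right hRT
  · intro P hP
    have h1 := hqsk P (Finset.mem_filter.1 hP).1
    exact ⟨h1.1, h1.2.1⟩
  · rw [hA, hB]
    exact near_inf hLSQ hR hu hti htn hf1 hf2 hδ1 hδ2
  · intro P hP
    rw [hA, hB]
    exact near_prime hLSQ hVQB hR P hfm hfn (hT' P (hRT hP)) (hf4 P (hRT hP)) hδ1 hδ2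
  · intro P
    rw [hB]
    exact hUSG (RR F K) K P (2 * g + 2) f 1 hfm hfn isCoprime_one_left us_one
  · intro P hP
    rw [Finset.mem_filter, not_and] at hP
    by_cases hPT : P ∈ D.T
    · have h1 : (z P).1 = 0 := by
        rcases zmod2_one_or (z P).1 with h2 | h2
        · exact h2
        · exact absurd h2 (hP hPT)
      have h2 := (hqsl P hPT).1 h1
      rw [← hAmap P hPT] at h2
      exact ((hqsk P hPT).2.2 g A hAs).1 h2
    · by_cases hPT' : P ∈ D.T'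
      · obtain ⟨V, hV, hu'⟩ := exists_v (K := K) hVQB P
        have h1 := near_prime hLSQ hVQB hR P hfm hfn (hT' P hPT') (hf4 P hPT') hδ1 hδ2
        rw [← hA, ← hV] at h1
        have h2 := hUSG (RR F K) K P (2 * g + 2) f 1 hfm hfn isCoprime_one_left us_one
        rw [← hV] at h2 ⊢
        obtain ⟨ϖ', hu''⟩ := hu'
        exact hNSD K V ϖ' hu'' (2 * g + 2) A _ h1 h2
      · rw [hA]
        exact hUSG (RR F K) K P (2 * g + 2) f δ hfm hfn hδ1 (hδ3 P hPT hPT')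
  · intro P hP
    obtain ⟨h1, h2⟩ := Finset.mem_filter.1 hP
    exact ⟨k P, (hk P h1 h2).1, (hk P h1 h2).2.1, rfl⟩

end Main

end Pool.T2.RECEaux

namespace Pool.T2

open Polynomial Matrix Pool.HYP Pool.TOW Pool.AVS Pool.T1 IsDedekindDomain Pool.T2.RECEaux

open Pool.HYP.One86 (gr_map norm_ne cop_map nsq_mul nsq_map)
open Pool.T1.RECAaux (us_mul)

/-- **RECE.** -/
theorem rece (hRCPE : RCPEStmt) (hLSQE : LSQEStmt) (hNSDE : NSDEStmt) (hQSLE : QSLEStmt)
    (hQSKE : QSKEStmt) : RECEStmt := by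
  intro F _ _ h2 K _ _ _ _ O hO π hπ
  obtain ⟨Ram, hRam⟩ := hRCPE F h2 K O hO
  refine ⟨Ram, ?_⟩
  intro g D h hg hD hRT f hf ϖ L _ O' ι hC c c' γ hcγ α β x y hδ hx hy
  have hR := ((gri F h2 K O hO).2 π hπ).1
  have hfKm : (fk K f).Monic := hf.1.1.map _
  obtain ⟨hα1, hα2, hα3, hα4⟩ := hδ α (by simp)
  obtain ⟨hβ1, hβ2, hβ3, hβ4⟩ := hδ β (by simp)
  have e1 := one_class usg hLSQE hNSDE hQSLE hQSKE vqb hπ hR hRam hg hD hRT hf hC hcγ hα1 hα2
    hα3 hα4 hx
  have e2 := one_class usg hLSQE hNSDE hQSLE hQSKE vqb hπ hR hRam hg hD hRT hf hC hcγ hβ1 hβ2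
    hβ3 hβ4 hy
  have e3 := one_class usg hLSQE hNSDE hQSLE hQSKE vqb hπ hR hRam hg hD hRT hf hC hcγ
    (δ := α * β) (z := fun P => x P + y P) (hα1.mul_left hβ1) (nsq_mul hα2 hβ2)
    (fun P hP hP' => us_mul (hα3 P hP hP') (hβ3 P hP hP')) (by
      intro P hP
      obtain ⟨m, hm⟩ := hα4 P hP
      obtain ⟨l, hl⟩ := hβ4 P hP
      refine ⟨m + l, ?_⟩
      have h0 := (hC P hP).loc.pi_ne
      have h5 := H51.ui_mul hm hl
      rw [Polynomial.map_mul, eval_mul, mul_add, zpow_add₀ h0, mul_div_mul_comm]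
      exact h5) (by
      intro P hP
      rw [Polynomial.map_mul]
      refine tyme (L P) (O' P) (ι P (algebraMap (RR F K) K (ϖ P))) (hC P hP).loc g (c P) (c' P)
        (γ P) hg (hcγ P hP).1 (α.map (ι P)) (β.map (ι P)) (x P) (y P) ?_ ?_ ?_ ?_ (hx P hP)
        (hy P hP)
      · rw [← (hcγ P hP).2]
        exact cop_map (ι P) hα1
      · rw [← (hcγ P hP).2]
        exact cop_map (ι P) hβ1
      · rw [← (hcγ P hP).2]
        exact nsq_map (ι P) hfKm hα2
      · rw [← (hcγ P hP).2]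
        exact nsq_map (ι P) hfKm hβ2)
  have e4 : ∑ P ∈ D.T, ((x P).1 * (y P).2 + (x P).2 * (y P).1) =
      ∑ P ∈ D.T, (x P + y P).1 * (x P + y P).2 - ∑ P ∈ D.T, (x P).1 * (x P).2 -
        ∑ P ∈ D.T, (y P).1 * (y P).2 := by
    rw [← Finset.sum_sub_distrib, ← Finset.sum_sub_distrib]
    refine Finset.sum_congr rfl fun P _ => ?_
    rw [Prod.fst_add, Prod.snd_add]
    ring
  rw [e4, e1, e2, e3, sub_zero, sub_zero]

end Pool.T2
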