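import Pool.Agent.H51.T2.Poly

/-! Semicontinuity of ranks on a line, and lifting of kernel elements. -/

namespace Pool.Agent.H51.T2

open Finset Module

variable {K : Type*} [Field K]
variable {V W : Type*} [AddCommGroup V] [Module K V] [AddCommGroup W] [Module K W]

theorem PolyMap.matrix {n : Type*} [Fintype n] [DecidableEq n] {M : K → Matrix n n K}
    (hM : ∀ i j, PolyMap (fun t => M t i j)) : PolyMap M := by
  have : M = fun t => ∑ i, ∑ j, M t i j • Matrix.single i j (1 : K) := by
    funext t
    conv_lhs => rw [Matrix.matrix_eq_sum_single (M t)]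
    refine sum_congr rfl fun i _ => sum_congr rfl fun j _ => ?_
    rw [Matrix.smul_single, smul_eq_mul, mul_one]
  rw [this]
  exact PolyMap.sum _ fun i _ => PolyMap.sum _ fun j _ => (hM i j).smul (PolyMap.const _)

/-- A polynomial family of endomorphisms equal to the identity at `0` has a polynomial adjugate. -/
theorem exists_adj [FiniteDimensional K V] {a : K → (V →ₗ[K] V)} (ha : PolyMap a)
    (h0 : a 0 = LinearMap.id) :
    ∃ (δ : K → K) (b : K → (V →ₗ[K] V)), PolyMap δ ∧ PolyMap b ∧ δ 0 = 1 ∧ b 0 = LinearMap.id ∧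
      ∀ t, (a t) ∘ₗ (b t) = δ t • LinearMap.id := by
  classical
  set β := Module.finBasis K V
  set A : K → Matrix (Fin (finrank K V)) (Fin (finrank K V)) K :=
    fun t => LinearMap.toMatrix β β (a t) with hA
  have hAe : ∀ i j, PolyMap (fun t => A t i j) := by
    intro i j
    have := ha.linear ((Matrix.entryLinearMap K K i j).comp (LinearMap.toMatrix β β).toLinearMap)
    simpa using this
  refine ⟨fun t => (A t).det, fun t => Matrix.toLin β β (A t).adjugate, PolyMap.det hAe, ?_, ?_,
    ?_, ?_⟩
  · have h1 : PolyMap (fun t => (A t).adjugate) := PolyMap.matrix fun i j => PolyMap.adjugate hAe i j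
    exact h1.linear (Matrix.toLin β β).toLinearMap
  · simp [hA, h0]
  · simp [hA, h0]
  · intro t
    have h1 : a t = Matrix.toLin β β (A t) := by simp [hA]
    conv_lhs => rw [h1]
    rw [← Matrix.toLin_mul β β β, Matrix.mul_adjugate, map_smul, Matrix.toLin_one]

section line
variable [FiniteDimensional K V] [FiniteDimensional K W]

omit [FiniteDimensional K W] in
/-- The data used in both statements on a line of linear maps. -/
theorem line_data (D : K → (V →ₗ[K] W)) (hD : PolyMap D) :
    ∃ (p : W →ₗ[K] LinearMap.range (D 0)) (δ : K → K)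
      (u : V → K → V), PolyMap δ ∧ δ 0 = 1 ∧
      (∀ v, PolyMap (u v)) ∧ (∀ v, D 0 v = 0 → u v 0 = v) ∧
      (∀ v t, p (D t (u v t)) = 0) ∧
      (∀ t, δ t ≠ 0 → Function.Surjective (p ∘ₗ D t)) := by
  obtain ⟨s, hs⟩ := LinearMap.exists_rightInverse_of_surjective (D 0).rangeRestrict
    (LinearMap.range_eq_top.2 (D 0).surjective_rangeRestrict)
  obtain ⟨p, hp⟩ := LinearMap.exists_leftInverse_of_injective (LinearMap.range (D 0)).subtype
    (Submodule.ker_subtype _)
  have hpoly : PolyMap (fun t => p ∘ₗ D t ∘ₗ s) :=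
    hD.linear (LinearMap.lcomp K _ s |>.comp LinearMap.id |> fun L =>
      (LinearMap.llcomp K _ _ _ p).comp L)
  have h00 : p ∘ₗ D 0 ∘ₗ s = LinearMap.id := by
    ext x
    have h1 : D 0 (s x) = (LinearMap.range (D 0)).subtype x := by
      have := LinearMap.congr_fun hs x
      have := congrArg Subtype.val this
      simpa using this
    have h2 := LinearMap.congr_fun hp x
    simp only [LinearMap.comp_apply] at h2 ⊢
    rw [h1, h2]
  obtain ⟨δ, b, hδ, hb, hδ0, hb0, hab⟩ := exists_adj hpoly h00
  refine ⟨p, δ, fun v t => δ t • v - s (b t (p (D t v))), hδ, hδ0, ?_, ?_, ?_, ?_⟩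
  · intro v
    have h1 : PolyMap (fun t => D t v) := hD.linear (LinearMap.applyₗ v)
    have h2 : PolyMap (fun t => b t (p (D t v))) :=
      hb.bilin (h1.linear p) (LinearMap.id)
    exact (hδ.smul (PolyMap.const v)).sub (h2.linear s)
  · intro v hv
    simp [hδ0, hv]
  · intro v t
    have h1 := LinearMap.congr_fun (hab t) (p (D t v))
    simp only [LinearMap.comp_apply, LinearMap.smul_apply, LinearMap.id_apply] at h1
    simp only [map_sub, map_smul, h1, sub_self]
  · intro t ht x
    refine ⟨s (b t ((δ t)⁻¹ • x)), ?_⟩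
    have h1 := LinearMap.congr_fun (hab t) ((δ t)⁻¹ • x)
    simp only [LinearMap.comp_apply, LinearMap.smul_apply, LinearMap.id_apply] at h1 ⊢
    rw [h1, smul_inv_smul₀ ht]

/-- The rank of a polynomial family is at least the rank at `0`, outside a finite set. -/
theorem generic_rank (D : K → (V →ₗ[K] W)) (hD : PolyMap D) :
    {t | ¬ finrank K (LinearMap.range (D 0)) ≤ finrank K (LinearMap.range (D t))}.Finite := by
  obtain ⟨p, δ, u, hδ, hδ0, -, -, -, hsurj⟩ := line_data D hD
  refine (hδ.finite_zeros (by rw [hδ0]; exact one_ne_zero)).subset fun t ht => ?_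
  simp only [Set.mem_ofPred_eq] at ht ⊢
  by_contra hne
  apply ht
  have h1 := hsurj t hne
  have h2 : LinearMap.range (p ∘ₗ D t) = ⊤ := LinearMap.range_eq_top.2 h1
  have h3 : finrank K (LinearMap.range (p ∘ₗ D t)) ≤ finrank K (LinearMap.range (D t)) := by
    rw [LinearMap.range_comp]
    exact Submodule.finrank_map_le _ _
  rw [h2, finrank_top] at h3
  exact h3

theorem generic_rank_at (D : K → (V →ₗ[K] W)) (hD : PolyMap D) (t₀ : K) :
    {t | ¬ finrank K (LinearMap.range (D t₀)) ≤ finrank K (LinearMap.range (D t))}.Finite := by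
  have h1 : PolyMap (fun t => D (t + t₀)) := hD.comp (PolyMap.id.add (PolyMap.const t₀))
  have h2 := generic_rank _ h1
  have h3 := h2.image (fun t => t + t₀)
  refine h3.subset fun t ht => ⟨t - t₀, ?_, by ring⟩
  show ¬ (finrank K (LinearMap.range (D (0 + t₀))) ≤
    finrank K (LinearMap.range (D (t - t₀ + t₀))))
  rw [zero_add, sub_add_cancel]
  exact ht

/-- If the rank does not jump at `0`, elements of the kernel at `0` lift to polynomial families of
elements of the kernels. -/
theorem lift_kernel (D : K → (V →ₗ[K] W)) (hD : PolyMap D)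
    (hr : {t | ¬ finrank K (LinearMap.range (D t)) ≤ finrank K (LinearMap.range (D 0))}.Finite)
    {v : V} (hv : D 0 v = 0) :
    ∃ u : K → V, PolyMap u ∧ u 0 = v ∧ {t | D t (u t) ≠ 0}.Finite := by
  obtain ⟨p, δ, u, hδ, hδ0, hu, hu0, hpu, hsurj⟩ := line_data D hD
  refine ⟨u v, hu v, hu0 v hv, ?_⟩
  refine ((hδ.finite_zeros (by rw [hδ0]; exact one_ne_zero)).union hr).subset fun t ht => ?_
  simp only [Set.mem_ofPred_eq, Set.mem_union] at ht ⊢
  by_contra hne
  rw [not_or, not_not] at hne
  obtain ⟨h1, h2⟩ := hne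
  apply ht
  have h3 := hsurj t h1
  -- the restriction of `p` to the range is injective
  set q : LinearMap.range (D t) →ₗ[K] LinearMap.range (D 0) :=
    p ∘ₗ (LinearMap.range (D t)).subtype with hq
  have hqs : Function.Surjective q := by
    intro x
    obtain ⟨y, hy⟩ := h3 x
    exact ⟨⟨D t y, ⟨y, rfl⟩⟩, hy⟩
  have hqi : Function.Injective q := by
    have hfin : finrank K (LinearMap.range (D t)) = finrank K (LinearMap.range (D 0)) :=
      le_antisymm h2 (by
        have := LinearMap.finrank_range_le q
        rwa [LinearMap.range_eq_top.2 hqs, finrank_top] at this)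
    exact (LinearMap.injective_iff_surjective_of_finrank_eq_finrank hfin).2 hqs
  have h4 : q ⟨D t (u v t), ⟨u v t, rfl⟩⟩ = q 0 := by
    rw [map_zero]
    exact hpu v t
  have := hqi h4
  exact congrArg Subtype.val this

end line

end Pool.Agent.H51.T2
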