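import Pool.Agent.H51.T2.Deform

/-! The strict inequality for a rigid deformation of a direct sum of two rigid maps. -/

namespace Pool.Agent.H51.T2

open Module

variable {K : Type*} [Field K] {A : Type*} [Ring A] [Algebra K A]
variable {P₁ Q₁ P₂ Q₂ : Type*}
variable [AddCommGroup P₁] [Module K P₁] [Module A P₁] [IsScalarTower K A P₁]
variable [AddCommGroup Q₁] [Module K Q₁] [Module A Q₁] [IsScalarTower K A Q₁]
variable [AddCommGroup P₂] [Module K P₂] [Module A P₂] [IsScalarTower K A P₂]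
variable [AddCommGroup Q₂] [Module K Q₂] [Module A Q₂] [IsScalarTower K A Q₂]
variable [FiniteDimensional K P₁] [FiniteDimensional K Q₁]
variable [FiniteDimensional K P₂] [FiniteDimensional K Q₂]

theorem ee_prod_le_right {f : P₁ →ₗ[A] Q₁} (hf : Rigid f) (g : P₂ →ₗ[A] Q₂) :
    ee K f (f.prodMap g) ≤ ee K f g := by
  have : FiniteDimensional K (P₁ →ₗ[A] Q₂) := finite_hom
  let L : (P₁ →ₗ[A] Q₂) →ₗ[K] (P₁ →ₗ[A] (Q₁ × Q₂)) :=
    compB K P₁ Q₂ (Q₁ × Q₂) (LinearMap.inr A Q₁ Q₂)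
  have hL : LinearMap.range (dd K f g) ≤ (LinearMap.range (dd K f (f.prodMap g))).comap L := by
    rintro _ ⟨x, rfl⟩
    refine ⟨(LinearMap.inr A P₁ P₂ ∘ₗ x.1, LinearMap.inr A Q₁ Q₂ ∘ₗ x.2), ?_⟩
    simp only [L, compB_apply, dd_apply]
    ext y <;> simp
  refine LinearMap.finrank_le_finrank_of_surjective (f := Submodule.mapQ _ _ L hL) ?_
  intro z
  obtain ⟨k, rfl⟩ := Submodule.Quotient.mk_surjective _ z
  obtain ⟨s, t, hst⟩ := hf (LinearMap.fst A Q₁ Q₂ ∘ₗ k)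
  refine ⟨Submodule.Quotient.mk (LinearMap.snd A Q₁ Q₂ ∘ₗ k), ?_⟩
  rw [Submodule.mapQ_apply, Submodule.Quotient.eq]
  refine ⟨(-(LinearMap.inl A P₁ P₂ ∘ₗ s), -(LinearMap.inl A Q₁ Q₂ ∘ₗ t)), ?_⟩
  rw [dd_apply]
  ext y
  · have := LinearMap.congr_fun hst y
    simp only [LinearMap.comp_apply, LinearMap.fst_apply, LinearMap.sub_apply] at this
    simp [L, this]
    abel
  · simp [L]

theorem ee_prod_le_left {f : P₁ →ₗ[A] Q₁} (hf : Rigid f) (g : P₂ →ₗ[A] Q₂) :
    ee K (f.prodMap g) f ≤ ee K g f := by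
  have : FiniteDimensional K (P₂ →ₗ[A] Q₁) := finite_hom
  let L : (P₂ →ₗ[A] Q₁) →ₗ[K] ((P₁ × P₂) →ₗ[A] Q₁) :=
    (compB K (P₁ × P₂) P₂ Q₁).flip (LinearMap.snd A P₁ P₂)
  have hL : LinearMap.range (dd K g f) ≤ (LinearMap.range (dd K (f.prodMap g) f)).comap L := by
    rintro _ ⟨x, rfl⟩
    refine ⟨(x.1 ∘ₗ LinearMap.snd A P₁ P₂, x.2 ∘ₗ LinearMap.snd A Q₁ Q₂), ?_⟩
    simp only [L, LinearMap.flip_apply, compB_apply, dd_apply]
    ext y <;> simp
  refine LinearMap.finrank_le_finrank_of_surjective (f := Submodule.mapQ _ _ L hL) ?_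
  intro z
  obtain ⟨k, rfl⟩ := Submodule.Quotient.mk_surjective _ z
  obtain ⟨s, t, hst⟩ := hf (k ∘ₗ LinearMap.inl A P₁ P₂)
  refine ⟨Submodule.Quotient.mk (k ∘ₗ LinearMap.inr A P₁ P₂), ?_⟩
  rw [Submodule.mapQ_apply, Submodule.Quotient.eq]
  refine ⟨(-(s ∘ₗ LinearMap.fst A P₁ P₂), -(t ∘ₗ LinearMap.fst A Q₁ Q₂)), ?_⟩
  rw [dd_apply]
  ext y
  · have := LinearMap.congr_fun hst y
    simp only [LinearMap.comp_apply, LinearMap.inl_apply, LinearMap.sub_apply] at this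
    have h0 : k (0, 0) = 0 := map_zero k
    simp [L, this, h0]
    abel
  · simp [L]

/-- Splitting off a summand. -/
theorem split_off {f : P₁ →ₗ[A] Q₁} {m : (P₁ × P₂) →ₗ[A] (Q₁ × Q₂)}
    (K : Type*) [Field K] [Algebra K A]
    [Module K P₁] [IsScalarTower K A P₁] [Module K Q₁] [IsScalarTower K A Q₁]
    [Module K P₂] [IsScalarTower K A P₂] [Module K Q₂] [IsScalarTower K A Q₂]
    [FiniteDimensional K P₁] [FiniteDimensional K Q₁]
    [FiniteDimensional K P₂] [FiniteDimensional K Q₂]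
    {i : P₁ →ₗ[A] (P₁ × P₂)} {j : Q₁ →ₗ[A] (Q₁ × Q₂)}
    {p : (P₁ × P₂) →ₗ[A] P₁} {q : (Q₁ × Q₂) →ₗ[A] Q₁}
    (h1 : m ∘ₗ i = j ∘ₗ f) (h2 : f ∘ₗ p = q ∘ₗ m)
    (hpi : Function.Bijective (p ∘ₗ i)) (hqj : Function.Bijective (q ∘ₗ j))
    (hp : Function.Bijective (p.prod (LinearMap.snd A P₁ P₂)))
    (hq : Function.Bijective (q.prod (LinearMap.snd A Q₁ Q₂))) :
    ∃ g' : P₂ →ₗ[A] Q₂, Iso (f.prodMap g') m := by
  let ep := LinearEquiv.ofBijective _ hp
  let eq := LinearEquiv.ofBijective _ hq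
  let κ : P₂ →ₗ[A] (P₁ × P₂) := ep.symm.toLinearMap ∘ₗ LinearMap.inr A P₁ P₂
  let ν : Q₂ →ₗ[A] (Q₁ × Q₂) := eq.symm.toLinearMap ∘ₗ LinearMap.inr A Q₁ Q₂
  have hκ : ∀ y, p (κ y) = 0 ∧ (κ y).2 = y := by
    intro y
    have h := LinearEquiv.apply_symm_apply ep ((0 : P₁), y)
    have h' : (p (κ y), (κ y).2) = ((0 : P₁), y) := h
    exact ⟨congrArg Prod.fst h', congrArg Prod.snd h'⟩
  have hν : ∀ z : Q₁ × Q₂, q z = 0 → z = ν z.2 := by
    intro z hz
    apply eq.injective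
    have h : eq (ν z.2) = ((0 : Q₁), z.2) := LinearEquiv.apply_symm_apply eq _
    rw [h]
    exact Prod.ext hz rfl
  have hν0 : ∀ y, q (ν y) = 0 := by
    intro y
    have h := LinearEquiv.apply_symm_apply eq ((0 : Q₁), y)
    exact congrArg Prod.fst h
  have hν1 : ∀ y, (ν y).2 = y := by
    intro y
    have h := LinearEquiv.apply_symm_apply eq ((0 : Q₁), y)
    exact congrArg Prod.snd h
  let g' : P₂ →ₗ[A] Q₂ := LinearMap.snd A Q₁ Q₂ ∘ₗ m ∘ₗ κ
  have hα : Function.Injective (i.coprod κ) := by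
    rw [← LinearMap.ker_eq_bot, LinearMap.ker_eq_bot']
    rintro ⟨x, y⟩ hxy
    have h3 : i x + κ y = 0 := by simpa using hxy
    have h4 : p (i x) = 0 := by
      have := congrArg p h3
      simpa [(hκ y).1] using this
    have hx : x = 0 := hpi.1 (by simpa using h4)
    have hy : y = 0 := by
      rw [hx, map_zero, zero_add] at h3
      have := (hκ y).2
      rw [h3] at this
      exact this.symm
    rw [hx, hy]; rfl
  have hβ : Function.Injective (j.coprod ν) := by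
    rw [← LinearMap.ker_eq_bot, LinearMap.ker_eq_bot']
    rintro ⟨x, y⟩ hxy
    have h3 : j x + ν y = 0 := by simpa using hxy
    have h4 : q (j x) = 0 := by
      have := congrArg q h3
      simpa [hν0 y] using this
    have hx : x = 0 := hqj.1 (by simpa using h4)
    have hy : y = 0 := by
      rw [hx, map_zero, zero_add] at h3
      have := hν1 y
      rw [h3] at this
      exact this.symm
    rw [hx, hy]; rfl
  have hα' : Function.Bijective (i.coprod κ) :=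
    ⟨hα, (LinearMap.injective_iff_surjective (f := (i.coprod κ).restrictScalars K)).1 hα⟩
  have hβ' : Function.Bijective (j.coprod ν) :=
    ⟨hβ, (LinearMap.injective_iff_surjective (f := (j.coprod ν).restrictScalars K)).1 hβ⟩
  refine ⟨g', LinearEquiv.ofBijective _ hα', LinearEquiv.ofBijective _ hβ', ?_⟩
  refine LinearMap.prod_ext ?_ ?_
  · ext x : 1
    have := LinearMap.congr_fun h1 x
    simpa using this
  · ext y : 1
    have h5 : q (m (κ y)) = 0 := by
      have := LinearMap.congr_fun h2 (κ y)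
      simp only [LinearMap.comp_apply] at this
      rw [← this, (hκ y).1, map_zero]
    have h6 := hν _ h5
    simpa [g'] using h6

variable [Infinite K]

/-- The key inequality. -/
theorem strict {f : P₁ →ₗ[A] Q₁} {g : P₂ →ₗ[A] Q₂} {m : (P₁ × P₂) →ₗ[A] (Q₁ × Q₂)}
    (hf : Rigid f) (hg : Rigid g) (hm : Rigid m) (hN : ¬ (EZero f g ∧ EZero g f)) :
    ee K f m + ee K m f < ee K f g + ee K g f := by
  classical
  have : FiniteDimensional K (P₁ →ₗ[A] (Q₁ × Q₂)) := finite_hom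
  have : FiniteDimensional K ((P₁ × P₂) →ₗ[A] Q₁) := finite_hom
  have : FiniteDimensional K (P₁ →ₗ[A] (P₁ × P₂)) := finite_hom
  have : FiniteDimensional K (Q₁ →ₗ[A] (Q₁ × Q₂)) := finite_hom
  have : FiniteDimensional K ((P₁ × P₂) →ₗ[A] P₁) := finite_hom
  have : FiniteDimensional K ((Q₁ × Q₂) →ₗ[A] Q₁) := finite_hom
  set f₀ : (P₁ × P₂) →ₗ[A] (Q₁ × Q₂) := f.prodMap g with hf₀
  set l : K → ((P₁ × P₂) →ₗ[A] (Q₁ × Q₂)) := fun t => f₀ + t • (m - f₀) with hl
  have hlp : PolyMap l := line_poly f₀ m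
  have hl0 : l 0 = f₀ := by simp [hl]
  have hiso : {t : K | ¬ Iso m (l t)}.Finite := by
    have h := (iso_line (K := K) hm f₀).image (fun t => 1 - t)
    refine h.subset fun t ht => ⟨1 - t, ?_, by ring⟩
    have h6 : m + (1 - t) • (f₀ - m) = l t := line_flip f₀ m t
    simp only [Set.mem_ofPred_eq] at ht ⊢
    rwa [h6]
  set D₁ : K → _ := fun t => dd K f (l t) with hD₁
  set D₂ : K → _ := fun t => dd K (l t) f with hD₂
  have hp₁ : PolyMap D₁ := dd_poly_right hlp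
  have hp₂ : PolyMap D₂ := dd_poly_left hlp
  have hg₁ := generic_rank D₁ hp₁
  have hg₂ := generic_rank D₂ hp₂
  have he₁ : ∀ t, ee K f (l t) + finrank K (LinearMap.range (D₁ t)) =
      finrank K (P₁ →ₗ[A] (Q₁ × Q₂)) := fun t => ee_add_rank f (l t)
  have he₂ : ∀ t, ee K (l t) f + finrank K (LinearMap.range (D₂ t)) =
      finrank K ((P₁ × P₂) →ₗ[A] Q₁) := fun t => ee_add_rank (l t) f
  have hle₁ : ee K f (l 0) ≤ ee K f g := by rw [hl0]; exact ee_prod_le_right hf g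
  have hle₂ : ee K (l 0) f ≤ ee K g f := by rw [hl0]; exact ee_prod_le_left hf g
  have h01 := he₁ 0
  have h02 := he₂ 0
  by_cases hc₁ : ∃ t₀, finrank K (LinearMap.range (D₁ 0)) < finrank K (LinearMap.range (D₁ t₀))
  · obtain ⟨t₀, ht₀⟩ := hc₁
    have hs := generic_rank_at D₁ hp₁ t₀
    obtain ⟨t, ht⟩ := (((hiso.union hs).union hg₂).infinite_compl).nonempty
    simp only [Set.mem_compl_iff, Set.mem_union, Set.mem_ofPred_eq, not_or, not_not] at ht
    obtain ⟨⟨h1, h2⟩, h3⟩ := ht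
    rw [ee_iso (Iso.refl f) h1, ee_iso h1 (Iso.refl f)]
    have h4 := he₁ t
    have h5 := he₂ t
    omega
  by_cases hc₂ : ∃ t₀, finrank K (LinearMap.range (D₂ 0)) < finrank K (LinearMap.range (D₂ t₀))
  · obtain ⟨t₀, ht₀⟩ := hc₂
    have hs := generic_rank_at D₂ hp₂ t₀
    obtain ⟨t, ht⟩ := (((hiso.union hs).union hg₁).infinite_compl).nonempty
    simp only [Set.mem_compl_iff, Set.mem_union, Set.mem_ofPred_eq, not_or, not_not] at ht
    obtain ⟨⟨h1, h2⟩, h3⟩ := ht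
    rw [ee_iso (Iso.refl f) h1, ee_iso h1 (Iso.refl f)]
    have h4 := he₁ t
    have h5 := he₂ t
    omega
  exfalso
  push Not at hc₁ hc₂
  have hr₁ : {t | ¬ finrank K (LinearMap.range (D₁ t)) ≤
      finrank K (LinearMap.range (D₁ 0))}.Finite :=
    Set.finite_empty.subset fun t ht => ht (hc₁ t)
  have hr₂ : {t | ¬ finrank K (LinearMap.range (D₂ t)) ≤
      finrank K (LinearMap.range (D₂ 0))}.Finite :=
    Set.finite_empty.subset fun t ht => ht (hc₂ t)
  have hv₁ : D₁ 0 (LinearMap.inl A P₁ P₂, LinearMap.inl A Q₁ Q₂) = 0 := by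
    simp only [hD₁, hl0, dd_apply, hf₀]
    ext x <;> simp
  have hv₂ : D₂ 0 (LinearMap.fst A P₁ P₂, LinearMap.fst A Q₁ Q₂) = 0 := by
    simp only [hD₂, hl0, dd_apply, hf₀]
    ext x <;> simp
  obtain ⟨u, hu, hu0, hufin⟩ := lift_kernel D₁ hp₁ hr₁ hv₁
  obtain ⟨w, hw, hw0, hwfin⟩ := lift_kernel D₂ hp₂ hr₂ hv₂
  have hu1 : PolyMap (fun t => (u t).1) := hu.linear (LinearMap.fst K _ _)
  have hu2 : PolyMap (fun t => (u t).2) := hu.linear (LinearMap.snd K _ _)
  have hw1 : PolyMap (fun t => (w t).1) := hw.linear (LinearMap.fst K _ _)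
  have hw2 : PolyMap (fun t => (w t).2) := hw.linear (LinearMap.snd K _ _)
  have hpi : PolyMap (fun t => (w t).1 ∘ₗ (u t).1) :=
    hw1.bilin hu1 (compB K P₁ (P₁ × P₂) P₁)
  have hqj : PolyMap (fun t => (w t).2 ∘ₗ (u t).2) :=
    hw2.bilin hu2 (compB K Q₁ (Q₁ × Q₂) Q₁)
  have hprodP : PolyMap (fun t => (w t).1.prod (LinearMap.snd A P₁ P₂)) := by
    have : (fun t => (w t).1.prod (LinearMap.snd A P₁ P₂)) = fun t =>
        (compB K (P₁ × P₂) P₁ (P₁ × P₂) (LinearMap.inl A P₁ P₂)) ((w t).1) +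
          LinearMap.inr A P₁ P₂ ∘ₗ LinearMap.snd A P₁ P₂ := by
      funext t
      rw [compB_apply]
      ext x <;> simp
    rw [this]
    exact (hw1.linear _).add (PolyMap.const _)
  have hprodQ : PolyMap (fun t => (w t).2.prod (LinearMap.snd A Q₁ Q₂)) := by
    have : (fun t => (w t).2.prod (LinearMap.snd A Q₁ Q₂)) = fun t =>
        (compB K (Q₁ × Q₂) Q₁ (Q₁ × Q₂) (LinearMap.inl A Q₁ Q₂)) ((w t).2) +
          LinearMap.inr A Q₁ Q₂ ∘ₗ LinearMap.snd A Q₁ Q₂ := by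
      funext t
      rw [compB_apply]
      ext x <;> simp
    rw [this]
    exact (hw2.linear _).add (PolyMap.const _)
  have b1 := finite_not_bij hpi (by
    rw [hu0, hw0]
    have : LinearMap.fst A P₁ P₂ ∘ₗ LinearMap.inl A P₁ P₂ = LinearMap.id := by ext; simp
    rw [this]; exact Function.bijective_id)
  have b2 := finite_not_bij hqj (by
    rw [hu0, hw0]
    have : LinearMap.fst A Q₁ Q₂ ∘ₗ LinearMap.inl A Q₁ Q₂ = LinearMap.id := by ext; simp
    rw [this]; exact Function.bijective_id)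
  have b3 := finite_not_bij hprodP (by
    rw [hw0]
    have : (LinearMap.fst A P₁ P₂).prod (LinearMap.snd A P₁ P₂) = LinearMap.id := by
      ext <;> simp
    rw [this]; exact Function.bijective_id)
  have b4 := finite_not_bij hprodQ (by
    rw [hw0]
    have : (LinearMap.fst A Q₁ Q₂).prod (LinearMap.snd A Q₁ Q₂) = LinearMap.id := by
      ext <;> simp
    rw [this]; exact Function.bijective_id)
  obtain ⟨t, ht⟩ := (((((((hiso.union hufin).union hwfin).union b1).union b2).union b3).union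
    b4).infinite_compl).nonempty
  simp only [Set.mem_compl_iff, Set.mem_union, Set.mem_ofPred_eq, not_or, not_not] at ht
  obtain ⟨⟨⟨⟨⟨⟨h1, h2⟩, h3⟩, h4⟩, h5⟩, h6⟩, h7⟩ := ht
  simp only [hD₁, hD₂, dd_apply, sub_eq_zero] at h2 h3
  obtain ⟨g', hg'⟩ := split_off K h2 h3 h4 h5 h6 h7
  have h8 : Rigid (f.prodMap g') := hm.iso (h1.trans hg'.symm)
  have h9 : Rigid g' := EZero.of_prod_left_snd (EZero.of_prod_right_snd h8)
  have h10 : Iso g' g := rigid_unique K h9 hg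
  have h11 : Rigid (f.prodMap g) := h8.iso ((Iso.refl f).prod h10)
  exact hN ⟨EZero.of_prod_left_fst (EZero.of_prod_right_snd h11),
    EZero.of_prod_left_snd (EZero.of_prod_right_fst h11)⟩

end Pool.Agent.H51.T2
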