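import Pool.Agent.H51.T2.Loc

/-! Bricks: quotients, submodules, the generated brick. -/

set_option linter.style.haveILetI false
set_option linter.unusedSectionVars false

namespace Pool.Agent.H51.T2

open Module

universe u

/-- A nonzero module all of whose nonzero endomorphisms are bijective. -/
def Brick (A : Type*) [Ring A] (M : Type*) [AddCommGroup M] [Module A M] : Prop :=
  Nontrivial M ∧ ∀ f : M →ₗ[A] M, f ≠ 0 → Function.Bijective f

section basic
variable {A : Type*} [Ring A]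
variable {P Q M N S : Type*} [AddCommGroup P] [Module A P] [AddCommGroup Q] [Module A Q]
  [AddCommGroup M] [Module A M] [AddCommGroup N] [Module A N] [AddCommGroup S] [Module A S]

theorem Brick.bij_of_surj (hN : Brick A N) {π : N →ₗ[A] S} (hπ : Function.Surjective π)
    {ι : S →ₗ[A] N} (hι : ι ≠ 0) : Function.Bijective π := by
  have h : ι ∘ₗ π ≠ 0 := by
    intro h
    apply hι
    ext s
    obtain ⟨x, rfl⟩ := hπ s
    exact LinearMap.congr_fun h x
  have h2 := (hN.2 _ h).1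
  exact ⟨Function.Injective.of_comp (f := ι) h2, hπ⟩

theorem TT.ker {f : P →ₗ[A] Q} {φ : M →ₗ[A] N} (h : TT f M) (h' : HH f N) :
    TT f (LinearMap.ker φ) := by
  intro k
  obtain ⟨l, hl⟩ := h ((LinearMap.ker φ).subtype ∘ₗ k)
  have h1 : (φ ∘ₗ l) ∘ₗ f = 0 := by
    ext x
    have := LinearMap.congr_fun hl x
    simp only [LinearMap.comp_apply, LinearMap.zero_apply] at this ⊢
    rw [← this]
    exact (k x).2
  have h2 := h' _ h1
  refine ⟨LinearMap.codRestrict _ l (fun x => LinearMap.congr_fun h2 x), ?_⟩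
  ext x
  exact LinearMap.congr_fun hl x

theorem HH.of_inj {f : P →ₗ[A] Q} {ι : M →ₗ[A] N} (hι : Function.Injective ι) (h : HH f N) :
    HH f M := by
  intro l hl
  have h1 := h (ι ∘ₗ l) (by rw [LinearMap.comp_assoc, hl, LinearMap.comp_zero])
  ext x
  apply hι
  rw [LinearMap.zero_apply, map_zero]
  exact LinearMap.congr_fun h1 x

theorem HH.quot [Module.Projective A Q] {f : P →ₗ[A] Q} {W : Submodule A M} (h : HH f M)
    (hW : TT f W) : HH f (M ⧸ W) := by
  intro l hl
  obtain ⟨l', hl'⟩ := Module.projective_lifting_property W.mkQ l (Submodule.mkQ_surjective _)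
  have h1 : ∀ x, (l' ∘ₗ f) x ∈ W := by
    intro x
    rw [← Submodule.Quotient.mk_eq_zero]
    have := LinearMap.congr_fun hl x
    rw [← hl'] at this
    exact this
  obtain ⟨m, hm⟩ := hW (LinearMap.codRestrict _ (l' ∘ₗ f) h1)
  have h2 : (l' - W.subtype ∘ₗ m) ∘ₗ f = 0 := by
    ext x
    have := congrArg Subtype.val (LinearMap.congr_fun hm x)
    simp only [LinearMap.codRestrict_apply, LinearMap.comp_apply] at this
    simp [this]
  have h3 := h _ h2
  rw [← hl']
  ext x
  have h4 : l' x = m x := by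
    have := LinearMap.congr_fun h3 x
    simpa [sub_eq_zero] using this
  simp only [LinearMap.comp_apply, Submodule.mkQ_apply, LinearMap.zero_apply]
  rw [h4, Submodule.Quotient.mk_eq_zero]
  exact (m x).2

/-- A smallest nonzero quotient without maps from the cokernel. -/
theorem min_quot [IsNoetherian A N] [Module.Projective A P] [Module.Projective A Q]
    {f : P →ₗ[A] Q} (hex : ∃ W : Submodule A N, W ≠ ⊤ ∧ HH f (N ⧸ W)) :
    ∃ W : Submodule A N, W ≠ ⊤ ∧ HH f (N ⧸ W) ∧
      ∀ φ : S →ₗ[A] (N ⧸ W), TT f S → φ ≠ 0 → Function.Surjective φ := by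
  obtain ⟨W, ⟨hW1, hW2⟩, hW3⟩ := WellFounded.has_min
    (wellFounded_gt (α := Submodule A N)) {W | W ≠ ⊤ ∧ HH f (N ⧸ W)} hex
  refine ⟨W, hW1, hW2, fun φ hS hφ => ?_⟩
  rw [← LinearMap.range_eq_top]
  by_contra hne
  set I := LinearMap.range φ with hI
  have h1 : TT f I := hS.surj φ.surjective_rangeRestrict
  have h2 : HH f ((N ⧸ W) ⧸ I) := hW2.quot h1
  let ρ : N →ₗ[A] ((N ⧸ W) ⧸ I) := I.mkQ ∘ₗ W.mkQ
  have hρ : Function.Surjective ρ :=
    (Submodule.mkQ_surjective _).comp (Submodule.mkQ_surjective _)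
  have h3 : HH f (N ⧸ LinearMap.ker ρ) :=
    h2.of_inj (ι := (LinearMap.quotKerEquivOfSurjective ρ hρ).toLinearMap)
      (LinearEquiv.injective _)
  have h4 : LinearMap.ker ρ ≠ ⊤ := by
    intro h
    apply hne
    rw [eq_top_iff]
    intro y _
    obtain ⟨x, rfl⟩ := Submodule.mkQ_surjective W y
    have : x ∈ LinearMap.ker ρ := by rw [h]; trivial
    rw [LinearMap.mem_ker] at this
    exact (Submodule.Quotient.mk_eq_zero I).1 this
  have h5 : W ≤ LinearMap.ker ρ := by
    intro x hx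
    rw [LinearMap.mem_ker]
    show I.mkQ (W.mkQ x) = 0
    have : W.mkQ x = 0 := (Submodule.Quotient.mk_eq_zero W).2 hx
    rw [this, map_zero]
  have h6 := hW3 _ ⟨h4, h3⟩
  have h7 : LinearMap.ker ρ ≤ W := by
    by_contra hlt
    exact h6 (lt_of_le_not_ge h5 hlt)
  apply hφ
  ext s
  obtain ⟨x, hx⟩ := Submodule.mkQ_surjective W (φ s)
  have h8 : x ∈ LinearMap.ker ρ := by
    rw [LinearMap.mem_ker]
    show I.mkQ (W.mkQ x) = 0
    rw [hx]
    exact (Submodule.Quotient.mk_eq_zero I).2 ⟨s, rfl⟩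
  have h9 := h7 h8
  rw [LinearMap.zero_apply, ← hx]
  exact (Submodule.Quotient.mk_eq_zero W).2 h9

/-- The sum of the images of all endomorphisms which are not bijective. -/
def jac (A : Type*) [Ring A] (C : Type*) [AddCommGroup C] [Module A C] : Submodule A C :=
  ⨆ j : {j : C →ₗ[A] C // ¬ Function.Bijective j}, LinearMap.range j.1

theorem mem_jac {C : Type*} [AddCommGroup C] [Module A C] {j : C →ₗ[A] C}
    (hj : ¬ Function.Bijective j) (x : C) : j x ∈ jac A C :=
  Submodule.mem_iSup_of_mem (⟨j, hj⟩ : {j : C →ₗ[A] C // ¬ Function.Bijective j}) ⟨x, rfl⟩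

end basic

section dims
variable (K : Type*) [Field K] {A : Type*} [Ring A] [Algebra K A]
variable {C M : Type*}
variable [AddCommGroup C] [Module K C] [Module A C] [IsScalarTower K A C] [FiniteDimensional K C]
variable [AddCommGroup M] [Module K M] [Module A M] [IsScalarTower K A M] [FiniteDimensional K M]

include K in
/-- A nonzero map killed by all endomorphisms which are not bijective. -/
theorem exists_socle (hloc : ∀ φ : C →ₗ[A] C, Function.Bijective φ ∨ ∃ n, φ ^ n = 0)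
    (φ₀ : C →ₗ[A] M) (h0 : φ₀ ≠ 0) :
    ∃ φ : C →ₗ[A] M, φ ≠ 0 ∧ ∀ j : C →ₗ[A] C, ¬ Function.Bijective j → φ ∘ₗ j = 0 := by
  classical
  haveI : FiniteDimensional K (C →ₗ[A] C) := finite_hom
  haveI : FiniteDimensional K (C →ₗ[A] M) := finite_hom
  let R : (C →ₗ[A] M) → Submodule K (C →ₗ[A] M) := fun φ => LinearMap.range (compB K C C M φ)
  have hex : ∃ n, ∃ φ : C →ₗ[A] M, φ ≠ 0 ∧ finrank K (R φ) = n := ⟨_, φ₀, h0, rfl⟩
  obtain ⟨φ, hφ, hd⟩ := Nat.find_spec hex
  refine ⟨φ, hφ, fun j hj => ?_⟩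
  by_contra hne
  have h1 : R (φ ∘ₗ j) ≤ R φ := by
    rintro _ ⟨g, rfl⟩
    exact ⟨j ∘ₗ g, rfl⟩
  have h2 := Nat.find_min' hex ⟨φ ∘ₗ j, hne, rfl⟩
  rw [← hd] at h2
  have h3 : R (φ ∘ₗ j) = R φ := Submodule.eq_of_le_of_finrank_le h1 h2
  have h4 : φ ∈ R (φ ∘ₗ j) := by
    rw [h3]
    exact ⟨LinearMap.id, rfl⟩
  obtain ⟨g, hg⟩ := h4
  have hg' : φ ∘ₗ (j ∘ₗ g) = φ := hg
  rcases hloc (j ∘ₗ g) with h5 | ⟨n, hn⟩
  · apply hj
    have h6 : Function.Surjective j := Function.Surjective.of_comp (g := g) h5.2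
    have h7 : Function.Injective j :=
      (LinearMap.injective_iff_surjective (f := j.restrictScalars K)).2 h6
    exact ⟨h7, h6⟩
  · have h6 : ∀ m : ℕ, φ ∘ₗ ((j ∘ₗ g) ^ m) = φ := by
      intro m
      induction m with
      | zero => rfl
      | succ m ih =>
        rw [pow_succ, Module.End.mul_eq_comp, ← LinearMap.comp_assoc, ih, hg']
    apply hφ
    rw [← h6 n, hn, LinearMap.comp_zero]

end dims

end Pool.Agent.H51.T2
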