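import Pool.Agent.H51.T2.Rank

/-! Two-term complexes of finite-dimensional modules: the space `E`, rigidity, isomorphisms. -/

namespace Pool.Agent.H51.T2

open Module

section defs

variable (K : Type*) [Field K] {A : Type*} [Ring A] [Algebra K A]
variable {P Q P' Q' P'' Q'' : Type*}
variable [AddCommGroup P] [Module K P] [Module A P] [IsScalarTower K A P]
variable [AddCommGroup Q] [Module K Q] [Module A Q] [IsScalarTower K A Q]
variable [AddCommGroup P'] [Module K P'] [Module A P'] [IsScalarTower K A P']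
variable [AddCommGroup Q'] [Module K Q'] [Module A Q'] [IsScalarTower K A Q']
variable [AddCommGroup P''] [Module K P''] [Module A P''] [IsScalarTower K A P'']
variable [AddCommGroup Q''] [Module K Q''] [Module A Q''] [IsScalarTower K A Q'']

/-- Composition as a bilinear map over the field. -/
def compB (P P' P'' : Type*)
    [AddCommGroup P] [Module K P] [Module A P] [IsScalarTower K A P]
    [AddCommGroup P'] [Module K P'] [Module A P'] [IsScalarTower K A P']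
    [AddCommGroup P''] [Module K P''] [Module A P''] [IsScalarTower K A P''] :
    (P' →ₗ[A] P'') →ₗ[K] (P →ₗ[A] P') →ₗ[K] (P →ₗ[A] P'') :=
  LinearMap.mk₂ K (fun g s => g ∘ₗ s)
    (fun g g' s => by ext x; simp)
    (fun c g s => by ext x; simp)
    (fun g s s' => by ext x; simp)
    (fun c g s => by ext x; simp)

/-- The differential: a pair of module maps `(s, t)` goes to `g s - t f`. -/
def dd (f : P →ₗ[A] Q) (g : P' →ₗ[A] Q') :
    ((P →ₗ[A] P') × (Q →ₗ[A] Q')) →ₗ[K] (P →ₗ[A] Q') :=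
  LinearMap.coprod (compB K P P' Q' g) (-((compB K P Q Q').flip f))

@[simp] theorem compB_apply (g : P' →ₗ[A] P'') (s : P →ₗ[A] P') :
    compB K P P' P'' g s = g ∘ₗ s := rfl

theorem dd_apply (f : P →ₗ[A] Q) (g : P' →ₗ[A] Q') (x : (P →ₗ[A] P') × (Q →ₗ[A] Q')) :
    dd K f g x = g ∘ₗ x.1 - x.2 ∘ₗ f := by
  simp [dd, sub_eq_add_neg]

/-- The dimension of the space `E(f, g)`: maps from the source of `f` to the target of `g`
modulo the maps `g s - t f`. -/
noncomputable def ee (f : P →ₗ[A] Q) (g : P' →ₗ[A] Q') : ℕ :=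
  finrank K ((P →ₗ[A] Q') ⧸ LinearMap.range (dd K f g))

end defs

section rigid
variable {A : Type*} [Ring A]
variable {P Q P' Q' P'' Q'' P₁ Q₁ P₁' Q₁' : Type*}
variable [AddCommGroup P] [Module A P] [AddCommGroup Q] [Module A Q]
variable [AddCommGroup P'] [Module A P'] [AddCommGroup Q'] [Module A Q']
variable [AddCommGroup P''] [Module A P''] [AddCommGroup Q''] [Module A Q'']
variable [AddCommGroup P₁] [Module A P₁] [AddCommGroup Q₁] [Module A Q₁]
variable [AddCommGroup P₁'] [Module A P₁'] [AddCommGroup Q₁'] [Module A Q₁']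

/-- The space `E(f, g)` vanishes: every module map from the source of `f` to the target of `g`
is of the form `g s - t f`. -/
def EZero (f : P →ₗ[A] Q) (g : P' →ₗ[A] Q') : Prop :=
  ∀ h : P →ₗ[A] Q', ∃ (s : P →ₗ[A] P') (t : Q →ₗ[A] Q'), h = g ∘ₗ s - t ∘ₗ f

/-- A module map, seen as a two-term complex, is rigid if `E(f, f) = 0`. -/
def Rigid (f : P →ₗ[A] Q) : Prop := EZero f f

/-- Isomorphism of two-term complexes. -/
def Iso (f : P →ₗ[A] Q) (g : P' →ₗ[A] Q') : Prop :=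
  ∃ (α : P ≃ₗ[A] P') (β : Q ≃ₗ[A] Q'), g ∘ₗ α.toLinearMap = β.toLinearMap ∘ₗ f

theorem Iso.refl (f : P →ₗ[A] Q) : Iso f f :=
  ⟨LinearEquiv.refl A P, LinearEquiv.refl A Q, by ext; simp⟩

theorem Iso.symm {f : P →ₗ[A] Q} {g : P' →ₗ[A] Q'} (h : Iso f g) : Iso g f := by
  obtain ⟨α, β, h⟩ := h
  refine ⟨α.symm, β.symm, ?_⟩
  ext x
  have := LinearMap.congr_fun h (α.symm x)
  simp only [LinearMap.comp_apply, LinearEquiv.coe_coe, LinearEquiv.apply_symm_apply] at this ⊢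
  rw [this, LinearEquiv.symm_apply_apply]

theorem Iso.trans {f : P →ₗ[A] Q} {g : P' →ₗ[A] Q'} {k : P'' →ₗ[A] Q''} (h : Iso f g)
    (h' : Iso g k) : Iso f k := by
  obtain ⟨α, β, h⟩ := h
  obtain ⟨α', β', h'⟩ := h'
  refine ⟨α.trans α', β.trans β', ?_⟩
  ext x
  have h1 := LinearMap.congr_fun h x
  have h2 := LinearMap.congr_fun h' (α x)
  simp only [LinearMap.comp_apply, LinearEquiv.coe_coe, LinearEquiv.trans_apply] at h1 h2 ⊢
  rw [h2, h1]

theorem EZero.iso {f : P →ₗ[A] Q} {g : P' →ₗ[A] Q'} {f₁ : P₁ →ₗ[A] Q₁} {g₁ : P₁' →ₗ[A] Q₁'}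
    (h : EZero f g) (hf : Iso f f₁) (hg : Iso g g₁) : EZero f₁ g₁ := by
  obtain ⟨α, β, h1⟩ := hf
  obtain ⟨α', β', h2⟩ := hg
  intro k
  obtain ⟨s, t, hst⟩ := h (β'.symm.toLinearMap ∘ₗ k ∘ₗ α.toLinearMap)
  refine ⟨α'.toLinearMap ∘ₗ s ∘ₗ α.symm.toLinearMap, β'.toLinearMap ∘ₗ t ∘ₗ β.symm.toLinearMap, ?_⟩
  ext x
  have h3 := LinearMap.congr_fun hst (α.symm x)
  have h4 := LinearMap.congr_fun h1 (α.symm x)
  have h5 := LinearMap.congr_fun h2 (s (α.symm x))
  simp only [LinearMap.comp_apply, LinearEquiv.coe_coe, LinearEquiv.apply_symm_apply,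
    LinearMap.sub_apply] at h3 h4 h5 ⊢
  have h6 : k x = β' (g (s (α.symm x)) - t (f (α.symm x))) := by
    rw [← h3, LinearEquiv.apply_symm_apply]
  rw [h6, map_sub, h5, h4, LinearEquiv.symm_apply_apply]

theorem Rigid.iso {f : P →ₗ[A] Q} {g : P' →ₗ[A] Q'} (h : Rigid f) (hf : Iso f g) : Rigid g :=
  EZero.iso h hf hf

theorem EZero.prod_left {f : P →ₗ[A] Q} {f' : P' →ₗ[A] Q'} {g : P₁ →ₗ[A] Q₁} (h : EZero f g)
    (h' : EZero f' g) : EZero (f.prodMap f') g := by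
  intro k
  obtain ⟨s, t, hst⟩ := h (k ∘ₗ LinearMap.inl A P P')
  obtain ⟨s', t', hst'⟩ := h' (k ∘ₗ LinearMap.inr A P P')
  refine ⟨s.coprod s', t.coprod t', ?_⟩
  refine LinearMap.prod_ext ?_ ?_
  · rw [hst]; ext x; simp
  · rw [hst']; ext x; simp

theorem EZero.prod_right {f : P →ₗ[A] Q} {f' : P' →ₗ[A] Q'} {g : P₁ →ₗ[A] Q₁} (h : EZero g f)
    (h' : EZero g f') : EZero g (f.prodMap f') := by
  intro k
  obtain ⟨s, t, hst⟩ := h (LinearMap.fst A Q Q' ∘ₗ k)
  obtain ⟨s', t', hst'⟩ := h' (LinearMap.snd A Q Q' ∘ₗ k)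
  refine ⟨s.prod s', t.prod t', ?_⟩
  ext x
  · simpa using LinearMap.congr_fun hst x
  · simpa using LinearMap.congr_fun hst' x

theorem EZero.of_prod_left_fst {f : P →ₗ[A] Q} {f' : P' →ₗ[A] Q'} {g : P₁ →ₗ[A] Q₁}
    (h : EZero (f.prodMap f') g) : EZero f g := by
  intro k
  obtain ⟨s, t, hst⟩ := h (k ∘ₗ LinearMap.fst A P P')
  refine ⟨s ∘ₗ LinearMap.inl A P P', t ∘ₗ LinearMap.inl A Q Q', ?_⟩
  ext x
  simpa using LinearMap.congr_fun hst (x, 0)

theorem EZero.of_prod_left_snd {f : P →ₗ[A] Q} {f' : P' →ₗ[A] Q'} {g : P₁ →ₗ[A] Q₁}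
    (h : EZero (f.prodMap f') g) : EZero f' g := by
  intro k
  obtain ⟨s, t, hst⟩ := h (k ∘ₗ LinearMap.snd A P P')
  refine ⟨s ∘ₗ LinearMap.inr A P P', t ∘ₗ LinearMap.inr A Q Q', ?_⟩
  ext x
  simpa using LinearMap.congr_fun hst (0, x)

theorem EZero.of_prod_right_fst {f : P →ₗ[A] Q} {f' : P' →ₗ[A] Q'} {g : P₁ →ₗ[A] Q₁}
    (h : EZero g (f.prodMap f')) : EZero g f := by
  intro k
  obtain ⟨s, t, hst⟩ := h (LinearMap.inl A Q Q' ∘ₗ k)
  refine ⟨LinearMap.fst A P P' ∘ₗ s, LinearMap.fst A Q Q' ∘ₗ t, ?_⟩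
  ext x
  simpa using congrArg Prod.fst (LinearMap.congr_fun hst x)

theorem EZero.of_prod_right_snd {f : P →ₗ[A] Q} {f' : P' →ₗ[A] Q'} {g : P₁ →ₗ[A] Q₁}
    (h : EZero g (f.prodMap f')) : EZero g f' := by
  intro k
  obtain ⟨s, t, hst⟩ := h (LinearMap.inr A Q Q' ∘ₗ k)
  refine ⟨LinearMap.snd A P P' ∘ₗ s, LinearMap.snd A Q Q' ∘ₗ t, ?_⟩
  ext x
  simpa using congrArg Prod.snd (LinearMap.congr_fun hst x)

theorem Rigid.prod {f : P →ₗ[A] Q} {g : P' →ₗ[A] Q'} (hf : Rigid f) (hg : Rigid g)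
    (h : EZero f g) (h' : EZero g f) : Rigid (f.prodMap g) :=
  EZero.prod_left (EZero.prod_right hf h) (EZero.prod_right h' hg)

theorem Iso.prod {f : P →ₗ[A] Q} {g : P' →ₗ[A] Q'} {f₁ : P₁ →ₗ[A] Q₁} {g₁ : P₁' →ₗ[A] Q₁'}
    (hf : Iso f f₁) (hg : Iso g g₁) : Iso (f.prodMap g) (f₁.prodMap g₁) := by
  obtain ⟨α, β, h1⟩ := hf
  obtain ⟨α', β', h2⟩ := hg
  refine ⟨α.prodCongr α', β.prodCongr β', ?_⟩
  ext x
  · simpa using LinearMap.congr_fun h1 x
  · simp
  · simp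
  · simpa using LinearMap.congr_fun h2 x

end rigid

section both

variable {K : Type*} [Field K] {A : Type*} [Ring A] [Algebra K A]
variable {P Q P' Q' P₁ Q₁ P₁' Q₁' : Type*}
variable [AddCommGroup P] [Module K P] [Module A P] [IsScalarTower K A P]
variable [AddCommGroup Q] [Module K Q] [Module A Q] [IsScalarTower K A Q]
variable [AddCommGroup P'] [Module K P'] [Module A P'] [IsScalarTower K A P']
variable [AddCommGroup Q'] [Module K Q'] [Module A Q'] [IsScalarTower K A Q']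
variable [AddCommGroup P₁] [Module K P₁] [Module A P₁] [IsScalarTower K A P₁]
variable [AddCommGroup Q₁] [Module K Q₁] [Module A Q₁] [IsScalarTower K A Q₁]
variable [AddCommGroup P₁'] [Module K P₁'] [Module A P₁'] [IsScalarTower K A P₁']
variable [AddCommGroup Q₁'] [Module K Q₁'] [Module A Q₁'] [IsScalarTower K A Q₁']

theorem finite_hom [FiniteDimensional K P] [FiniteDimensional K Q] :
    FiniteDimensional K (P →ₗ[A] Q) :=
  Module.Finite.of_injective (LinearMap.restrictScalarsₗ K A P Q K)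
    (LinearMap.restrictScalars_injective K)

theorem eZero_iff_range {f : P →ₗ[A] Q} {g : P' →ₗ[A] Q'} :
    EZero f g ↔ LinearMap.range (dd K f g) = ⊤ := by
  rw [LinearMap.range_eq_top]
  constructor
  · intro h k
    obtain ⟨s, t, hst⟩ := h k
    exact ⟨(s, t), by rw [dd_apply, hst]⟩
  · intro h k
    obtain ⟨x, hx⟩ := h k
    exact ⟨x.1, x.2, by rw [← hx, dd_apply]⟩

theorem eZero_iff_ee [FiniteDimensional K P] [FiniteDimensional K Q'] {f : P →ₗ[A] Q}
    {g : P' →ₗ[A] Q'} : EZero f g ↔ ee K f g = 0 := by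
  have : FiniteDimensional K (P →ₗ[A] Q') := finite_hom
  rw [eZero_iff_range (K := K), ee, Module.finrank_eq_zero_iff_of_free]
  exact (Submodule.Quotient.subsingleton_iff).symm

theorem ee_add_rank [FiniteDimensional K P] [FiniteDimensional K Q'] (f : P →ₗ[A] Q)
    (g : P' →ₗ[A] Q') :
    ee K f g + finrank K (LinearMap.range (dd K f g)) = finrank K (P →ₗ[A] Q') := by
  have : FiniteDimensional K (P →ₗ[A] Q') := finite_hom
  exact Submodule.finrank_quotient_add_finrank _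

theorem ee_iso {f : P →ₗ[A] Q} {g : P' →ₗ[A] Q'} {f₁ : P₁ →ₗ[A] Q₁} {g₁ : P₁' →ₗ[A] Q₁'}
    (hf : Iso f f₁) (hg : Iso g g₁) : ee K f g = ee K f₁ g₁ := by
  obtain ⟨α, β, h1⟩ := hf
  obtain ⟨α', β', h2⟩ := hg
  let E : (P →ₗ[A] Q') ≃ₗ[K] (P₁ →ₗ[A] Q₁') :=
    { toFun := fun k => β'.toLinearMap ∘ₗ k ∘ₗ α.symm.toLinearMap
      invFun := fun k => β'.symm.toLinearMap ∘ₗ k ∘ₗ α.toLinearMap
      map_add' := fun k k' => by ext x; simp
      map_smul' := fun c k => by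
        ext x
        simp only [LinearMap.comp_apply, LinearEquiv.coe_coe, LinearMap.smul_apply,
          RingHom.id_apply]
        exact LinearMap.map_smul_of_tower β'.toLinearMap c _
      left_inv := fun k => by ext x; simp
      right_inv := fun k => by ext x; simp }
  refine LinearEquiv.finrank_eq (Submodule.Quotient.equiv _ _ E ?_)
  ext k
  simp only [Submodule.mem_map, LinearMap.mem_range]
  constructor
  · rintro ⟨k', ⟨x, rfl⟩, rfl⟩
    refine ⟨(α'.toLinearMap ∘ₗ x.1 ∘ₗ α.symm.toLinearMap,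
      β'.toLinearMap ∘ₗ x.2 ∘ₗ β.symm.toLinearMap), ?_⟩
    rw [dd_apply, dd_apply]
    ext y
    have h4 := LinearMap.congr_fun h1 (α.symm y)
    have h5 := LinearMap.congr_fun h2 (x.1 (α.symm y))
    simp only [LinearMap.comp_apply, LinearEquiv.coe_coe, LinearEquiv.apply_symm_apply] at h4 h5
    simp [E, h4, h5]
  · rintro ⟨x, rfl⟩
    refine ⟨E.symm (dd K f₁ g₁ x), ⟨(α'.symm.toLinearMap ∘ₗ x.1 ∘ₗ α.toLinearMap,
      β'.symm.toLinearMap ∘ₗ x.2 ∘ₗ β.toLinearMap), ?_⟩, by simp⟩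
    rw [dd_apply, dd_apply]
    ext y
    have h4 := LinearMap.congr_fun h1 y
    have h5 := LinearMap.congr_fun h2 (α'.symm (x.1 (α y)))
    simp only [LinearMap.comp_apply, LinearEquiv.coe_coe, LinearEquiv.apply_symm_apply] at h4 h5
    simp [E, ← h4, h5]

end both

end Pool.Agent.H51.T2
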